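import Mathlib
import Pool.Agent.MP_c6cf52_lc.Names
import Pool.Agent.MP_a078ad_lc.Defs

section

namespace Pool.Agent.MP_a078ad_lc

open Set

/-- Coordinates; the first component is the type of the coordinate. -/
abbrev I : Type := ℕ × ℕ

/-- The group of finite flips. -/
abbrev Gam : Type := I →₀ ZMod 2

theorem two_self (a : ZMod 2) : a + a = 0 := CharTwo.add_self_eq_zero a

theorem two_eq {a b : ZMod 2} (ha : a ≠ 0) (hb : b ≠ 0) : a = b := by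
  revert a b; decide

theorem gam_self (a : Gam) : a + a = 0 := by
  ext i; simp [two_self]

/-- Flips of coordinates of type at least `k`. -/
def InH (k : ℕ) (σ : Gam) : Prop := ∀ i, σ i ≠ 0 → k ≤ i.1

theorem InH.zero (k : ℕ) : InH k 0 := fun i h => by simp at h

theorem InH.add {k : ℕ} {σ τ : Gam} (h₁ : InH k σ) (h₂ : InH k τ) : InH k (σ + τ) := by
  intro i h
  by_cases h' : σ i = 0
  · exact h₂ i (by simpa [h'] using h)
  · exact h₁ i h'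

theorem InH.mono {k l : ℕ} {σ : Gam} (h : InH l σ) (hkl : k ≤ l) : InH k σ :=
  fun i hi => hkl.trans (h i hi)

theorem inH_zero (σ : Gam) : InH 0 σ := fun _ _ => Nat.zero_le _

theorem InH.of_add {k : ℕ} {σ τ : Gam} (h₁ : InH k (σ + τ)) (h₂ : InH k τ) : InH k σ := by
  have := h₁.add h₂
  rwa [add_assoc, gam_self, add_zero] at this

/-- A base point and a family of disjoint finite blocks, infinitely many of each type. -/
structure P where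
  x : I → ZMod 2
  b : I → Gam
  disj : ∀ m n i, b m i ≠ 0 → b n i ≠ 0 → m = n
  inH : ∀ n, InH n.1 (b n)
  notH : ∀ n, ¬ InH (n.1 + 1) (b n)

namespace P

/-- `d` is the indicator of a union of blocks. -/
def Sat (p : P) (d : I → ZMod 2) : Prop :=
  (∀ i, d i ≠ 0 → ∃ n, p.b n i ≠ 0) ∧ ∀ n i j, p.b n i ≠ 0 → p.b n j ≠ 0 → d i = d j

theorem sat_zero (p : P) : p.Sat 0 := ⟨fun i h => by simp at h, fun _ _ _ _ _ => rfl⟩

theorem Sat.add {p : P} {d e : I → ZMod 2} (h₁ : p.Sat d) (h₂ : p.Sat e) : p.Sat (d + e) := by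
  refine ⟨fun i h => ?_, fun n i j hi hj => ?_⟩
  · by_cases h' : d i = 0
    · exact h₂.1 i (by simpa [h'] using h)
    · exact h₁.1 i h'
  · simp only [Pi.add_apply, h₁.2 n i j hi hj, h₂.2 n i j hi hj]

theorem sat_b (p : P) (n : I) : p.Sat (p.b n) := by
  refine ⟨fun i h => ⟨n, h⟩, fun m i j hi hj => ?_⟩
  by_cases h : m = n
  · subst h; exact two_eq hi hj
  · have h₁ : p.b n i = 0 := by_contra fun h' => h (p.disj _ _ _ hi h')
    have h₂ : p.b n j = 0 := by_contra fun h' => h (p.disj _ _ _ hj h')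
    rw [h₁, h₂]

theorem Sat.trans' {p q : P} {d : I → ZMod 2} (h : q.Sat d)
    (H : ∀ n i, d i ≠ 0 → q.b n i ≠ 0 → p.Sat (q.b n)) : p.Sat d := by
  refine ⟨fun i hi => ?_, fun m i j hi hj => ?_⟩
  · obtain ⟨n, hn⟩ := h.1 i hi
    exact (H n i hi hn).1 i hn
  · have key : ∀ i j, p.b m i ≠ 0 → p.b m j ≠ 0 → d i ≠ 0 → d i = d j := by
      intro i j hi hj hd
      obtain ⟨n, hn⟩ := h.1 i hd
      exact h.2 n i j hn ((H n i hd hn).2 m i j hi hj ▸ hn)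
    by_cases h₁ : d i = 0
    · by_cases h₂ : d j = 0
      · rw [h₁, h₂]
      · exact (key j i hj hi h₂).symm
    · exact key i j hi hj h₁

theorem pi_self (d : I → ZMod 2) : d + d = 0 := by
  funext i; exact two_self _

instance : Preorder P where
  le q p := p.Sat (q.x + p.x) ∧ ∀ n, p.Sat (q.b n)
  le_refl p := ⟨by rw [pi_self]; exact p.sat_zero, p.sat_b⟩
  le_trans r q p h₁ h₂ := by
    refine ⟨?_, fun n => (h₁.2 n).trans' fun m _ _ _ => h₂.2 m⟩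
    have := (h₁.1.trans' fun m _ _ _ => h₂.2 m).add h₂.1
    rwa [add_assoc, ← add_assoc q.x, pi_self, zero_add] at this

theorem le_def {q p : P} : q ≤ p ↔ p.Sat (q.x + p.x) ∧ ∀ n, p.Sat (q.b n) := Iff.rfl

theorem Sat.of_le {p q : P} {d : I → ZMod 2} (h : q.Sat d) (hq : q ≤ p) : p.Sat d :=
  h.trans' fun m _ _ _ => hq.2 m

noncomputable def top : P where
  x := 0
  b n := Finsupp.single n 1
  disj m n i h₁ h₂ := by
    rw [Finsupp.single_apply_ne_zero] at h₁ h₂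
    rw [← h₁.1, ← h₂.1]
  inH n i h := by
    rw [Finsupp.single_apply_ne_zero] at h
    rw [h.1]
  notH n h := by
    have := h n (by simp)
    omega

theorem top_sat (d : I → ZMod 2) : top.Sat d := by
  refine ⟨fun i _ => ⟨i, by simp [top]⟩, fun n i j hi hj => ?_⟩
  simp only [top] at hi hj
  rw [Finsupp.single_apply_ne_zero] at hi hj
  rw [hi.1, hj.1]

noncomputable instance : OrderTop P where
  top := top
  le_top _ := ⟨top_sat _, fun _ => top_sat _⟩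

def shift (σ : Gam) (p : P) : P := { p with x := p.x + σ }

theorem shift_sat {σ : Gam} {p : P} {d : I → ZMod 2} : (shift σ p).Sat d ↔ p.Sat d := Iff.rfl

theorem shift_mono (σ : Gam) {p q : P} (h : q ≤ p) : shift σ q ≤ shift σ p := by
  refine ⟨?_, h.2⟩
  have : (shift σ q).x + (shift σ p).x = q.x + p.x := by
    funext i
    simp only [shift, Pi.add_apply]
    linear_combination two_self (σ i)
  rw [this]
  exact h.1

theorem shift_le_iff {σ : Gam} {p : P} : shift σ p ≤ p ↔ p.Sat σ := by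
  have : (shift σ p).x + p.x = σ := by
    funext i
    simp only [shift, Pi.add_apply]
    linear_combination two_self (p.x i)
  rw [le_def, this]
  exact ⟨fun h => h.1, fun h => ⟨h, p.sat_b⟩⟩

/-- The coordinate `i` is decided. -/
def Dec (p : P) (i : I) : Prop := ∀ n, p.b n i = 0

theorem Dec.sat {p : P} {i : I} (h : p.Dec i) {d : I → ZMod 2} (hd : p.Sat d) : d i = 0 := by
  by_contra h'
  obtain ⟨n, hn⟩ := hd.1 i h'
  exact hn (h n)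

theorem Dec.mono {p q : P} {i : I} (h : p.Dec i) (hq : q ≤ p) : q.Dec i :=
  fun n => h.sat (hq.2 n)

theorem Dec.x_eq {p q : P} {i : I} (h : p.Dec i) (hq : q ≤ p) : q.x i = p.x i := by
  have := h.sat hq.1
  simp only [Pi.add_apply] at this
  linear_combination this - two_self (p.x i)

theorem exists_dec (p : P) (T : Finset I) : ∃ q ≤ p, ∀ i ∈ T, q.Dec i := by
  classical
  have h : ∀ i, ∃ N, ∀ n, p.b n i ≠ 0 → n.2 < N := by
    intro i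
    by_cases h : ∃ n, p.b n i ≠ 0
    · obtain ⟨n, hn⟩ := h
      exact ⟨n.2 + 1, fun m hm => by rw [p.disj _ _ _ hm hn]; omega⟩
    · exact ⟨0, fun m hm => absurd ⟨m, hm⟩ h⟩
  choose N hN using h
  let M := T.sup N
  refine ⟨⟨p.x, fun n => p.b (n.1, n.2 + M), fun m n i h₁ h₂ => ?_, fun n => p.inH _,
    fun n => p.notH _⟩, ⟨?_, fun n => p.sat_b _⟩, fun i hi n => ?_⟩
  · have := p.disj _ _ _ h₁ h₂
    simp only [Prod.mk.injEq] at this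
    exact Prod.ext this.1 (by omega)
  · show p.Sat (p.x + p.x)
    rw [pi_self]; exact p.sat_zero
  · by_contra h
    have h₁ := hN i _ h
    have h₂ : N i ≤ M := Finset.le_sup hi
    simp only at h₁
    omega

end P

/-- An index set of size `ℵ₁`. -/
def W : Type := (Cardinal.aleph 1).out

theorem mk_W : Cardinal.mk W = Cardinal.aleph 1 := Cardinal.mk_out _

instance : Uncountable W := by
  rw [← Cardinal.aleph0_lt_mk_iff, mk_W]
  exact Cardinal.aleph0_lt_aleph_one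

/-- Countable partial functions. -/
structure Col where
  f : W → Option P
  cnt : {ξ | f ξ ≠ none}.Countable

instance : Preorder Col where
  le d c := ∀ ξ p, c.f ξ = some p → d.f ξ = some p
  le_refl _ _ _ h := h
  le_trans _ _ _ h₁ h₂ ξ p h := h₁ ξ p (h₂ ξ p h)

instance : OrderTop Col where
  top := ⟨fun _ => none, by simp⟩
  le_top _ _ _ h := by cases h

theorem Col.closed (s : ℕ → Col) (hs : Antitone s) : ∃ c, ∀ n, c ≤ s n := by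
  classical
  refine ⟨⟨fun ξ => if h : ∃ n, (s n).f ξ ≠ none then (s h.choose).f ξ else none, ?_⟩, ?_⟩
  · refine (countable_iUnion fun n => (s n).cnt).mono fun ξ h => ?_
    by_contra h'
    simp only [mem_iUnion, mem_ofPred_eq] at h'
    exact h (dif_neg h')
  · intro n ξ p h
    have h' : ∃ n, (s n).f ξ ≠ none := ⟨n, by simp [h]⟩
    show (if h : ∃ n, (s n).f ξ ≠ none then (s h.choose).f ξ else none) = some p
    rw [dif_pos h']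
    obtain ⟨p', hp'⟩ := Option.ne_none_iff_exists'.1 h'.choose_spec
    have h₁ := hs (le_max_left n h'.choose) ξ p h
    have h₂ := hs (le_max_right n h'.choose) ξ p' hp'
    rw [hp', ← h₁, h₂]

theorem Col.exists_ext (c : Col) (p : P) : ∃ ξ, ∃ d ≤ c, d.f ξ = some p := by
  classical
  obtain ⟨ξ, hξ⟩ : ∃ ξ, ξ ∉ {ξ | c.f ξ ≠ none} := by
    by_contra h
    push Not at h
    exact not_countable_univ (c.cnt.mono fun ξ _ => h ξ)
  refine ⟨ξ, ⟨Function.update c.f ξ (some p), (c.cnt.insert ξ).mono fun η h => ?_⟩,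
    fun η q h => ?_, by simp⟩
  · by_cases e : η = ξ
    · exact Or.inl e
    · exact Or.inr (by simpa [Function.update_of_ne e] using h)
  · have e : η ≠ ξ := by
      rintro rfl
      exact hξ (by simp [h])
    simpa [Function.update_of_ne e] using h

/-- The forcing. -/
structure Q where
  c : Col
  p : P

instance : Preorder Q where
  le r q := r.c ≤ q.c ∧ r.p ≤ q.p
  le_refl _ := ⟨le_rfl, le_rfl⟩
  le_trans _ _ _ h₁ h₂ := ⟨h₁.1.trans h₂.1, h₁.2.trans h₂.2⟩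

noncomputable instance : OrderTop Q where
  top := ⟨⊤, ⊤⟩
  le_top _ := ⟨le_top, le_top⟩

instance : AddAction Gam Q where
  vadd σ q := ⟨q.c, P.shift σ q.p⟩
  zero_vadd q := by
    show Q.mk q.c (P.shift 0 q.p) = q
    simp [P.shift]
  add_vadd σ τ q := by
    show Q.mk q.c (P.shift (σ + τ) q.p) = Q.mk q.c (P.shift σ (P.shift τ q.p))
    simp [P.shift, add_assoc, add_comm σ τ]

@[simp] theorem vadd_c (σ : Gam) (q : Q) : (σ +ᵥ q).c = q.c := rfl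
theorem vadd_p (σ : Gam) (q : Q) : (σ +ᵥ q).p = P.shift σ q.p := rfl

theorem vadd_vadd_self {α : Type*} [AddAction Gam α] (σ : Gam) (q : α) : σ +ᵥ σ +ᵥ q = q := by
  rw [← add_vadd, gam_self, zero_vadd]

theorem vadd_mono (σ : Gam) {r q : Q} (h : r ≤ q) : σ +ᵥ r ≤ σ +ᵥ q :=
  ⟨h.1, P.shift_mono σ h.2⟩

theorem vadd_le_swap {σ : Gam} {r q : Q} (h : r ≤ σ +ᵥ q) : σ +ᵥ r ≤ q := by
  simpa only [vadd_vadd_self] using vadd_mono σ h

theorem le_vadd_swap {σ : Gam} {r q : Q} (h : σ +ᵥ r ≤ q) : r ≤ σ +ᵥ q := by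
  simpa only [vadd_vadd_self] using vadd_mono σ h

theorem le_vadd_top (σ : Gam) (q : Q) : q ≤ σ +ᵥ (⊤ : Q) := le_vadd_swap le_top

/-- The stabiliser of a condition. -/
def Stab (q : Q) (σ : Gam) : Prop := q.p.Sat σ

theorem Stab.le {q : Q} {σ : Gam} (h : Stab q σ) : σ +ᵥ q ≤ q :=
  ⟨le_rfl, P.shift_le_iff.2 h⟩

theorem Stab.ge {q : Q} {σ : Gam} (h : Stab q σ) : q ≤ σ +ᵥ q := le_vadd_swap h.le

theorem Stab.zero (q : Q) : Stab q 0 := q.p.sat_zero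

theorem Stab.add {q : Q} {σ τ : Gam} (h₁ : Stab q σ) (h₂ : Stab q τ) : Stab q (σ + τ) :=
  P.Sat.add h₁ h₂

theorem Stab.of_le {q r : Q} {σ : Gam} (h : Stab r σ) (hr : r ≤ q) : Stab q σ :=
  P.Sat.of_le h hr.2

theorem stab_vadd {q : Q} {σ τ : Gam} : Stab (τ +ᵥ q) σ ↔ Stab q σ := Iff.rfl

theorem stab_of_compat {q s : Q} {σ : Gam} (h₁ : s ≤ q) (h₂ : s ≤ σ +ᵥ q) : Stab q σ := by
  have := h₁.2.1.add (P.shift_sat.1 h₂.2.1)
  have e : s.p.x + q.p.x + (s.p.x + (σ +ᵥ q).p.x) = σ := by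
    funext i
    simp only [vadd_p, P.shift, Pi.add_apply]
    linear_combination two_self (s.p.x i) + two_self (q.p.x i)
  rwa [e] at this

theorem exists_blocks (q : Q) (k : ℕ) : ∃ ρ : ℕ → Gam, (∀ u, Stab q (ρ u)) ∧ (∀ u, InH k (ρ u)) ∧
    (∀ u, ¬ InH (k + 1) (ρ u)) ∧ ∀ u v, u ≠ v → ¬ InH (k + 1) (ρ u + ρ v) := by
  refine ⟨fun u => q.p.b (k, u), fun u => q.p.sat_b _, fun u => q.p.inH (k, u),
    fun u => q.p.notH (k, u), fun u v h h' => q.p.notH (k, u) fun i hi => h' i ?_⟩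
  have : q.p.b (k, v) i = 0 := by_contra fun h'' => h (by simpa using q.p.disj _ _ _ hi h'')
  simpa [this] using hi

theorem exists_block (q : Q) (k : ℕ) : ∃ ρ, Stab q ρ ∧ InH k ρ ∧ ¬ InH (k + 1) ρ :=
  ⟨q.p.b (k, 0), q.p.sat_b _, q.p.inH (k, 0), q.p.notH (k, 0)⟩

theorem exists_dec (q : Q) (T : Finset I) : ∃ r ≤ q, ∀ i ∈ T, r.p.Dec i := by
  obtain ⟨p, hp, h⟩ := q.p.exists_dec T
  exact ⟨⟨q.c, p⟩, ⟨le_rfl, hp⟩, h⟩

/-- Strengthening finitely many translates at once. -/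
theorem exists_all_branches (D : Gam → Q → Prop) (mono : ∀ δ q r, r ≤ q → D δ q → D δ r)
    (Δ : Finset Gam) (r : Q) (dense : ∀ δ ∈ Δ, ∀ r' ≤ r, ∃ s ≤ r', D δ s) :
    ∃ s ≤ r, ∀ δ ∈ Δ, D δ s := by
  classical
  induction Δ using Finset.induction_on with
  | empty => exact ⟨r, le_rfl, by simp⟩
  | insert a Δ _ ih =>
    obtain ⟨s, hs, h⟩ := ih fun δ hδ => dense δ (Finset.mem_insert_of_mem hδ)
    obtain ⟨t, ht, h'⟩ := dense a (Finset.mem_insert_self _ _) s hs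
    refine ⟨t, ht.trans hs, fun δ hδ => ?_⟩
    rcases Finset.mem_insert.1 hδ with rfl | hδ
    exacts [h', mono _ _ _ ht (h δ hδ)]

open Classical in
/-- Adding a new block to a finite group of flips. -/
noncomputable def grow (Δ : Finset Gam) (ρ : Gam) : Finset Gam := Δ ∪ Δ.image (· + ρ)

theorem mem_grow {Δ : Finset Gam} {ρ σ : Gam} :
    σ ∈ grow Δ ρ ↔ σ ∈ Δ ∨ ∃ δ ∈ Δ, δ + ρ = σ := by
  simp only [grow, Finset.mem_union, Finset.mem_image]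

/-- The limit of a fusion sequence. -/
theorem fusion_limit (r : ℕ → Q) (hr : Antitone r) (ρ : ℕ → Gam) (hs : ∀ n, Stab (r n) (ρ n))
    (h₁ : ∀ n, InH n.unpair.1 (ρ n)) (h₂ : ∀ n, ¬ InH (n.unpair.1 + 1) (ρ n))
    (hd : ∀ n i, ρ n i ≠ 0 → (r (n + 1)).p.Dec i) (hd' : ∀ n, (r (n + 1)).p.Dec n.unpair)
    (Δ : ℕ → Finset Gam) (h0 : Δ 0 = {0}) (hΔ : ∀ n, Δ (n + 1) = grow (Δ n) (ρ n)) :
    ∃ q ≤ r 0, (∀ σ, Stab q σ → ∃ n, σ ∈ Δ n) ∧
      ∀ n s, s ≤ q → ∃ s' ≤ s, ∃ δ ∈ Δ n, s' ≤ δ +ᵥ r n := by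
  classical
  obtain ⟨c, hc⟩ := Col.closed (fun n => (r n).c) fun m n h => (hr h).1
  have hsat : ∀ n m, n ≤ m → (r n).p.Sat (ρ m) := fun n m h => (hs m).of_le (hr h)
  have hdisj : ∀ m n i, ρ m i ≠ 0 → ρ n i ≠ 0 → m = n := by
    have key : ∀ m n i, ρ m i ≠ 0 → ρ n i ≠ 0 → ¬ m < n := fun m n i hm hn h =>
      hn ((hd m i hm).sat (hsat (m + 1) n h))
    intro m n i hm hn
    have := key m n i hm hn
    have := key n m i hn hm
    omega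
  let p : P := ⟨fun i => (r (Nat.pair i.1 i.2 + 1)).p.x i, fun n => ρ (Nat.pair n.1 n.2),
    fun m n i hm hn => by
      have := hdisj _ _ i hm hn
      rw [Nat.pair_eq_pair] at this
      exact Prod.ext this.1 this.2,
    fun n => by simpa using h₁ (Nat.pair n.1 n.2), fun n => by simpa using h₂ (Nat.pair n.1 n.2)⟩
  have hx : ∀ i N, Nat.pair i.1 i.2 + 1 ≤ N → (r N).p.x i = p.x i := fun i N h =>
    (show (r (Nat.pair i.1 i.2 + 1)).p.Dec i by simpa using hd' (Nat.pair i.1 i.2)).x_eq (hr h).2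
  have hxs : ∀ n, (r n).p.Sat (p.x + (r n).p.x) := by
    intro n
    refine ⟨fun i hi => ?_, fun m i j hi hj => ?_⟩
    · refine (hr (le_max_left n (Nat.pair i.1 i.2 + 1))).2.1.1 i ?_
      simpa only [Pi.add_apply, hx i _ (le_max_right _ _)] using hi
    · have := (hr (le_max_left n (max (Nat.pair i.1 i.2 + 1) (Nat.pair j.1 j.2 + 1)))).2.1.2
        m i j hi hj
      simpa only [Pi.add_apply, hx i _ (le_max_of_le_right (le_max_left _ _)),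
        hx j _ (le_max_of_le_right (le_max_right _ _))] using this
  have hb : ∀ m, p.b m.unpair = ρ m := fun m => by simp [p]
  have htail : ∀ n d, p.Sat d → (∀ m < n, ∀ i, ρ m i ≠ 0 → d i = 0) → (r n).p.Sat d := by
    intro n d hd hv
    refine hd.trans' fun m i hi hm => hsat _ _ ?_
    by_contra h
    exact hi (hv _ (not_le.1 h) i hm)
  have hdec : ∀ d, p.Sat d → ∀ n, ∃ δ ∈ Δ n, p.Sat δ ∧ (∀ i, δ i ≠ 0 → ∃ m < n, ρ m i ≠ 0) ∧
      ∀ m < n, ∀ i, ρ m i ≠ 0 → d i = δ i := by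
    intro d hd n
    induction n with
    | zero => exact ⟨0, by simp [h0], p.sat_zero, by simp, by simp⟩
    | succ n ih =>
      obtain ⟨δ, hδ, s₁, s₂, s₃⟩ := ih
      have hz : ∀ i, ρ n i ≠ 0 → δ i = 0 := fun i hi => by
        by_contra h
        obtain ⟨m, hm, h'⟩ := s₂ i h
        exact hm.ne (hdisj _ _ i h' hi)
      by_cases h : ∃ i, ρ n i ≠ 0 ∧ d i ≠ 0
      · obtain ⟨i₀, hi₀, hd₀⟩ := h
        refine ⟨δ + ρ n, by rw [hΔ, mem_grow]; exact Or.inr ⟨δ, hδ, rfl⟩, ?_, fun i hi => ?_,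
          fun m hm i hi => ?_⟩
        · exact s₁.add (hb n ▸ p.sat_b _)
        · by_cases h' : δ i = 0
          · exact ⟨n, Nat.lt_succ_self _, by simpa [h'] using hi⟩
          · obtain ⟨m, hm, h''⟩ := s₂ i h'
            exact ⟨m, Nat.lt_succ_of_lt hm, h''⟩
        · rcases Nat.lt_succ_iff_lt_or_eq.1 hm with hm | rfl
          · have : ρ n i = 0 := by_contra fun h' => hm.ne (hdisj _ _ i hi h')
            simp [this, s₃ m hm i hi]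
          · have e : d i = d i₀ := hd.2 m.unpair i i₀ (by rwa [hb]) (by rwa [hb])
            simp only [Finsupp.add_apply, hz i hi, zero_add]
            exact two_eq (e ▸ hd₀) hi
      · push Not at h
        refine ⟨δ, by rw [hΔ, mem_grow]; exact Or.inl hδ, s₁, fun i hi => ?_,
          fun m hm i hi => ?_⟩
        · obtain ⟨m, hm, h''⟩ := s₂ i hi
          exact ⟨m, Nat.lt_succ_of_lt hm, h''⟩
        · rcases Nat.lt_succ_iff_lt_or_eq.1 hm with hm | rfl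
          · exact s₃ m hm i hi
          · rw [h i hi, hz i hi]
  refine ⟨⟨c, p⟩, ⟨hc 0, hxs 0, fun n => hsat 0 _ (Nat.zero_le _)⟩, fun σ hσ => ?_,
    fun n s hs => ?_⟩
  · have : ∀ i, ∃ N, ∀ m, ρ m i ≠ 0 → m < N := by
      intro i
      by_cases h : ∃ m, ρ m i ≠ 0
      · obtain ⟨m, hm⟩ := h
        exact ⟨m + 1, fun m' hm' => by rw [hdisj _ _ _ hm' hm]; omega⟩
      · exact ⟨0, fun m hm => absurd ⟨m, hm⟩ h⟩
    choose N hN using this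
    obtain ⟨δ, hδ, -, s₂, s₃⟩ := hdec σ hσ (σ.support.sup N)
    suffices e : σ = δ from ⟨σ.support.sup N, by rw [e] at hδ ⊢; exact hδ⟩
    ext i
    by_cases h : σ i = 0
    · by_cases h' : δ i = 0
      · rw [h, h']
      · obtain ⟨m, hm, h''⟩ := s₂ i h'
        exact s₃ m hm i h''
    · obtain ⟨m, hm⟩ := hσ.1 i h
      exact s₃ _ ((hN i _ hm).trans_le (Finset.le_sup (f := N) (Finsupp.mem_support_iff.2 h)))
        i hm
  · obtain ⟨s', hs', hT⟩ := exists_dec s ((Finset.range n).biUnion fun m => (ρ m).support)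
    have hT' : ∀ m < n, ∀ i, ρ m i ≠ 0 → s'.p.Dec i := fun m hm i hi =>
      hT i (Finset.mem_biUnion.2 ⟨m, Finset.mem_range.2 hm, Finsupp.mem_support_iff.2 hi⟩)
    have hle := hs'.trans hs
    obtain ⟨δ, hδ, s₁, -, s₃⟩ := hdec _ hle.2.1 n
    refine ⟨s', hs', δ, hδ, hle.1.trans (hc n), ?_, fun m => ?_⟩
    · have := (htail n _ (hle.2.1.add s₁) fun m hm i hi => by
        rw [Pi.add_apply, s₃ m hm i hi]; exact two_self _).add (hxs n)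
      have e : s'.p.x + (δ +ᵥ r n).p.x = s'.p.x + p.x + δ + (p.x + (r n).p.x) := by
        funext i
        simp only [vadd_p, P.shift, Pi.add_apply]
        linear_combination - two_self (p.x i)
      rw [e]
      exact this
    · exact htail n _ (hle.2.2 m) fun m' hm' i hi => hT' m' hm' i hi m

/-- The fusion principle. -/
theorem fusion {St : Type*} (Inv : ℕ → Finset Gam → Q → St → Prop) (Rel : St → St → Prop)
    (mono : ∀ n Δ r r' a, r' ≤ r → Inv n Δ r a → Inv n Δ r' a)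
    (step : ∀ n Δ r a k, Inv n Δ r a → ∃ ρ, Stab r ρ ∧ InH k ρ ∧ ¬ InH (k + 1) ρ ∧
      ∃ r' ≤ r, ∃ a', Inv (n + 1) (grow Δ ρ) r' a' ∧ Rel a a')
    (r₀ : Q) (a₀ : St) (h₀ : Inv 0 {0} r₀ a₀) :
    ∃ q ≤ r₀, ∃ (Δ : ℕ → Finset Gam) (r : ℕ → Q) (a : ℕ → St),
      (∀ n, Inv n (Δ n) (r n) (a n)) ∧ (∀ n, Rel (a n) (a (n + 1))) ∧ Monotone Δ ∧
      (∀ n, ∀ δ ∈ Δ n, ∀ δ' ∈ Δ n, δ + δ' ∈ Δ n) ∧ (∀ σ, Stab q σ → ∃ n, σ ∈ Δ n) ∧
      ∀ n s, s ≤ q → ∃ s' ≤ s, ∃ δ ∈ Δ n, s' ≤ δ +ᵥ r n := by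
  classical
  have step' : ∀ n (z : {z : Finset Gam × Q × St // Inv n z.1 z.2.1 z.2.2}),
      ∃ (ρ : Gam) (z' : {z : Finset Gam × Q × St // Inv (n + 1) z.1 z.2.1 z.2.2}),
      Stab z.1.2.1 ρ ∧ InH n.unpair.1 ρ ∧ ¬ InH (n.unpair.1 + 1) ρ ∧ z'.1.2.1 ≤ z.1.2.1 ∧
      z'.1.1 = grow z.1.1 ρ ∧ Rel z.1.2.2 z'.1.2.2 ∧ (∀ i, ρ i ≠ 0 → z'.1.2.1.p.Dec i) ∧
      z'.1.2.1.p.Dec n.unpair := by
    rintro n ⟨⟨Δ, r, a⟩, h⟩
    obtain ⟨ρ, h₁, h₂, h₃, r', hr', a', h₄, h₅⟩ := step n Δ r a n.unpair.1 h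
    obtain ⟨r'', hr'', hT⟩ := exists_dec r' (insert n.unpair ρ.support)
    exact ⟨ρ, ⟨⟨grow Δ ρ, r'', a'⟩, mono _ _ _ _ _ hr'' h₄⟩, h₁, h₂, h₃, hr''.trans hr', rfl, h₅,
      fun i hi => hT i (Finset.mem_insert_of_mem (Finsupp.mem_support_iff.2 hi)),
      hT _ (Finset.mem_insert_self _ _)⟩
  choose ρ nx h₁ h₂ h₃ h₄ h₅ h₆ h₇ h₈ using step'
  let z : ∀ n, {z : Finset Gam × Q × St // Inv n z.1 z.2.1 z.2.2} :=
    fun n => Nat.rec ⟨({0}, r₀, a₀), h₀⟩ nx n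
  have hz : ∀ n, z (n + 1) = nx n (z n) := fun n => rfl
  obtain ⟨q, hq, H₁, H₂⟩ := fusion_limit (fun n => (z n).1.2.1)
    (antitone_nat_of_succ_le fun n => h₄ n (z n)) (fun n => ρ n (z n)) (fun n => h₁ n _)
    (fun n => h₂ n _) (fun n => h₃ n _) (fun n => h₇ n _) (fun n => h₈ n _) (fun n => (z n).1.1)
    rfl (fun n => h₅ n _)
  refine ⟨q, hq, fun n => (z n).1.1, fun n => (z n).1.2.1, fun n => (z n).1.2.2,
    fun n => (z n).2, fun n => h₆ n _, monotone_nat_of_le_succ fun n => ?_, fun n => ?_, H₁, H₂⟩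
  · intro δ hδ
    rw [hz, h₅, mem_grow]
    exact Or.inl hδ
  · induction n with
    | zero =>
      intro δ hδ δ' hδ'
      have e₁ : δ = 0 := Finset.mem_singleton.1 hδ
      have e₂ : δ' = 0 := Finset.mem_singleton.1 hδ'
      exact Finset.mem_singleton.2 (by rw [e₁, e₂, add_zero])
    | succ n ih =>
      intro δ hδ δ' hδ'
      simp only [hz, h₅, mem_grow] at hδ hδ' ⊢
      rcases hδ with hδ | ⟨δ, hδ, rfl⟩ <;> rcases hδ' with hδ' | ⟨δ', hδ', rfl⟩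
      · exact Or.inl (ih _ hδ _ hδ')
      · exact Or.inr ⟨_, ih _ hδ _ hδ', add_assoc _ _ _⟩
      · exact Or.inr ⟨_, ih _ hδ _ hδ', by abel⟩
      · refine Or.inl ?_
        have : δ + ρ n (z n) + (δ' + ρ n (z n)) = δ + δ' + (ρ n (z n) + ρ n (z n)) := by abel
        rw [this, gam_self, add_zero]
        exact ih _ hδ _ hδ'

end Pool.Agent.MP_a078ad_lc

end

section

namespace Pool.Agent.MP_a078ad_lc

open Pool.Agent.MP_c6cf52_lc Pool.Agent.MP_c6cf52_lc.Name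

abbrev Nm : Type 1 := Name Q

def nact (σ : Gam) : Nm → Nm
  | .mk ι A B => .mk ι (fun i => nact σ (A i)) (fun i => σ +ᵥ B i)

instance : AddAction Gam Nm where
  vadd := nact
  zero_vadd τ := by
    show nact 0 τ = τ
    induction τ with
    | mk ι A B ih => simp only [nact, ih, zero_vadd]
  add_vadd σ ρ τ := by
    show nact (σ + ρ) τ = nact σ (nact ρ τ)
    induction τ with
    | mk ι A B ih => simp only [nact, ih, add_vadd]

theorem vadd_eq (σ : Gam) (τ : Nm) :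
    σ +ᵥ τ = .mk τ.I (fun i => σ +ᵥ τ.A i) (fun i => σ +ᵥ τ.B i) := by
  cases τ; rfl

theorem vadd_swap (σ ρ : Gam) (τ : Nm) : σ +ᵥ ρ +ᵥ τ = ρ +ᵥ σ +ᵥ τ := by
  rw [← add_vadd, ← add_vadd, add_comm]

theorem feq_refl : ∀ (τ : Nm) (p : Q), FEq τ τ p := by
  intro τ
  induction τ using Name.ind with
  | h τ ih =>
    intro p
    rw [feq_def]
    exact ⟨fun i q _ h => ⟨q, le_rfl, i, h, ih i q⟩, fun i q _ h => ⟨q, le_rfl, i, h, ih i q⟩⟩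

theorem feq_trans : ∀ {a b c : Nm} {p : Q}, FEq a b p → FEq b c p → FEq a c p := by
  intro a
  induction a using Name.ind with
  | h a ih =>
    intro b c p h₁ h₂
    rw [feq_def] at h₁ h₂ ⊢
    refine ⟨fun i q hq hi => ?_, fun k q hq hk => ?_⟩
    · obtain ⟨r, hr, j, hj, e⟩ := h₁.1 i q hq hi
      obtain ⟨s, hs, k, hk, e'⟩ := h₂.1 j r (hr.trans hq) hj
      exact ⟨s, hs.trans hr, k, hk, ih i (e.mono hs) e'⟩
    · obtain ⟨r, hr, j, hj, e⟩ := h₂.2 k q hq hk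
      obtain ⟨s, hs, i, hi, e'⟩ := h₁.2 j r (hr.trans hq) hj
      exact ⟨s, hs.trans hr, i, hi, ih i e' (e.mono hs)⟩

theorem feq_vadd (σ : Gam) : ∀ {a b : Nm} {p : Q}, FEq a b p →
    FEq (σ +ᵥ a) (σ +ᵥ b) (σ +ᵥ p) := by
  intro a
  induction a using Name.ind with
  | h a ih =>
    intro b p h
    rw [feq_def] at h
    rw [vadd_eq σ a, vadd_eq σ b, feq_def]
    refine ⟨fun i q hq hi => ?_, fun j q hq hj => ?_⟩
    · obtain ⟨r, hr, j, hj, e⟩ := h.1 i (σ +ᵥ q) (vadd_le_swap hq) (vadd_le_swap hi)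
      exact ⟨σ +ᵥ r, vadd_le_swap hr, j, vadd_mono σ hj, ih i e⟩
    · obtain ⟨r, hr, i, hi, e⟩ := h.2 j (σ +ᵥ q) (vadd_le_swap hq) (vadd_le_swap hj)
      exact ⟨σ +ᵥ r, vadd_le_swap hr, i, vadd_mono σ hi, ih i e⟩

theorem feq_vadd_top (σ : Gam) {a b : Nm} (h : FEq a b ⊤) (p : Q) : FEq (σ +ᵥ a) (σ +ᵥ b) p :=
  (feq_vadd σ h).mono (le_vadd_top σ p)

theorem fmem_vadd (σ : Gam) {a b : Nm} {p : Q} (h : FMem a b p) :
    FMem (σ +ᵥ a) (σ +ᵥ b) (σ +ᵥ p) := by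
  rw [vadd_eq σ b]
  intro q hq
  obtain ⟨r, hr, j, hj, e⟩ := h (σ +ᵥ q) (vadd_le_swap hq)
  exact ⟨σ +ᵥ r, vadd_le_swap hr, j, vadd_mono σ hj, feq_vadd σ e⟩

theorem fmem_left {a a' b : Nm} {p : Q} (e : FEq a' a p) (h : FMem a b p) : FMem a' b p := by
  intro q hq
  obtain ⟨r, hr, j, hj, e'⟩ := h q hq
  exact ⟨r, hr, j, hj, feq_trans (e.mono (hr.trans hq)) e'⟩

theorem fmem_right {a b b' : Nm} {p : Q} (h : FMem a b p) (e : FEq b b' p) : FMem a b' p := by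
  refine FMem.reg fun q hq => ?_
  obtain ⟨r, hr, j, hj, e'⟩ := h q hq
  exact ⟨r, hr, fmem_left e' (((feq_iff _ _ _).1 e).1 j r (hr.trans hq) hj)⟩

theorem fmem_child (τ : Nm) (i : τ.I) {p : Q} (h : p ≤ τ.B i) : FMem (τ.A i) τ p :=
  FMem.of_feq h (feq_refl _ _)

/-- `p` forces that `a` and `b` are different. -/
def FNe (a b : Nm) (p : Q) : Prop := ∀ q ≤ p, ¬ FEq a b q

theorem FNe.mono {a b : Nm} {p q : Q} (h : FNe a b p) (hq : q ≤ p) : FNe a b q :=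
  fun r hr => h r (hr.trans hq)

theorem FNe.symm {a b : Nm} {p : Q} (h : FNe a b p) : FNe b a p := fun r hr e => h r hr e.symm

theorem FNe.vadd (σ : Gam) {a b : Nm} {p : Q} (h : FNe a b p) :
    FNe (σ +ᵥ a) (σ +ᵥ b) (σ +ᵥ p) := fun q hq e =>
  h (σ +ᵥ q) (vadd_le_swap hq) (by simpa only [vadd_vadd_self] using feq_vadd σ e)

theorem exists_fne {a b : Nm} {p : Q} (h : ¬ FEq a b p) : ∃ q ≤ p, FNe a b q := by
  by_contra h'
  refine h (FEq.reg fun q hq => ?_)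
  by_contra h''
  exact h' ⟨q, hq, fun r hr e => h'' ⟨r, hr, e⟩⟩

/-- The name is fixed by all flips of type at least `k`. -/
def Fix (k : ℕ) (τ : Nm) : Prop := ∀ σ, InH k σ → FEq (σ +ᵥ τ) τ ⊤

theorem Fix.mono {k l : ℕ} {τ : Nm} (h : Fix k τ) (hkl : k ≤ l) : Fix l τ :=
  fun σ hσ => h σ (hσ.mono hkl)

theorem Fix.vadd {k : ℕ} {τ : Nm} (h : Fix k τ) (ρ : Gam) : Fix k (ρ +ᵥ τ) := fun σ hσ => by
  rw [vadd_swap]
  exact feq_vadd_top ρ (h σ hσ) _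

theorem fix_of {k : ℕ} {ν : Nm}
    (h : ∀ σ, InH k σ → ∀ i, FMem (σ +ᵥ ν.A i) ν (σ +ᵥ ν.B i)) : Fix k ν := by
  intro σ hσ
  rw [feq_iff]
  constructor
  · rw [vadd_eq σ ν]
    exact fun i q _ hi => (h σ hσ i).mono hi
  · intro j q _ hj
    have := fmem_vadd σ (h σ hσ j)
    rw [vadd_vadd_self, vadd_vadd_self] at this
    exact this.mono hj

/-- Hereditarily symmetric names. -/
def HS : Nm → Prop
  | .mk ι A B => (∃ k, Fix k (.mk ι A B)) ∧ ∀ i, HS (A i)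

theorem hs_iff (τ : Nm) : HS τ ↔ (∃ k, Fix k τ) ∧ ∀ i, HS (τ.A i) := by
  cases τ; rfl

theorem HS.fix {τ : Nm} (h : HS τ) : ∃ k, Fix k τ := ((hs_iff τ).1 h).1

theorem HS.child {τ : Nm} (h : HS τ) (i : τ.I) : HS (τ.A i) := ((hs_iff τ).1 h).2 i

theorem HS.vadd (σ : Gam) : ∀ {τ : Nm}, HS τ → HS (σ +ᵥ τ) := by
  intro τ
  induction τ using Name.ind with
  | h τ ih =>
    intro h
    obtain ⟨k, hk⟩ := h.fix
    rw [hs_iff]
    refine ⟨⟨k, hk.vadd σ⟩, ?_⟩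
    rw [vadd_eq]
    exact fun i => ih i (h.child i)

theorem exists_fix_list {l : List Nm} (h : ∀ x ∈ l, HS x) : ∃ k, ∀ x ∈ l, Fix k x := by
  induction l with
  | nil => exact ⟨0, by simp⟩
  | cons a l ih =>
    obtain ⟨k, hk⟩ := ih fun x hx => h x (List.mem_cons_of_mem _ hx)
    obtain ⟨k', hk'⟩ := (h a List.mem_cons_self).fix
    refine ⟨max k k', fun x hx => ?_⟩
    rcases List.mem_cons.1 hx with rfl | hx
    exacts [hk'.mono (le_max_right _ _), (hk x hx).mono (le_max_left _ _)]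

theorem fix_fam {ι : Type} {A : ι → Nm} {k : ℕ}
    (h : ∀ σ, InH k σ → ∀ i, ∃ j, FEq (σ +ᵥ A i) (A j) ⊤) : Fix k (fam A) := by
  refine fix_of fun σ hσ i => ?_
  obtain ⟨j, e⟩ := h σ hσ i
  exact FMem.of_feq (τ := fam A) (j := j) le_top (e.mono le_top)

theorem hs_mk {ι : Type} {A : ι → Nm} {B : ι → Q} {k : ℕ} (h : Fix k (.mk ι A B))
    (hA : ∀ i, HS (A i)) : HS (.mk ι A B) := ⟨⟨k, h⟩, hA⟩

theorem fix_emp (k : ℕ) : Fix k emp := fix_of fun _ _ i => i.elim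

theorem hs_emp : HS emp := hs_mk (fix_emp 0) fun i => i.elim

theorem feq_fam {ι : Type} {A A' : ι → Nm} {p : Q} (h : ∀ i, FEq (A i) (A' i) p) :
    FEq (fam A) (fam A') p := by
  rw [feq_def]
  exact ⟨fun i q hq _ => ⟨q, le_rfl, i, le_top, (h i).mono hq⟩,
    fun i q hq _ => ⟨q, le_rfl, i, le_top, (h i).mono hq⟩⟩

theorem vadd_fam (σ : Gam) {ι : Type} (A : ι → Nm) (p : Q) :
    FEq (σ +ᵥ fam A) (fam fun i => σ +ᵥ A i) p := by
  rw [vadd_eq, feq_def]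
  exact ⟨fun i q _ _ => ⟨q, le_rfl, i, le_top, feq_refl _ _⟩,
    fun i q _ _ => ⟨q, le_rfl, i, le_vadd_top _ _, feq_refl _ _⟩⟩

theorem feq_upair {a a' b b' : Nm} {p : Q} (h₁ : FEq a a' p) (h₂ : FEq b b' p) :
    FEq (upair a b) (upair a' b') p :=
  feq_fam fun ⟨i⟩ => by cases i; exacts [h₂, h₁]

theorem vadd_upair (σ : Gam) (a b : Nm) (p : Q) :
    FEq (σ +ᵥ upair a b) (upair (σ +ᵥ a) (σ +ᵥ b)) p :=
  feq_trans (vadd_fam σ _ p) (feq_fam fun ⟨i⟩ => by cases i <;> exact feq_refl _ _)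

theorem vadd_pairN (σ : Gam) (a b : Nm) (p : Q) :
    FEq (σ +ᵥ pairN a b) (pairN (σ +ᵥ a) (σ +ᵥ b)) p :=
  feq_trans (vadd_upair σ _ _ p) (feq_upair (vadd_upair σ _ _ p) (vadd_upair σ _ _ p))

theorem feq_pairN {a a' b b' : Nm} {p : Q} (h₁ : FEq a a' p) (h₂ : FEq b b' p) :
    FEq (pairN a b) (pairN a' b') p :=
  feq_upair (feq_upair h₁ h₁) (feq_upair h₁ h₂)

theorem hs_upair {a b : Nm} (ha : HS a) (hb : HS b) : HS (upair a b) := by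
  obtain ⟨k, hk⟩ := ha.fix
  obtain ⟨l, hl⟩ := hb.fix
  refine hs_mk (k := max k l) (fun σ hσ => feq_trans (vadd_upair σ a b ⊤)
    (feq_upair (hk σ (hσ.mono (le_max_left _ _))) (hl σ (hσ.mono (le_max_right _ _))))) ?_
  rintro ⟨i⟩
  cases i
  exacts [hb, ha]

theorem hs_pairN {a b : Nm} (ha : HS a) (hb : HS b) : HS (pairN a b) :=
  hs_upair (hs_upair ha ha) (hs_upair ha hb)

theorem fix_ordN {X : Type} {r : X → X → Prop} (wf : WellFounded r) (x : X) :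
    Fix 0 (ordN wf x : Nm) ∧ HS (ordN wf x) := by
  induction x using wf.induction with
  | h x ih =>
    rw [ordN_eq]
    have : Fix 0 (setN wf {y | r y x} : Nm) :=
      fix_fam fun σ hσ i => ⟨i, (ih i.1 i.2).1 σ hσ⟩
    exact ⟨this, hs_mk this fun i => (ih i.1 i.2).2⟩

theorem hs_setN {X : Type} {r : X → X → Prop} (wf : WellFounded r) (s : Set X) :
    HS (setN wf s) :=
  hs_mk (fix_fam fun σ hσ i => ⟨i, (fix_ordN wf i.1).1 σ hσ⟩) fun i => (fix_ordN wf i.1).2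

/-- The family of all translates of a family of names. -/
noncomputable def orb {ι : Type} (A : ι → Nm) : Nm := fam fun x : Gam × ι => x.1 +ᵥ A x.2

theorem fix_orb {ι : Type} (A : ι → Nm) : Fix 0 (orb A) :=
  fix_fam fun σ _ x => ⟨(σ + x.1, x.2), by rw [add_vadd]; exact feq_refl _ _⟩

theorem hs_orb {ι : Type} {A : ι → Nm} (h : ∀ i, HS (A i)) : HS (orb A) :=
  hs_mk (fix_orb A) fun x => (h x.2).vadd _

/-! ### Symmetric forcing -/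

def SForces : Fml → (ℕ → Nm) → Q → Prop
  | .mem i j, w, p => FMem (w i) (w j) p
  | .eq i j, w, p => FEq (w i) (w j) p
  | .bot, _, _ => False
  | .imp φ ψ, w, p => ∀ q ≤ p, SForces φ w q → SForces ψ w q
  | .all φ, w, p => ∀ τ, HS τ → SForces φ (cons τ w) p

theorem SForces.mono : ∀ {φ : Fml} {w : ℕ → Nm} {p q : Q},
    SForces φ w p → q ≤ p → SForces φ w q := by
  intro φ
  induction φ with
  | mem i j => intro w p q h hq; exact FMem.mono h hq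
  | eq i j => intro w p q h hq; exact FEq.mono h hq
  | bot => intro w p q h _; exact h
  | imp φ ψ _ _ => intro w p q h hq r hr; exact h r (hr.trans hq)
  | all φ ih => intro w p q h hq τ hτ; exact ih (h τ hτ) hq

theorem SForces.reg : ∀ {φ : Fml} {w : ℕ → Nm} {p : Q},
    (∀ q ≤ p, ∃ r ≤ q, SForces φ w r) → SForces φ w p := by
  intro φ
  induction φ with
  | mem i j => intro w p h; exact FMem.reg h
  | eq i j => intro w p h; exact FEq.reg h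
  | bot => intro w p h; obtain ⟨_, _, h⟩ := h p le_rfl; exact h
  | imp φ ψ _ ih₂ =>
    intro w p h q hq hφ
    refine ih₂ fun r hr => ?_
    obtain ⟨s, hs, h⟩ := h r (hr.trans hq)
    exact ⟨s, hs, h s le_rfl (hφ.mono (hs.trans hr))⟩
  | all φ ih =>
    intro w p h τ hτ
    refine ih fun q hq => ?_
    obtain ⟨r, hr, h⟩ := h q hq
    exact ⟨r, hr, h τ hτ⟩

theorem SForces.vadd (σ : Gam) : ∀ {φ : Fml} {w : ℕ → Nm} {p : Q},
    SForces φ w p → SForces φ (fun k => σ +ᵥ w k) (σ +ᵥ p) := by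
  intro φ
  induction φ with
  | mem i j => intro w p h; exact fmem_vadd σ h
  | eq i j => intro w p h; exact feq_vadd σ h
  | bot => intro w p h; exact h
  | imp φ ψ ih₁ ih₂ =>
    intro w p h q hq hφ
    have h₁ := ih₁ hφ
    simp only [vadd_vadd_self] at h₁
    simpa only [vadd_vadd_self] using ih₂ (h _ (vadd_le_swap hq) h₁)
  | all φ ih =>
    intro w p h τ hτ
    have := ih (h _ (hτ.vadd σ))
    rwa [comp_cons (fun x : Nm => σ +ᵥ x), vadd_vadd_self] at this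

theorem SForces.congr : ∀ {φ : Fml} {w w' : ℕ → Nm} {p : Q}, (∀ k, FEq (w k) (w' k) p) →
    SForces φ w p → SForces φ w' p := by
  intro φ
  induction φ with
  | mem i j => intro w w' p e h; exact fmem_right (fmem_left (e i).symm h) (e j)
  | eq i j => intro w w' p e h; exact feq_trans (e i).symm (feq_trans h (e j))
  | bot => intro w w' p _ h; exact h
  | imp φ ψ ih₁ ih₂ =>
    intro w w' p e h q hq hφ
    exact ih₂ (fun k => (e k).mono hq) (h q hq (ih₁ (fun k => ((e k).mono hq).symm) hφ))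
  | all φ ih =>
    intro w w' p e h τ hτ
    refine ih (fun k => ?_) (h τ hτ)
    cases k
    exacts [feq_refl _ _, e _]

def sepS (τ : Nm) (φ : Fml) (l : List Nm) : Nm :=
  subN τ {x | x.2 ≤ τ.B x.1 ∧ SForces φ (env emp (τ.A x.1 :: l)) x.2}

theorem fix_sepS {k : ℕ} {τ : Nm} (hτ : Fix k τ) (φ : Fml) {l : List Nm}
    (hl : ∀ x ∈ l, Fix k x) : Fix k (sepS τ φ l) := by
  refine fix_of fun σ hσ ⟨⟨i, q⟩, h₁, h₂⟩ => ?_
  change FMem (σ +ᵥ τ.A i) _ (σ +ᵥ q)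
  have h₃ : FMem (σ +ᵥ τ.A i) τ (σ +ᵥ q) :=
    fmem_right (fmem_vadd σ (fmem_child τ i h₁)) ((hτ σ hσ).mono le_top)
  intro r hr
  obtain ⟨s, hs, j, hj, e⟩ := h₃ r hr
  refine ⟨s, hs, ⟨(j, s), hj, ?_⟩, le_rfl, e⟩
  refine SForces.congr (fun n => ?_) ((h₂.vadd σ).mono (hs.trans hr))
  rw [env_cons, env_cons]
  cases n with
  | zero => exact e
  | succ n =>
    exact ((env_mem (S := {x | Fix k x}) (fix_emp k) hl n) σ hσ).mono le_top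

theorem hs_sepS {τ : Nm} (hτ : HS τ) (φ : Fml) {l : List Nm} (hl : ∀ x ∈ l, HS x) :
    HS (sepS τ φ l) := by
  obtain ⟨k, hk⟩ := hτ.fix
  obtain ⟨k', hk'⟩ := exists_fix_list hl
  exact hs_mk (fix_sepS (hk.mono (le_max_left k k')) φ
    fun x hx => (hk' x hx).mono (le_max_right _ _)) fun x => hτ.child _

open Classical in
noncomputable def witS (φ : Fml) (l : List Nm) (q : Q) : Nm :=
  if h : ∃ ρ, HS ρ ∧ SForces φ (env emp (ρ :: l)) q then h.choose else emp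

theorem witS_spec {φ : Fml} {l : List Nm} {q : Q} {ρ : Nm} (hρ : HS ρ)
    (h : SForces φ (env emp (ρ :: l)) q) : SForces φ (env emp (witS φ l q :: l)) q := by
  have h' : ∃ ρ, HS ρ ∧ SForces φ (env emp (ρ :: l)) q := ⟨ρ, hρ, h⟩
  unfold witS
  rw [dif_pos h']
  exact h'.choose_spec.2

theorem hs_witS (φ : Fml) (l : List Nm) (q : Q) : HS (witS φ l q) := by
  unfold witS
  split_ifs with h
  exacts [h.choose_spec.1, hs_emp]

noncomputable def unionS (τ : Nm) : Nm :=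
  orb (fun x : Σ i : τ.I, (τ.A i).I => (τ.A x.1).A x.2)

noncomputable def powS (τ : Nm) : Nm :=
  orb (fun S : {S : Set (τ.I × Q) // HS (subN τ S)} => subN τ S.1)

noncomputable def collS (τ : Nm) (φ : Fml) (l : List Nm) : Nm :=
  orb (fun x : τ.I × Q => witS φ (τ.A x.1 :: l) x.2)

theorem hs_unionS {τ : Nm} (h : HS τ) : HS (unionS τ) := hs_orb fun x => (h.child x.1).child _

theorem hs_powS (τ : Nm) : HS (powS τ) :=
  hs_orb fun S : {S : Set (τ.I × Q) // HS (subN τ S)} => S.2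

theorem hs_collS (τ : Nm) (φ : Fml) (l : List Nm) : HS (collS τ φ l) :=
  hs_orb fun _ => hs_witS _ _ _

theorem hs_child (k : ℕ) {τ : Nm} (h : HS τ) : HS (child k τ) := by
  unfold child
  split_ifs
  exacts [h.child _, hs_emp]

/-- The closure operations. -/
noncomputable def opS (t : ℕ) (φ : Fml) (k : ℕ) (l : List Nm) : Nm :=
  match t with
  | 0 => emp
  | 1 => upair (env emp l 0) (env emp l 1)
  | 2 => unionS (env emp l 0)
  | 3 => sepS (env emp l 0) φ l.tail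
  | 4 => powS (env emp l 0)
  | 5 => collS (env emp l 0) φ l.tail
  | 6 => setN natWf Set.univ
  | _ => child k (env emp l 0)

theorem hs_opS (t : ℕ) (φ : Fml) (k : ℕ) {l : List Nm} (hl : ∀ x ∈ l, HS x) :
    HS (opS t φ k l) := by
  have h : ∀ n, HS (env emp l n) := env_mem (S := {x | HS x}) hs_emp hl
  match t with
  | 0 => exact hs_emp
  | 1 => exact hs_upair (h 0) (h 1)
  | 2 => exact hs_unionS (h 0)
  | 3 => exact hs_sepS (h 0) φ fun x hx => hl x (List.mem_of_mem_tail hx)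
  | 4 => exact hs_powS _
  | 5 => exact hs_collS _ _ _
  | 6 => exact hs_setN _ _
  | _ + 7 => exact hs_child k (h 0)

/-- The basic requirements. -/
def basicS (t : ℕ) (φ : Fml) (k : ℕ) (l : List Nm) (q : Q) (ρ : Nm) : Prop :=
  match t with
  | 0 => reqMem (env emp l 0) (env emp l 1) q ρ
  | 1 => reqEq (env emp l 0) (env emp l 1) q ρ
  | 2 => SForces φ (env emp l) q ∨ ∀ r ≤ q, ¬ SForces φ (env emp l) r
  | 3 => (SForces φ (env emp (ρ :: l)) q ∧ ρ = witS φ l q) ∨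
      ∀ r ≤ q, ∀ ρ', HS ρ' → ¬ SForces φ (env emp (ρ' :: l)) r
  | t + 4 => ρ = opS t φ k l

theorem basicS_dense (t : ℕ) (φ : Fml) (k : ℕ) {l : List Nm} (hl : ∀ x ∈ l, HS x) (p : Q) :
    ∃ q ≤ p, ∃ ρ, HS ρ ∧ basicS t φ k l q ρ := by
  have h : ∀ n, HS (env emp l n) := env_mem (S := {x | HS x}) hs_emp hl
  match t with
  | 0 =>
    obtain ⟨q, hq, ρ, h' | ⟨i, h₁, h₂, rfl⟩⟩ := reqMem_dense (env emp l 0) (env emp l 1) p
    · exact ⟨q, hq, emp, hs_emp, Or.inl h'⟩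
    · exact ⟨q, hq, _, (h 1).child i, Or.inr ⟨i, h₁, h₂, rfl⟩⟩
  | 1 =>
    obtain ⟨q, hq, ρ, h' | ⟨i, h₁, h₂, rfl⟩ | ⟨i, h₁, h₂, rfl⟩⟩ :=
      reqEq_dense (env emp l 0) (env emp l 1) p
    · exact ⟨q, hq, emp, hs_emp, Or.inl h'⟩
    · exact ⟨q, hq, _, (h 0).child i, Or.inr (Or.inl ⟨i, h₁, h₂, rfl⟩)⟩
    · exact ⟨q, hq, _, (h 1).child i, Or.inr (Or.inr ⟨i, h₁, h₂, rfl⟩)⟩
  | 2 =>
    by_cases h : ∀ r ≤ p, ¬ SForces φ (env emp l) r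
    · exact ⟨p, le_rfl, emp, hs_emp, Or.inr h⟩
    · push Not at h
      obtain ⟨r, hr, h⟩ := h
      exact ⟨r, hr, emp, hs_emp, Or.inl h⟩
  | 3 =>
    by_cases h : ∀ r ≤ p, ∀ ρ', HS ρ' → ¬ SForces φ (env emp (ρ' :: l)) r
    · exact ⟨p, le_rfl, emp, hs_emp, Or.inr h⟩
    · push Not at h
      obtain ⟨r, hr, ρ, hρ, h⟩ := h
      exact ⟨r, hr, _, hs_witS _ _ _, Or.inl ⟨witS_spec hρ h, rfl⟩⟩
  | t + 4 => exact ⟨p, le_rfl, _, hs_opS t φ k hl, rfl⟩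

/-- A filter that is generic over a set of symmetric names with enough closure properties. -/
structure Gn where
  N : Set Nm
  G : Set Q
  hs : ∀ {τ}, τ ∈ N → HS τ
  up : ∀ {p q}, p ∈ G → p ≤ q → q ∈ G
  dir : ∀ {p q}, p ∈ G → q ∈ G → ∃ r ∈ G, r ≤ p ∧ r ≤ q
  top : ⊤ ∈ G
  meets : ∀ t φ k l, (∀ x ∈ l, x ∈ N) → ∃ q ∈ G, ∃ ρ ∈ N, basicS t φ k l q ρ

theorem exists_gn (p : Q) (C : Set Nm) (hC : C.Countable) (hs : ∀ x ∈ C, HS x) :
    ∃ g : Gn, p ∈ g.G ∧ C ⊆ g.N := by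
  have := hC.to_subtype
  have : Inhabited {τ : Nm // HS τ} := ⟨⟨emp, hs_emp⟩⟩
  let D : (ℕ × Fml × ℕ) ⊕ C → List {τ : Nm // HS τ} → Q → {τ : Nm // HS τ} → Prop :=
    fun i l q ρ => match i with
    | .inl i => basicS i.1 i.2.1 i.2.2 (l.map Subtype.val) q ρ.1
    | .inr c => ρ.1 = c.1
  have : Nonempty ((ℕ × Fml × ℕ) ⊕ C) := ⟨.inl (0, .bot, 0)⟩
  obtain ⟨N, s, hs', h0, h⟩ := exists_generic D (by
    rintro (i | c) l p
    · obtain ⟨q, hq, ρ, h₁, h₂⟩ := basicS_dense i.1 i.2.1 i.2.2 (l := l.map Subtype.val)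
        (by simp only [List.mem_map]; rintro _ ⟨x, -, rfl⟩; exact x.2) p
      exact ⟨q, hq, ⟨ρ, h₁⟩, h₂⟩
    · exact ⟨p, le_rfl, ⟨c.1, hs _ c.2⟩, rfl⟩) p
  refine ⟨⟨Subtype.val '' N, {q | ∃ n, s n ≤ q}, ?_, ?_, ?_, ⟨0, le_top⟩, ?_⟩, ⟨0, h0.le⟩, ?_⟩
  · rintro _ ⟨x, -, rfl⟩
    exact x.2
  · rintro p q ⟨n, hn⟩ hpq
    exact ⟨n, hn.trans hpq⟩
  · rintro p q ⟨n, hn⟩ ⟨m, hm⟩
    exact ⟨s (max n m), ⟨_, le_rfl⟩, (hs' (le_max_left _ _)).trans hn,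
      (hs' (le_max_right _ _)).trans hm⟩
  · intro t φ k l hl
    obtain ⟨l', hl', rfl⟩ : ∃ l' : List {τ : Nm // HS τ}, (∀ x ∈ l', x ∈ N) ∧
        l'.map Subtype.val = l := by
      induction l with
      | nil => exact ⟨[], by simp, rfl⟩
      | cons a l ih =>
        obtain ⟨l', h₁, rfl⟩ := ih fun x hx => hl x (List.mem_cons_of_mem _ hx)
        obtain ⟨x, hx, rfl⟩ := hl a List.mem_cons_self
        refine ⟨x :: l', fun y hy => ?_, rfl⟩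
        rcases List.mem_cons.1 hy with rfl | hy
        exacts [hx, h₁ y hy]
    obtain ⟨n, a, ha, h⟩ := h (.inl (t, φ, k)) l' hl'
    exact ⟨s n, ⟨n, le_rfl⟩, a.1, ⟨a, ha, rfl⟩, h⟩
  · intro c hc
    obtain ⟨n, a, ha, h⟩ := h (.inr ⟨c, hc⟩) [] (by simp)
    exact ⟨a, ha, h⟩

end Pool.Agent.MP_a078ad_lc

end

section

namespace Pool.Agent.MP_a078ad_lc

open Pool.Agent.MP_c6cf52_lc Pool.Agent.MP_c6cf52_lc.Name

namespace Gn

variable (g : Gn)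

/-- The value of a name. -/
noncomputable def val : Nm → ZFSet.{0}
  | .mk ι A B => ZFSet.range (fun i : {i : ι // B i ∈ g.G ∧ A i ∈ g.N} => val (A i.1))

theorem mem_val {z : ZFSet.{0}} {τ : Nm} :
    z ∈ g.val τ ↔ ∃ i, τ.B i ∈ g.G ∧ τ.A i ∈ g.N ∧ g.val (τ.A i) = z := by
  cases τ with
  | mk ι A B =>
    simp only [val, ZFSet.mem_range, Subtype.exists, exists_prop, and_assoc]
    rfl

theorem op_mem (t : ℕ) (φ : Fml) (k : ℕ) (l : List Nm) (hl : ∀ x ∈ l, x ∈ g.N) :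
    opS t φ k l ∈ g.N := by
  obtain ⟨_, -, ρ, hρ, h⟩ := g.meets (t + 4) φ k l hl
  exact (show ρ = opS t φ k l from h) ▸ hρ

variable {g}

theorem l2 {σ τ : Nm} (hσ : σ ∈ g.N) (hτ : τ ∈ g.N) : ∀ x ∈ [σ, τ], x ∈ g.N := by
  simp [hσ, hτ]

theorem l1 {σ : Nm} (hσ : σ ∈ g.N) : ∀ x ∈ [σ], x ∈ g.N := by
  simp [hσ]

theorem lcons {σ : Nm} {l : List Nm} (hσ : σ ∈ g.N) (hl : ∀ x ∈ l, x ∈ g.N) :
    ∀ x ∈ σ :: l, x ∈ g.N := by
  intro x hx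
  rcases List.mem_cons.1 hx with rfl | hx
  exacts [hσ, hl x hx]

variable (g) in
theorem emp_mem : (emp : Nm) ∈ g.N := g.op_mem 0 .bot 0 [] (by simp)

theorem upair_mem {σ τ : Nm} (hσ : σ ∈ g.N) (hτ : τ ∈ g.N) : upair σ τ ∈ g.N :=
  g.op_mem 1 .bot 0 [σ, τ] (l2 hσ hτ)

theorem unionS_mem {τ : Nm} (hτ : τ ∈ g.N) : unionS τ ∈ g.N :=
  g.op_mem 2 .bot 0 [τ] (l1 hτ)

theorem sepS_mem {τ : Nm} (hτ : τ ∈ g.N) (φ : Fml) {l : List Nm}
    (hl : ∀ x ∈ l, x ∈ g.N) : sepS τ φ l ∈ g.N :=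
  g.op_mem 3 φ 0 (τ :: l) (lcons hτ hl)

theorem powS_mem {τ : Nm} (hτ : τ ∈ g.N) : powS τ ∈ g.N :=
  g.op_mem 4 .bot 0 [τ] (l1 hτ)

theorem collS_mem {τ : Nm} (hτ : τ ∈ g.N) (φ : Fml) {l : List Nm}
    (hl : ∀ x ∈ l, x ∈ g.N) : collS τ φ l ∈ g.N :=
  g.op_mem 5 φ 0 (τ :: l) (lcons hτ hl)

variable (g) in
theorem omega_mem : (setN natWf Set.univ : Nm) ∈ g.N := g.op_mem 6 .bot 0 [] (by simp)

theorem child_mem {τ : Nm} (hτ : τ ∈ g.N) (k : ℕ) : child k τ ∈ g.N :=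
  g.op_mem 7 .bot k [τ] (l1 hτ)

/-- All children of a name with countable index set are in `N`. -/
theorem A_mem {τ : Nm} (hτ : τ ∈ g.N) [Countable τ.I] (i : τ.I) : τ.A i ∈ g.N := by
  have : Nonempty τ.I := ⟨i⟩
  have h : ∃ f : ℕ → τ.I, Function.Surjective f := exists_surjective_nat _
  obtain ⟨k, hk⟩ := h.choose_spec i
  have := child_mem hτ k
  unfold child at this
  rwa [dif_pos h, hk] at this

theorem fam_mem {ι : Type} [Countable ι] {A : ι → Nm} (h : fam A ∈ g.N) (i : ι) :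
    A i ∈ g.N :=
  @A_mem g (fam A) h (inferInstanceAs (Countable ι)) i

theorem upair_mem_iff {σ τ : Nm} : upair σ τ ∈ g.N ↔ σ ∈ g.N ∧ τ ∈ g.N :=
  ⟨fun h => ⟨fam_mem h ⟨true⟩, fam_mem h ⟨false⟩⟩, fun h => upair_mem h.1 h.2⟩

theorem pairN_mem_iff {σ τ : Nm} : pairN σ τ ∈ g.N ↔ σ ∈ g.N ∧ τ ∈ g.N := by
  simp only [pairN, upair_mem_iff]; tauto

theorem meets_mem {σ τ : Nm} (hσ : σ ∈ g.N) (hτ : τ ∈ g.N) {p : Q} (hp : p ∈ g.G)
    (h : FMem σ τ p) : ∃ q ∈ g.G, ∃ i, q ≤ τ.B i ∧ FEq σ (τ.A i) q ∧ τ.A i ∈ g.N := by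
  obtain ⟨q, hq, ρ, hρ, h' | ⟨i, hi, e, rfl⟩⟩ := g.meets 0 .bot 0 [σ, τ] (l2 hσ hτ)
  · obtain ⟨r, -, h₁, h₂⟩ := g.dir hp hq
    exact absurd (h.mono h₁) (h' r h₂)
  · exact ⟨q, hq, i, hi, e, hρ⟩

theorem val_eq_iff : ∀ {σ τ : Nm}, σ ∈ g.N → τ ∈ g.N →
    (g.val σ = g.val τ ↔ ∃ p ∈ g.G, FEq σ τ p) := by
  intro σ
  induction σ using Name.ind with
  | h σ ih =>
    intro τ hσ hτ
    constructor
    · intro e
      obtain ⟨q, hq, ρ, hρ, h | ⟨i, hi, h, rfl⟩ | ⟨j, hj, h, rfl⟩⟩ :=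
        g.meets 1 .bot 0 [σ, τ] (l2 hσ hτ)
      · exact ⟨q, hq, h⟩
      · exfalso
        have : g.val (σ.A i) ∈ g.val τ := e ▸ g.mem_val.2 ⟨i, g.up hq hi, hρ, rfl⟩
        obtain ⟨j, hj, hjN, e'⟩ := g.mem_val.1 this
        obtain ⟨p, hp, f⟩ := (ih i hρ hjN).1 e'.symm
        obtain ⟨r, hr, h₁, h₂⟩ := g.dir hp hj
        obtain ⟨s, -, h₃, h₄⟩ := g.dir hr hq
        exact h s h₄ (FMem.of_feq (h₃.trans h₂) (f.mono (h₃.trans h₁)))
      · exfalso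
        have : g.val (τ.A j) ∈ g.val σ := e ▸ g.mem_val.2 ⟨j, g.up hq hj, hρ, rfl⟩
        obtain ⟨i, hi, hiN, e'⟩ := g.mem_val.1 this
        obtain ⟨p, hp, f⟩ := (ih i hiN hρ).1 e'
        obtain ⟨r, hr, h₁, h₂⟩ := g.dir hp hi
        obtain ⟨s, -, h₃, h₄⟩ := g.dir hr hq
        exact h s h₄ (FMem.of_feq (h₃.trans h₂) (f.symm.mono (h₃.trans h₁)))
    · rintro ⟨p, hp, h⟩
      rw [feq_iff] at h
      ext z
      simp only [g.mem_val]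
      constructor
      · rintro ⟨i, hi, hiN, rfl⟩
        obtain ⟨q, hq, h₁, h₂⟩ := g.dir hp hi
        obtain ⟨r, hr, j, hj, e, hjN⟩ := meets_mem hiN hτ hq (h.1 i q h₁ h₂)
        exact ⟨j, g.up hr hj, hjN, ((ih i hiN hjN).2 ⟨r, hr, e⟩).symm⟩
      · rintro ⟨j, hj, hjN, rfl⟩
        obtain ⟨q, hq, h₁, h₂⟩ := g.dir hp hj
        obtain ⟨r, hr, i, hi, e, hiN⟩ := meets_mem hjN hσ hq (h.2 j q h₁ h₂)
        exact ⟨i, g.up hr hi, hiN, (ih i hiN hjN).2 ⟨r, hr, e.symm⟩⟩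

theorem val_mem_iff {σ τ : Nm} (hσ : σ ∈ g.N) (hτ : τ ∈ g.N) :
    g.val σ ∈ g.val τ ↔ ∃ p ∈ g.G, FMem σ τ p := by
  constructor
  · intro h
    obtain ⟨j, hj, hjN, e⟩ := g.mem_val.1 h
    obtain ⟨p, hp, f⟩ := (val_eq_iff hσ hjN).1 e.symm
    obtain ⟨r, hr, h₁, h₂⟩ := g.dir hp hj
    exact ⟨r, hr, FMem.of_feq h₂ (f.mono h₁)⟩
  · rintro ⟨p, hp, h⟩
    obtain ⟨r, hr, j, hj, e, hjN⟩ := meets_mem hσ hτ hp h
    exact g.mem_val.2 ⟨j, g.up hr hj, hjN, ((val_eq_iff hσ hjN).2 ⟨r, hr, e⟩).symm⟩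

variable (g)

/-- The generic model. -/
def M : Type 1 := {x : ZFSet.{0} // ∃ τ ∈ g.N, g.val τ = x}

/-- Its membership relation. -/
def E (x y : g.M) : Prop := x.1 ∈ y.1

open Classical in
/-- The element of the model named by `τ` (for `τ ∈ N`). -/
noncomputable def v (τ : Nm) : g.M :=
  if h : τ ∈ g.N then ⟨g.val τ, τ, h, rfl⟩ else ⟨g.val emp, emp, g.emp_mem, rfl⟩

/-- The valuation given by a list of names. -/
noncomputable def w (l : List Nm) : ℕ → g.M := fun k => g.v (env emp l k)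

variable {g}

theorem v_val {τ : Nm} (h : τ ∈ g.N) : (g.v τ).1 = g.val τ := by
  unfold v; rw [dif_pos h]

theorem exists_v (x : g.M) : ∃ τ ∈ g.N, g.v τ = x := by
  obtain ⟨x, τ, h, rfl⟩ := x
  exact ⟨τ, h, Subtype.ext (v_val h)⟩

theorem exists_vl (l : List g.M) : ∃ l' : List Nm, (∀ x ∈ l', x ∈ g.N) ∧
    g.w l' = env (g.v emp) l := by
  obtain ⟨l', h, rfl⟩ : ∃ l' : List Nm, (∀ x ∈ l', x ∈ g.N) ∧ l'.map g.v = l := by
    induction l with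
    | nil => exact ⟨[], by simp, rfl⟩
    | cons x l ih =>
      obtain ⟨l', h, rfl⟩ := ih
      obtain ⟨τ, hτ, rfl⟩ := exists_v x
      exact ⟨τ :: l', lcons hτ h, rfl⟩
  exact ⟨l', h, (env_map _ _ _).symm⟩

theorem w_cons (τ : Nm) (l : List Nm) : g.w (τ :: l) = cons (g.v τ) (g.w l) := by
  funext k; cases k <;> rfl

theorem E_v {x : g.M} {τ : Nm} (hτ : τ ∈ g.N) :
    g.E x (g.v τ) ↔ ∃ i, τ.B i ∈ g.G ∧ τ.A i ∈ g.N ∧ g.v (τ.A i) = x := by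
  unfold E
  rw [v_val hτ, g.mem_val]
  refine exists_congr fun i => and_congr_right fun _ => and_congr_right fun h => ?_
  rw [← v_val h]
  exact Subtype.ext_iff.symm

theorem v_eq_iff {σ τ : Nm} (hσ : σ ∈ g.N) (hτ : τ ∈ g.N) :
    g.v σ = g.v τ ↔ ∃ p ∈ g.G, FEq σ τ p := by
  rw [← val_eq_iff hσ hτ, ← v_val hσ, ← v_val hτ]
  exact Subtype.ext_iff

theorem v_mem_iff {σ τ : Nm} (hσ : σ ∈ g.N) (hτ : τ ∈ g.N) :
    g.E (g.v σ) (g.v τ) ↔ ∃ p ∈ g.G, FMem σ τ p := by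
  rw [← val_mem_iff hσ hτ, ← v_val hσ, ← v_val hτ]
  rfl

theorem meets_wit (φ : Fml) {l : List Nm} (hl : ∀ x ∈ l, x ∈ g.N) :
    ∃ q ∈ g.G, (witS φ l q ∈ g.N ∧ SForces φ (env emp (witS φ l q :: l)) q) ∨
      ∀ r ≤ q, ∀ ρ', HS ρ' → ¬ SForces φ (env emp (ρ' :: l)) r := by
  obtain ⟨q, hq, ρ, hρ, ⟨h, rfl⟩ | h⟩ := g.meets 3 φ 0 l hl
  · exact ⟨q, hq, Or.inl ⟨hρ, h⟩⟩
  · exact ⟨q, hq, Or.inr h⟩

/-- The truth lemma. -/
theorem truth : ∀ (φ : Fml) {l : List Nm}, (∀ x ∈ l, x ∈ g.N) →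
    (Sat g.E φ (g.w l) ↔ ∃ p ∈ g.G, SForces φ (env emp l) p) := by
  intro φ
  induction φ with
  | mem i j =>
    intro l hl
    exact v_mem_iff (env_mem g.emp_mem hl i) (env_mem g.emp_mem hl j)
  | eq i j =>
    intro l hl
    exact v_eq_iff (env_mem g.emp_mem hl i) (env_mem g.emp_mem hl j)
  | bot => intro l _; simp [Sat, SForces]
  | imp φ ψ ih₁ ih₂ =>
    intro l hl
    simp only [Sat, SForces, ih₁ hl, ih₂ hl]
    constructor
    · intro h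
      obtain ⟨q, hq, -, -, h' | h'⟩ := g.meets 2 φ 0 l hl
      · obtain ⟨p, hp, h⟩ := h ⟨q, hq, h'⟩
        exact ⟨p, hp, fun r hr _ => h.mono hr⟩
      · exact ⟨q, hq, fun r hr h => absurd h (h' r hr)⟩
    · rintro ⟨p, hp, h⟩ ⟨q, hq, h'⟩
      obtain ⟨r, hr, h₁, h₂⟩ := g.dir hp hq
      exact ⟨r, hr, h r h₁ (h'.mono h₂)⟩
  | all φ ih =>
    intro l hl
    simp only [Sat, SForces]
    constructor
    · intro h
      obtain ⟨q, hq, ⟨hρ, h'⟩ | h'⟩ := meets_wit (.imp φ .bot) hl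
      · exfalso
        have := h (g.v (witS (.imp φ .bot) l q))
        rw [← w_cons, ih (lcons hρ hl)] at this
        obtain ⟨p, hp, f⟩ := this
        obtain ⟨r, -, h₁, h₂⟩ := g.dir hp hq
        exact h' r h₂ (f.mono h₁)
      · refine ⟨q, hq, fun τ hτ => SForces.reg fun r hr => ?_⟩
        have := h' r hr τ hτ
        simp only [SForces, not_forall] at this
        obtain ⟨s, hs, f, -⟩ := this
        exact ⟨s, hs, by rwa [env_cons] at f⟩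
    · rintro ⟨p, hp, h⟩ x
      obtain ⟨τ, hτ, rfl⟩ := exists_v x
      rw [← w_cons, ih (lcons hτ hl)]
      exact ⟨p, hp, by rw [env_cons]; exact h τ (g.hs hτ)⟩

/-- A uniformly definable property true in the model is forced by a condition of the filter. -/
theorem transfer {Ψ : ∀ (M : Type 1), (M → M → Prop) → (ℕ → M) → Prop} (h : UDef Ψ)
    {l : List Nm} (hl : ∀ x ∈ l, x ∈ g.N) (hΨ : Ψ g.M g.E (g.w l)) :
    ∃ p ∈ g.G, ∀ g' : Gn, p ∈ g'.G → (∀ x ∈ l, x ∈ g'.N) → Ψ g'.M g'.E (g'.w l) := by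
  obtain ⟨φ, h⟩ := h
  obtain ⟨p, hp, f⟩ := (truth φ hl).1 ((h _ _ _).2 hΨ)
  exact ⟨p, hp, fun g' hp' hl' => (h _ _ _).1 ((truth φ hl').2 ⟨p, hp', f⟩)⟩

/-- Density principle. -/
theorem dens {Ψ : ∀ (M : Type 1), (M → M → Prop) → (ℕ → M) → Prop} (h : UDef Ψ)
    {l : List Nm} (hl : ∀ x ∈ l, x ∈ g.N)
    (H : ∀ p ∈ g.G, ∃ q ≤ p, ∃ C : Set Nm, C.Countable ∧ (∀ x ∈ C, HS x) ∧
      ∀ g' : Gn, q ∈ g'.G → C ⊆ g'.N → (∀ x ∈ l, x ∈ g'.N) → Ψ g'.M g'.E (g'.w l)) :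
    Ψ g.M g.E (g.w l) := by
  by_contra hn
  obtain ⟨p, hp, f⟩ := transfer h.not hl hn
  obtain ⟨q, hq, C, hC, hs, H⟩ := H p hp
  obtain ⟨g', hq', hC'⟩ := exists_gn q (C ∪ {x | x ∈ l})
    (hC.union (List.finite_toSet l).countable) (fun x hx => hx.elim (hs x) fun h => g.hs (hl x h))
  have hl' : ∀ x ∈ l, x ∈ g'.N := fun x hx => hC' (Or.inr hx)
  exact f g' (g'.up hq' hq) hl' (H g' hq' (fun x hx => hC' (Or.inl hx)) hl')

theorem v_ne_iff {σ τ : Nm} (hσ : σ ∈ g.N) (hτ : τ ∈ g.N) :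
    g.v σ ≠ g.v τ ↔ ∃ p ∈ g.G, FNe σ τ p :=
  truth (.imp (.eq 0 1) .bot) (l2 hσ hτ)

theorem dir_fin {ι : Type*} (s : Finset ι) (D : ι → Q → Prop)
    (mono : ∀ i p q, q ≤ p → D i p → D i q) (h : ∀ i ∈ s, ∃ p ∈ g.G, D i p) :
    ∃ p ∈ g.G, ∀ i ∈ s, D i p := by
  classical
  induction s using Finset.induction_on with
  | empty => exact ⟨⊤, g.top, by simp⟩
  | insert a s _ ih =>
    obtain ⟨p, hp, H⟩ := ih fun i hi => h i (Finset.mem_insert_of_mem hi)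
    obtain ⟨q, hq, H'⟩ := h a (Finset.mem_insert_self _ _)
    obtain ⟨r, hr, h₁, h₂⟩ := g.dir hp hq
    refine ⟨r, hr, fun i hi => ?_⟩
    rcases Finset.mem_insert.1 hi with rfl | hi
    exacts [mono _ _ _ h₂ H', mono _ _ _ h₁ (H i hi)]

end Gn

/-- Equality that holds in all generic extensions is forced. -/
theorem feq_of_sem {a b : Nm} {p : Q} (C : Set Nm) (hC : C.Countable) (hs : ∀ x ∈ C, HS x)
    (ha : a ∈ C) (hb : b ∈ C) (h : ∀ g : Gn, p ∈ g.G → C ⊆ g.N → g.v a = g.v b) : FEq a b p := by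
  refine FEq.reg fun q hq => ?_
  obtain ⟨g, hg, hN⟩ := exists_gn q C hC hs
  obtain ⟨r, hr, e⟩ := (Gn.v_eq_iff (hN ha) (hN hb)).1 (h g (g.up hg hq) hN)
  obtain ⟨s, -, h₁, h₂⟩ := g.dir hr hg
  exact ⟨s, h₂, e.mono h₁⟩

end Pool.Agent.MP_a078ad_lc

end

section

namespace Pool.Agent.MP_a078ad_lc

open Pool.Agent.MP_c6cf52_lc Pool.Agent.MP_c6cf52_lc.Name Filter

theorem exists_pair_free {K : Type*} [Finite K] (Bad : K → ℕ → ℕ → Prop)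
    (h : ∀ κ u v w, Bad κ u v → Bad κ u w → Bad κ v w → False) :
    ∃ u v, u ≠ v ∧ ∀ κ, ¬ Bad κ u v := by
  by_contra H
  push Not at H
  have h₁ : ∀ u, ∃ κ, ∀ᶠ v in (hyperfilter ℕ : Filter ℕ), Bad κ u v := by
    intro u
    rw [← Ultrafilter.eventually_exists_iff]
    have : ∀ᶠ v in (hyperfilter ℕ : Filter ℕ), v ≠ u :=
      hyperfilter_le_cofinite (eventually_cofinite_ne u)
    exact this.mono fun v hv => H u v hv.symm
  choose κ hκ using h₁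
  obtain ⟨κ₀, h₀⟩ : ∃ κ₀, ∀ᶠ u in (hyperfilter ℕ : Filter ℕ), κ u = κ₀ := by
    rw [← Ultrafilter.eventually_exists_iff]
    exact Eventually.of_forall fun u => ⟨_, rfl⟩
  obtain ⟨u, hu⟩ := h₀.exists
  obtain ⟨v, hv, huv⟩ := (h₀.and (hκ u)).exists
  obtain ⟨w, huw, hvw⟩ := ((hκ u).and (hκ v)).exists
  rw [hu] at huv huw
  rw [hv] at hvw
  exact h _ _ _ _ huv huw hvw

theorem FNe.shift {y : Nm} {a b a' b' : Gam} {p q : Q} (h : FNe (a +ᵥ y) (b +ᵥ y) p) (σ : Gam)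
    (ea : a + σ = a') (eb : b + σ = b') (hq : q ≤ σ +ᵥ p) : FNe (a' +ᵥ y) (b' +ᵥ y) q := by
  have := (h.vadd σ).mono hq
  rwa [← add_vadd, ← add_vadd, add_comm σ, add_comm σ, ea, eb] at this

theorem gam_cancel (a b : Gam) : a + b + b = a := by rw [add_assoc, gam_self, add_zero]

/-- A persistent inequality. -/
def Pers (y : Nm) (r : Q) (a b : Gam) : Prop :=
  ∀ σ σ', Stab r σ → Stab r σ' → FNe ((a + σ) +ᵥ y) ((b + σ') +ᵥ y) r

theorem Pers.mono {y : Nm} {r r' : Q} {a b : Gam} (h : Pers y r a b) (hr : r' ≤ r) :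
    Pers y r' a b := fun σ σ' h₁ h₂ => (h σ σ' (h₁.of_le hr) (h₂.of_le hr)).mono hr

theorem Pers.add {y : Nm} {r : Q} {a b σ σ' : Gam} (h : Pers y r a b) (h₁ : Stab r σ)
    (h₂ : Stab r σ') : Pers y r (a + σ) (b + σ') := fun τ τ' h₃ h₄ => by
  rw [add_assoc, add_assoc]
  exact h _ _ (h₁.add h₃) (h₂.add h₄)

theorem Pers.symm {y : Nm} {r : Q} {a b : Gam} (h : Pers y r a b) : Pers y r b a :=
  fun σ σ' h₁ h₂ => (h σ' σ h₂ h₁).symm

theorem Pers.fne {y : Nm} {r : Q} {a b : Gam} (h : Pers y r a b) : FNe (a +ᵥ y) (b +ᵥ y) r := by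
  simpa only [add_zero] using h 0 0 (Stab.zero r) (Stab.zero r)

theorem exists_pers {y : Nm} (hy : HS y) {r : Q} {a b : Gam} (h : FNe (a +ᵥ y) (b +ᵥ y) r) :
    ∃ q ≤ r, Pers y q a b := by
  obtain ⟨q, hq, Δ, s, -, hI, -, hm, hcl, H₁, H₂⟩ := fusion (St := Unit)
    (fun _ Δ r _ => ∀ δ ∈ Δ, ∀ δ' ∈ Δ, FNe ((a + δ) +ᵥ y) ((b + δ') +ᵥ y) r) (fun _ _ => True)
    (fun _ _ _ _ _ hr h δ hδ δ' hδ' => (h δ hδ δ' hδ').mono hr) (by
      intro _ Δ r _ k hI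
      obtain ⟨ρ, h₁, h₂, -, h₃⟩ := exists_blocks r k
      obtain ⟨g, hg, hN⟩ := exists_gn r (Set.range fun σ : Gam => σ +ᵥ y) (Set.countable_range _)
        (by rintro _ ⟨σ, rfl⟩; exact hy.vadd σ)
      have hm : ∀ σ : Gam, σ +ᵥ y ∈ g.N := fun σ => hN ⟨σ, rfl⟩
      have hne : ∀ δ ∈ Δ, ∀ δ' ∈ Δ, ∀ u,
          g.v ((a + δ + ρ u) +ᵥ y) ≠ g.v ((b + δ' + ρ u) +ᵥ y) := fun δ hδ δ' hδ' u =>
        (Gn.v_ne_iff (hm _) (hm _)).2 ⟨r, hg, (hI δ hδ δ' hδ').shift _ rfl rfl (h₁ u).ge⟩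
      obtain ⟨u, v, huv, H⟩ := exists_pair_free (K := Δ × Δ × Bool)
        (fun κ u v => g.v ((a + κ.1.1 + ρ (cond κ.2.2 u v)) +ᵥ y) =
          g.v ((b + κ.2.1.1 + ρ (cond κ.2.2 v u)) +ᵥ y)) (by
          rintro ⟨δ, δ', _ | _⟩ u v w e₁ e₂ e₃
          · exact hne δ.1 δ.2 δ'.1 δ'.2 v (e₁.trans (e₂.symm.trans e₃))
          · exact hne δ.1 δ.2 δ'.1 δ'.2 v (e₃.trans (e₂.symm.trans e₁)))
      obtain ⟨r', hr', H'⟩ := Gn.dir_fin (g := g) (Finset.univ : Finset (Δ × Δ × Bool))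
        (fun κ p => FNe ((a + κ.1.1 + ρ (cond κ.2.2 u v)) +ᵥ y)
          ((b + κ.2.1.1 + ρ (cond κ.2.2 v u)) +ᵥ y) p) (fun _ _ _ hq h => h.mono hq)
        (fun κ _ => (Gn.v_ne_iff (hm _) (hm _)).1 (H κ))
      obtain ⟨s, -, hs₁, hs₂⟩ := g.dir hr' hg
      have hle : ρ u +ᵥ s ≤ r := (vadd_mono _ hs₂).trans (h₁ u).le
      have hst := (h₁ u).add (h₁ v)
      refine ⟨ρ u + ρ v, hst, (h₂ u).add (h₂ v), h₃ u v huv, ρ u +ᵥ s, hle, (), ?_, trivial⟩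
      intro δ hδ δ' hδ'
      rw [mem_grow] at hδ hδ'
      rcases hδ with hδ | ⟨δ, hδ, rfl⟩ <;> rcases hδ' with hδ' | ⟨δ', hδ', rfl⟩
      · exact (hI δ hδ δ' hδ').mono hle
      · exact (H' (⟨δ, hδ⟩, ⟨δ', hδ'⟩, true) (Finset.mem_univ _)).shift (ρ u) (gam_cancel _ _)
          (by simp only [cond]; abel) (vadd_mono _ hs₁)
      · exact (H' (⟨δ, hδ⟩, ⟨δ', hδ'⟩, false) (Finset.mem_univ _)).shift (ρ u)
          (by simp only [cond]; abel) (gam_cancel _ _) (vadd_mono _ hs₁)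
      · exact (hI δ hδ δ' hδ').shift (ρ u + ρ v) (add_assoc _ _ _) (add_assoc _ _ _)
          (hle.trans hst.ge)) r () (by simpa using h)
  refine ⟨q, hq, fun σ σ' hσ hσ' t ht e => ?_⟩
  obtain ⟨n, hn⟩ := H₁ σ hσ
  obtain ⟨n', hn'⟩ := H₁ σ' hσ'
  obtain ⟨t', ht', δ, hδ, hle⟩ := H₂ (max n n') t ht
  exact ((hI (max n n') _ (hcl _ _ (hm (le_max_left _ _) hn) _ hδ) _
    (hcl _ _ (hm (le_max_right _ _) hn') _ hδ)).shift δ
    (by rw [← add_assoc, gam_cancel]) (by rw [← add_assoc, gam_cancel]) hle) t' le_rfl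
    (e.mono ht')

/-- Canonisation: a name that is nowhere fixed by the flips of type at least `j` is moved by
all flips of smaller type. -/
theorem canon {y : Nm} (hy : HS y) {j : ℕ} {p : Q}
    (h : ∀ q ≤ p, ∃ σ, Stab q σ ∧ InH j σ ∧ ¬ FEq (σ +ᵥ y) y q) :
    ∃ q ≤ p, ∀ σ, Stab q σ → ¬ InH j σ → FNe (σ +ᵥ y) y q := by
  classical
  obtain ⟨q, hq, Δ, s, -, hI, -, -, hcl, H₁, H₂⟩ := fusion (St := Unit)
    (fun _ Δ r _ => (∀ δ ∈ Δ, δ +ᵥ r ≤ p) ∧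
      ∀ δ ∈ Δ, ∀ δ' ∈ Δ, ¬ InH j (δ + δ') → Pers y r δ δ') (fun _ _ => True)
    (fun _ _ _ _ _ hr h => ⟨fun δ hδ => (vadd_mono _ hr).trans (h.1 δ hδ),
      fun δ hδ δ' hδ' h' => (h.2 δ hδ δ' hδ' h').mono hr⟩) (by
      rintro _ Δ r _ k ⟨hp, hI⟩
      obtain ⟨β, b₁, b₂, b₃⟩ := exists_block r k
      have key : ∃ ρ, Stab r ρ ∧ InH k ρ ∧ ¬ InH (k + 1) ρ ∧ ∃ r' ≤ r,
          ∀ δ ∈ Δ, ∀ δ' ∈ Δ, ¬ InH j (δ + (δ' + ρ)) → Pers y r' δ (δ' + ρ) := by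
        by_cases hk : j ≤ k
        · refine ⟨β, b₁, b₂, b₃, r, le_rfl, fun δ hδ δ' hδ' hn => ?_⟩
          have := (hI δ hδ δ' hδ' fun h' => hn (by
            rw [← add_assoc]; exact h'.add (b₂.mono hk))).add (Stab.zero r) b₁
          rwa [add_zero] at this
        · have inner : ∀ T : Finset (Gam × Gam), T ⊆ Δ ×ˢ Δ → ∃ r' ≤ r, ∃ v, Stab r v ∧
              InH j (v + β) ∧ ∀ x ∈ T, Pers y r' x.1 (x.2 + v) := by
            intro T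
            induction T using Finset.induction_on with
            | empty => exact fun _ => ⟨r, le_rfl, β, b₁, by rw [gam_self]; exact InH.zero _, by simp⟩
            | insert x T _ ih =>
              intro hT
              obtain ⟨r', hr', v, v₁, v₂, v₃⟩ := ih ((Finset.subset_insert _ _).trans hT)
              have hx := Finset.mem_product.1 (hT (Finset.mem_insert_self _ _))
              have hle : (x.2 + v) +ᵥ r' ≤ p := by
                rw [add_vadd]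
                exact (vadd_mono _ ((vadd_mono _ hr').trans v₁.le)).trans (hp _ hx.2)
              obtain ⟨σ, s₁, s₂, s₃⟩ := h _ hle
              have s₁' : Stab r' σ := s₁
              obtain ⟨t, ht, hne⟩ := exists_fne s₃
              have hne' : FNe ((x.2 + (v + σ)) +ᵥ y) ((x.2 + v) +ᵥ y) ((x.2 + v) +ᵥ t) :=
                FNe.shift (a := σ) (b := 0) (by rwa [zero_vadd]) (x.2 + v) (by abel) (zero_add _)
                  le_rfl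
              have ht' : (x.2 + v) +ᵥ t ≤ r' := vadd_le_swap ht
              obtain ⟨t', ht'', w, w₁, w₂, w₃⟩ : ∃ t' ≤ r', ∃ w, Stab r' w ∧ InH j w ∧
                  FNe (x.1 +ᵥ y) ((x.2 + (v + w)) +ᵥ y) t' := by
                by_cases e : FEq (x.1 +ᵥ y) ((x.2 + v) +ᵥ y) ((x.2 + v) +ᵥ t)
                · exact ⟨_, ht', σ, s₁', s₂, fun t' ht' e' =>
                    hne' t' ht' (feq_trans e'.symm (e.mono ht'))⟩
                · obtain ⟨t', h₁, h₂⟩ := exists_fne e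
                  exact ⟨t', h₁.trans ht', 0, Stab.zero _, InH.zero _, by rwa [add_zero]⟩
              obtain ⟨r'', hr'', hP⟩ := exists_pers hy w₃
              refine ⟨r'', hr''.trans (ht''.trans hr'), v + w, v₁.add (w₁.of_le hr'), ?_,
                fun z hz => ?_⟩
              · rw [add_right_comm]; exact v₂.add w₂
              · rcases Finset.mem_insert.1 hz with rfl | hz
                · exact hP
                · have := ((v₃ z hz).add (Stab.zero _) w₁).mono (hr''.trans ht'')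
                  rwa [add_zero, add_assoc] at this
          obtain ⟨r', hr', v, v₁, v₂, v₃⟩ := inner _ subset_rfl
          have hk' : k + 1 ≤ j := not_le.1 hk
          refine ⟨v, v₁, (v₂.mono (by omega)).of_add b₂, fun h' => b₃ ?_, r', hr',
            fun δ hδ δ' hδ' _ => v₃ (δ, δ') (Finset.mem_product.2 ⟨hδ, hδ'⟩)⟩
          rw [add_comm] at v₂
          exact (v₂.mono hk').of_add h'
      obtain ⟨ρ, h₁, h₂, h₃, r', hr', H⟩ := key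
      refine ⟨ρ, h₁, h₂, h₃, r', hr', (), ⟨fun δ hδ => ?_, fun δ hδ δ' hδ' hn => ?_⟩, trivial⟩
      · rw [mem_grow] at hδ
        rcases hδ with hδ | ⟨δ, hδ, rfl⟩
        · exact (vadd_mono _ hr').trans (hp δ hδ)
        · rw [add_vadd]
          exact (vadd_mono _ ((vadd_mono _ hr').trans h₁.le)).trans (hp δ hδ)
      · rw [mem_grow] at hδ hδ'
        rcases hδ with hδ | ⟨δ, hδ, rfl⟩ <;> rcases hδ' with hδ' | ⟨δ', hδ', rfl⟩
        · exact (hI δ hδ δ' hδ' hn).mono hr'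
        · exact H δ hδ δ' hδ' hn
        · exact (H δ' hδ' δ hδ (by rwa [add_comm])).symm
        · refine ((hI δ hδ δ' hδ' fun h' => hn ?_).add h₁ h₁).mono hr'
          rwa [show δ + ρ + (δ' + ρ) = δ + δ' + ρ + ρ by abel, gam_cancel])
    p () ⟨by simp, by simp [InH.zero]⟩
  refine ⟨q, hq, fun σ hσ hn t ht e => ?_⟩
  obtain ⟨n, hσn⟩ := H₁ σ hσ
  obtain ⟨t', ht', δ, hδ, hle⟩ := H₂ n t ht
  have := ((hI n).2 _ (hcl _ _ hσn _ hδ) _ hδ (by rwa [gam_cancel])).fne.shift δ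
    (gam_cancel _ _) (gam_self _) hle
  rw [zero_vadd] at this
  exact this t' le_rfl (e.mono ht')

/-- A name that is locally fixed is locally equal to a fixed name. -/
theorem localize {y : Nm} (hy : HS y) {j : ℕ} {q : Q}
    (h : ∀ σ, Stab q σ → InH j σ → FEq (σ +ᵥ y) y q) : ∃ z, HS z ∧ Fix j z ∧ FEq y z q := by
  let z : Nm := .mk {x : Gam × y.I × Q // InH j x.1 ∧ x.2.2 ≤ q ∧ x.2.2 ≤ y.B x.2.1}
    (fun x => x.1.1 +ᵥ y.A x.1.2.1) (fun x => x.1.1 +ᵥ x.1.2.2)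
  have hz : Fix j z := by
    refine fix_of fun σ hσ ⟨⟨τ, i, s⟩, h₁, h₂⟩ => ?_
    have := fmem_child z ⟨(σ + τ, i, s), hσ.add h₁, h₂⟩ le_rfl
    simpa only [z, A_mk, B_mk, add_vadd] using this
  refine ⟨z, hs_mk hz fun x => (hy.child _).vadd _, hz, ?_⟩
  rw [feq_iff]
  refine ⟨fun i s h₁ h₂ => ?_, fun ⟨⟨τ, i, s⟩, h₁, h₂, h₃⟩ t ht ht' => ?_⟩
  · have := fmem_child z ⟨(0, i, s), InH.zero _, h₁, h₂⟩ le_rfl
    simpa only [z, A_mk, B_mk, zero_vadd] using this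
  · have hτ : Stab q τ := stab_of_compat ht (ht'.trans (vadd_mono τ h₂))
    exact fmem_right ((fmem_vadd τ (fmem_child y i h₃)).mono ht') ((h τ hτ h₁).mono ht)

/-- The form in which canonisation is used. -/
theorem canon' {y : Nm} (hy : HS y) {j : ℕ} {p : Q}
    (h : ∀ q ≤ p, ∀ z, HS z → Fix j z → ¬ FEq y z q) :
    ∃ q ≤ p, ∀ σ, Stab q σ → ¬ InH j σ → FNe (σ +ᵥ y) y q := by
  refine canon hy fun q hq => ?_
  by_contra h'
  push Not at h'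
  obtain ⟨z, h₁, h₂, h₃⟩ := localize hy h'
  exact h q hq z h₁ h₂ h₃

end Pool.Agent.MP_a078ad_lc

end

section

namespace Pool.Agent.MP_a078ad_lc

open Pool.Agent.MP_c6cf52_lc Pool.Agent.MP_c6cf52_lc.Name Cardinal

/-- A condition, a source name and a target name. -/
structure Tr where
  r : Q
  y : Nm
  x : Nm

def Sep (j : ℕ) (t t' : Tr) : Prop :=
  ∀ σ, InH j σ → ∀ s, s ≤ σ +ᵥ t.r → s ≤ t'.r → ¬ FEq (σ +ᵥ t.y) t'.y s

theorem Sep.symm {j : ℕ} {t t' : Tr} (h : Sep j t t') : Sep j t' t := fun σ hσ s h₁ h₂ e =>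
  h σ hσ (σ +ᵥ s) (vadd_mono σ h₂) (vadd_le_swap h₁)
    (by simpa only [vadd_vadd_self] using (feq_vadd σ e).symm)

def Fresh (j : ℕ) (u : Nm) (t : Tr) : Prop := ∀ σ, InH j σ → FNe t.y (σ +ᵥ u) t.r

theorem Fresh.sep {j : ℕ} {u : Nm} {t t' : Tr} (h : Fresh j u t') (e : FEq t.y u t.r) :
    Sep j t t' := fun σ hσ s h₁ h₂ e' =>
  h σ hσ s h₂ (feq_trans e'.symm ((feq_vadd σ e).mono h₁))

/-- A separated system of triples that serves all tasks densely below `q`. -/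
def Out (j : ℕ) {ι : Type} (Good : ι → Tr → Prop) (q : Q) (κ : Cardinal.{0}) : Prop :=
  ∃ S : Set Tr, Small.{0} S ∧ (∀ t ∈ S, ∃ i, Good i t) ∧ S.Pairwise (Sep j) ∧
    (∀ i, ∀ q' ≤ q, ∃ t ∈ S, Good i t ∧ ∃ s ≤ q', s ≤ t.r) ∧
    ∃ (K : Type) (U : K → Nm), #K ≤ κ ∧ (∀ k, HS (U k)) ∧ ∀ t ∈ S, ∃ k, FEq t.y (U k) t.r

theorem out_of_countable {j : ℕ} {ι : Type} {Good : ι → Tr → Prop} {q : Q}
    (hG : ∀ i t, Good i t → HS t.y) {S : Set Tr} (hS : S.Countable) (h₁ : ∀ t ∈ S, ∃ i, Good i t)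
    (h₂ : S.Pairwise (Sep j)) (h₃ : ∀ i, ∀ q' ≤ q, ∃ t ∈ S, Good i t ∧ ∃ s ≤ q', s ≤ t.r) :
    Out j Good q ℵ₀ := by
  have := hS.to_subtype
  refine ⟨S, inferInstance, h₁, h₂, h₃, Shrink.{0} S, fun a => ((equivShrink.{0} S).symm a).1.y,
    ?_, fun a => ?_, fun t ht => ⟨equivShrink.{0} S ⟨t, ht⟩, by simpa using feq_refl _ _⟩⟩
  · have : Countable (Shrink.{0} S) := (equivShrink.{0} S).symm.countable_iff.2 inferInstance
    exact mk_le_aleph0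
  · obtain ⟨i, hi⟩ := h₁ _ ((equivShrink.{0} S).symm a).2
    exact hG i _ hi

theorem pairwise_insert {j : ℕ} {L : Set Tr} {t : Tr} (h : L.Pairwise (Sep j))
    (hf : ∀ t' ∈ L, Fresh j t'.y t) : (insert t L).Pairwise (Sep j) :=
  Set.pairwise_insert.2 ⟨h, fun t' ht' _ =>
    ⟨((hf t' ht').sep (feq_refl _ _)).symm, (hf t' ht').sep (feq_refl _ _)⟩⟩

theorem out_fin {j : ℕ} {ι : Type} [Fintype ι] {Good : ι → Tr → Prop} {q : Q}
    (hG : ∀ i t, Good i t → HS t.y)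
    (sup : ∀ q' ≤ q, ∀ L : Set Tr, L.Finite → L.ncard < Fintype.card ι →
      (∀ t ∈ L, ∃ i, Good i t) → ∀ i, ∃ t, t.r ≤ q' ∧ Good i t ∧ ∀ t' ∈ L, Fresh j t'.y t) :
    ∃ r ≤ q, Out j Good r ℵ₀ := by
  classical
  have key : ∀ T : Finset ι, ∃ r ≤ q, ∃ L : Set Tr, L.Finite ∧ L.ncard ≤ T.card ∧
      (∀ t ∈ L, ∃ i, Good i t) ∧ L.Pairwise (Sep j) ∧ ∀ i ∈ T, ∃ t ∈ L, Good i t ∧ r ≤ t.r := by
    intro T
    induction T using Finset.induction_on with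
    | empty => exact ⟨q, le_rfl, ∅, by simp, by simp, by simp, by simp, by simp⟩
    | insert a T ha ih =>
      obtain ⟨r, hr, L, h₁, h₂, h₃, h₄, h₅⟩ := ih
      have hc : T.card < Fintype.card ι := by
        have := Finset.card_le_univ (insert a T)
        rw [Finset.card_insert_of_notMem ha] at this
        omega
      obtain ⟨t, t₁, t₂, t₃⟩ := sup r hr L h₁ (h₂.trans_lt hc) h₃ a
      refine ⟨t.r, t₁.trans hr, insert t L, h₁.insert t, ?_, ?_, pairwise_insert h₄ t₃,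
        fun i hi => ?_⟩
      · rw [Finset.card_insert_of_notMem ha]
        exact (Set.ncard_insert_le _ _).trans (by omega)
      · rintro t' (rfl | ht')
        exacts [⟨a, t₂⟩, h₃ t' ht']
      · rcases Finset.mem_insert.1 hi with rfl | hi
        · exact ⟨t, Or.inl rfl, t₂, le_rfl⟩
        · obtain ⟨t', h₆, h₇, h₈⟩ := h₅ i hi
          exact ⟨t', Or.inr h₆, h₇, t₁.trans h₈⟩
  obtain ⟨r, hr, L, h₁, -, h₃, h₄, h₅⟩ := key Finset.univ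
  refine ⟨r, hr, out_of_countable hG h₁.countable h₃ h₄ fun i q' hq' => ?_⟩
  obtain ⟨t, h₆, h₇, h₈⟩ := h₅ i (Finset.mem_univ i)
  exact ⟨t, h₆, h₇, q', le_rfl, hq'.trans h₈⟩

theorem out_ctble {j : ℕ} {ι : Type} [Countable ι] {Good : ι → Tr → Prop} {q : Q}
    (hG : ∀ i t, Good i t → HS t.y)
    (sup : ∀ q' ≤ q, ∀ L : Set Tr, L.Finite →
      (∀ t ∈ L, ∃ i, Good i t) → ∀ i, ∃ t, t.r ≤ q' ∧ Good i t ∧ ∀ t' ∈ L, Fresh j t'.y t) :
    ∃ r ≤ q, Out j Good r ℵ₀ := by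
  classical
  rcases isEmpty_or_nonempty ι with hι | hι
  · exact ⟨q, le_rfl, out_of_countable hG Set.countable_empty (by simp) (by simp)
      fun i => hι.elim i⟩
  obtain ⟨e, he⟩ := exists_surjective_nat ι
  obtain ⟨r, hr, Δ, s, L, hI, hR, -, -, -, H⟩ := fusion (St := Set Tr)
    (fun n Δ r L => L.Finite ∧ (∀ t ∈ L, ∃ i, Good i t) ∧ L.Pairwise (Sep j) ∧
      (∀ δ ∈ Δ, δ +ᵥ r ≤ q) ∧
      ∀ m, n = m + 1 → ∀ δ ∈ Δ, ∃ t ∈ L, Good (e m) t ∧ δ +ᵥ r ≤ t.r) (· ⊆ ·)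
    (fun _ _ _ _ _ hr ⟨h₁, h₂, h₃, h₄, h₅⟩ => ⟨h₁, h₂, h₃,
      fun δ hδ => (vadd_mono _ hr).trans (h₄ δ hδ), fun m hm δ hδ =>
        let ⟨t, a, b, c⟩ := h₅ m hm δ hδ
        ⟨t, a, b, (vadd_mono _ hr).trans c⟩⟩) (by
      rintro n Δ r L k ⟨h₁, h₂, h₃, h₄, -⟩
      have inner : ∀ T : Finset Gam, T ⊆ Δ → ∃ r' ≤ r, ∃ L' ⊇ L, L'.Finite ∧
          (∀ t ∈ L', ∃ i, Good i t) ∧ L'.Pairwise (Sep j) ∧
          ∀ δ ∈ T, ∃ t ∈ L', Good (e n) t ∧ δ +ᵥ r' ≤ t.r := by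
        intro T
        induction T using Finset.induction_on with
        | empty => exact fun _ => ⟨r, le_rfl, L, subset_rfl, h₁, h₂, h₃, by simp⟩
        | insert a T _ ih =>
          intro hT
          obtain ⟨r', hr', L', l₀, l₁, l₂, l₃, l₄⟩ := ih ((Finset.subset_insert _ _).trans hT)
          obtain ⟨t, t₁, t₂, t₃⟩ := sup (a +ᵥ r')
            ((vadd_mono _ hr').trans (h₄ a (hT (Finset.mem_insert_self _ _)))) L' l₁ l₂ (e n)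
          have hle : a +ᵥ t.r ≤ r' := vadd_le_swap t₁
          refine ⟨a +ᵥ t.r, hle.trans hr', insert t L', l₀.trans (Set.subset_insert _ _),
            l₁.insert t, ?_, pairwise_insert l₃ t₃, fun δ hδ => ?_⟩
          · rintro t' (rfl | ht')
            exacts [⟨_, t₂⟩, l₂ t' ht']
          · rcases Finset.mem_insert.1 hδ with rfl | hδ
            · exact ⟨t, Or.inl rfl, t₂, by rw [vadd_vadd_self]⟩
            · obtain ⟨t', a₁, a₂, a₃⟩ := l₄ δ hδ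
              exact ⟨t', Or.inr a₁, a₂, (vadd_mono _ hle).trans a₃⟩
      obtain ⟨r', hr', L', l₀, l₁, l₂, l₃, l₄⟩ := inner Δ subset_rfl
      obtain ⟨ρ, b₁, b₂, b₃⟩ := exists_block r' k
      have hg : ∀ δ ∈ grow Δ ρ, ∃ δ' ∈ Δ, δ +ᵥ r' ≤ δ' +ᵥ r' := by
        intro δ hδ
        rw [mem_grow] at hδ
        rcases hδ with hδ | ⟨δ, hδ, rfl⟩
        · exact ⟨δ, hδ, le_rfl⟩
        · exact ⟨δ, hδ, by rw [add_vadd]; exact vadd_mono _ b₁.le⟩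
      refine ⟨ρ, b₁.of_le hr', b₂, b₃, r', hr', L', ⟨l₁, l₂, l₃, fun δ hδ => ?_,
        fun m hm δ hδ => ?_⟩, l₀⟩
      · obtain ⟨δ', a₁, a₂⟩ := hg δ hδ
        exact a₂.trans ((vadd_mono _ hr').trans (h₄ δ' a₁))
      · obtain ⟨δ', a₁, a₂⟩ := hg δ hδ
        obtain ⟨t, c₁, c₂, c₃⟩ := l₄ δ' a₁
        obtain rfl : n = m := by omega
        exact ⟨t, c₁, c₂, a₂.trans c₃⟩) q ∅ (by simp)
  have hm : Monotone L := monotone_nat_of_le_succ hR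
  refine ⟨r, hr, out_of_countable hG (S := ⋃ n, L n)
    (Set.countable_iUnion fun n => (hI n).1.countable) (fun t ht => ?_) (fun t ht t' ht' => ?_)
    fun i q' hq' => ?_⟩
  · obtain ⟨n, hn⟩ := Set.mem_iUnion.1 ht
    exact (hI n).2.1 t hn
  · obtain ⟨n, hn⟩ := Set.mem_iUnion.1 ht
    obtain ⟨n', hn'⟩ := Set.mem_iUnion.1 ht'
    exact (hI (max n n')).2.2.1 (hm (le_max_left _ _) hn) (hm (le_max_right _ _) hn')
  · obtain ⟨m, rfl⟩ := he i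
    obtain ⟨s', hs', δ, hδ, hle⟩ := H (m + 1) q' hq'
    obtain ⟨t, c₁, c₂, c₃⟩ := (hI (m + 1)).2.2.2.2 m rfl δ hδ
    exact ⟨t, Set.mem_iUnion.2 ⟨_, c₁⟩, c₂, s', hs', hle.trans c₃⟩

/-- Mixing names along an antichain of the collapse. -/
theorem exists_mix {J : Type} (c : J → Col) (y : J → Nm) (k : ℕ) (hs : ∀ a, HS (y a))
    (hf : ∀ a, Fix k (y a)) (anti : ∀ a b d, d ≤ c a → d ≤ c b → a = b) :
    ∃ u, HS u ∧ ∀ a (q : Q), q.c ≤ c a → FEq (y a) u q := by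
  let u : Nm := .mk {x : Σ a : J, (y a).I × Q // x.2.2.c ≤ c x.1 ∧ x.2.2 ≤ (y x.1).B x.2.1}
    (fun x => (y x.1.1).A x.1.2.1) (fun x => x.1.2.2)
  have key : ∀ a (q : Q), q.c ≤ c a → FEq (y a) u q := by
    intro a q hq
    rw [feq_iff]
    refine ⟨fun i s h₁ h₂ => fmem_child u ⟨⟨a, i, s⟩, h₁.1.trans hq, h₂⟩ le_rfl,
      fun ⟨⟨b, i, s'⟩, h₁, h₂⟩ s h₃ h₄ => ?_⟩
    obtain rfl : a = b := anti a b s.c (h₃.1.trans hq) (h₄.1.trans h₁)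
    exact fmem_child (y a) i (h₄.trans h₂)
  have hu : Fix k u := fix_of fun σ hσ ⟨⟨a, i, s⟩, h₁, h₂⟩ =>
    fmem_right (fmem_right (fmem_vadd σ (fmem_child (y a) i h₂)) ((hf a σ hσ).mono le_top))
      (key a _ h₁)
  exact ⟨u, hs_mk hu fun x => (hs _).child _, key⟩

/-- One stage of the transfinite construction. -/
theorem stage (Cand : Tr → Prop) (hC : ∀ t, Cand t → HS t.y) :
    ∃ (A : Set Tr) (u : ℕ → Nm), (∀ n, HS (u n)) ∧ Small.{0} A ∧ (∀ t ∈ A, Cand t) ∧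
      (A.Pairwise fun t t' => ∀ d, d ≤ t.r.c → ¬ d ≤ t'.r.c) ∧
      (∀ t, Cand t → ∃ t' ∈ A, ∃ d, d ≤ t.r.c ∧ d ≤ t'.r.c) ∧
      ∀ t ∈ A, ∃ n, FEq t.y (u n) t.r := by
  obtain ⟨A, ⟨h₁, h₂⟩, hmax⟩ := zorn_subset
    {A : Set Tr | (∀ t ∈ A, Cand t) ∧ A.Pairwise fun t t' => ∀ d, d ≤ t.r.c → ¬ d ≤ t'.r.c} (by
      intro c hc hch
      refine ⟨⋃₀ c, ⟨fun t ⟨A, hA, ht⟩ => (hc hA).1 t ht, ?_⟩,
        fun s hs => Set.subset_sUnion_of_mem hs⟩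
      rintro t ⟨A, hA, ht⟩ t' ⟨A', hA', ht'⟩ hne
      rcases hch.total hA hA' with h | h
      exacts [(hc hA').2 (h ht) ht' hne, (hc hA).2 ht (h ht') hne])
  have hinj : ∀ t ∈ A, ∀ t' ∈ A, ∀ d, d ≤ t.r.c → d ≤ t'.r.c → t = t' :=
    fun t ht t' ht' d a b => by_contra fun h => h₂ ht ht' h d a b
  have hsm : Small.{0} A := small_of_injective (f := fun t : A => t.1.r.c) fun t t' e =>
    Subtype.ext (hinj _ t.2 _ t'.2 _ le_rfl (le_of_eq e))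
  let tt : Shrink.{0} A → Tr := fun a => ((equivShrink A).symm a).1
  have htt : ∀ a, tt a ∈ A := fun a => ((equivShrink A).symm a).2
  have hmix : ∀ k, ∃ u, HS u ∧ ∀ (a : {a // Fix k (tt a).y}) (q : Q), q.c ≤ (tt a.1).r.c →
      FEq (tt a.1).y u q := fun k =>
    exists_mix (fun a : {a // Fix k (tt a).y} => (tt a.1).r.c) (fun a => (tt a.1).y) k
      (fun a => hC _ (h₁ _ (htt _))) (fun a => a.2) fun a b d h h' =>
      Subtype.ext ((equivShrink A).symm.injective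
        (Subtype.ext (hinj _ (htt _) _ (htt _) d h h')))
  choose u hu hu' using hmix
  refine ⟨A, u, hu, hsm, h₁, h₂, fun t ht => ?_, fun t ht => ?_⟩
  · by_contra h
    push Not at h
    have : insert t A ⊆ A := hmax (y := insert t A) ⟨?_, Set.pairwise_insert.2 ⟨h₂, fun t' ht' _ =>
      ⟨fun d a b => h t' ht' d a b, fun d a b => h t' ht' d b a⟩⟩⟩ (Set.subset_insert _ _)
    · exact h t (this (Or.inl rfl)) _ le_rfl le_rfl
    · rintro t' (rfl | ht')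
      exacts [ht, h₁ t' ht']
  · obtain ⟨k, hk⟩ := (hC t (h₁ t ht)).fix
    have e : tt (equivShrink A ⟨t, ht⟩) = t := by simp [tt]
    have := hu' k ⟨equivShrink A ⟨t, ht⟩, by rwa [e]⟩ t.r (by simp only [e]; exact le_rfl)
    simp only [e] at this
    exact ⟨k, this⟩

theorem out_unc {j : ℕ} {ι : Type} {Good : ι → Tr → Prop} {q : Q} {κ : Cardinal.{0}}
    (hκ : ℵ₀ < κ) (hι : #ι ≤ κ) (hG : ∀ i t, Good i t → HS t.y)
    (sup : ∀ q' ≤ q, ∀ (K : Type) (U : K → Nm), #K < κ → (∀ k, HS (U k)) →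
      ∀ i, ∃ t, t.r ≤ q' ∧ Good i t ∧ ∀ k, Fresh j (U k) t) : Out j Good q κ := by
  classical
  have hZ : #(ι × W) ≤ κ := by
    rw [mk_prod, lift_id, lift_id, mk_W]
    have h₁ : aleph 1 ≤ κ := by
      rw [← succ_aleph0]; exact Order.succ_le_of_lt hκ
    exact (mul_le_mul' hι h₁).trans (mul_eq_self hκ.le).le
  obtain ⟨f⟩ : Nonempty (ι × W ↪ κ.ord.ToType) := by
    rw [← le_def, mk_ord_toType]; exact hZ
  let R : ι × W → ι × W → Prop := fun a b => f a < f b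
  have wf : WellFounded R := InvImage.wf f wellFounded_lt
  have hlt : ∀ z, #({z' // R z' z} × ℕ) < κ := by
    intro z
    rw [mk_prod, lift_id, lift_id, mk_nat]
    refine mul_lt_of_lt hκ.le ?_ hκ
    refine lt_of_le_of_lt (mk_le_of_injective (f := fun a : {z' // R z' z} =>
      (⟨f a.1, a.2⟩ : Set.Iio (f z))) fun a b e => ?_) (mk_Iio_toType_ord_lt _)
    exact Subtype.ext (f.injective (congrArg Subtype.val e))
  let Cand : ∀ z : ι × W, ({z' // R z' z} → ℕ → Nm) → Tr → Prop := fun z prev t =>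
    Good z.1 t ∧ (∀ z' n, Fresh j (prev z' n) t) ∧ ∃ p, t.r.c.f z.2 = some p ∧ t.r.p ≤ p
  choose A u h₁ h₂ h₃ h₄ h₅ h₆ using fun z prev => stage (Cand z prev) fun t h => hG _ _ h.1
  let F : ι × W → ℕ → Nm := wf.fix fun z prev => u z fun z' => prev z'.1 z'.2
  have hF : ∀ z, F z = u z fun z' => F z'.1 := fun z => wf.fix_eq _ z
  let B : ι × W → Set Tr := fun z => A z fun z' => F z'.1
  have hFs : ∀ z n, HS (F z n) := fun z n => by rw [hF]; exact h₁ _ _ _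
  have hcov : ∀ z, ∀ t ∈ B z, ∃ n, FEq t.y (F z n) t.r := fun z t ht => by
    rw [hF]; exact h₆ _ _ t ht
  have hlt' : ∀ z z', R z z' → ∀ t ∈ B z, ∀ t' ∈ B z', Sep j t t' := by
    intro z z' h t ht t' ht'
    obtain ⟨n, hn⟩ := hcov z t ht
    exact ((h₃ _ _ t' ht').2.1 ⟨z, h⟩ n).sep hn
  refine ⟨⋃ z, B z, ?_, fun t ht => ?_, fun t ht t' ht' hne => ?_, fun i q' hq' => ?_,
    (ι × W) × ℕ, fun x => F x.1 x.2, ?_, fun x => hFs _ _, fun t ht => ?_⟩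
  · have : ∀ z, Small.{0} (B z) := fun z => h₂ _ _
    exact small_iUnion B
  · obtain ⟨z, hz⟩ := Set.mem_iUnion.1 ht
    exact ⟨z.1, (h₃ _ _ t hz).1⟩
  · obtain ⟨z, hz⟩ := Set.mem_iUnion.1 ht
    obtain ⟨z', hz'⟩ := Set.mem_iUnion.1 ht'
    rcases lt_trichotomy (f z) (f z') with h | h | h
    · exact hlt' z z' h t hz t' hz'
    · obtain rfl := f.injective h
      exact fun σ _ s a b _ => h₄ _ _ hz hz' hne s.c a.1 b.1
    · exact (hlt' z' z h t' hz' t hz).symm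
  · obtain ⟨ξ, d, hd, hξ⟩ := q'.c.exists_ext q'.p
    have hle : (⟨d, q'.p⟩ : Q) ≤ q' := ⟨hd, le_rfl⟩
    obtain ⟨t, t₁, t₂, t₃⟩ := sup _ (hle.trans hq') _
      (fun x : {z' // R z' (i, ξ)} × ℕ => F x.1.1 x.2) (hlt (i, ξ)) (fun x => hFs _ _) i
    obtain ⟨t', a₁, d', a₂, a₃⟩ := h₅ (i, ξ) (fun z' => F z'.1) t
      ⟨t₂, fun z' n => t₃ (z', n), q'.p, t₁.1 _ _ hξ, t₁.2⟩
    obtain ⟨b₁, -, p, b₂, b₃⟩ := h₃ _ _ t' a₁
    have e : p = q'.p := by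
      have e₁ := a₃ _ _ b₂
      have e₂ := a₂ _ _ (t₁.1 _ _ hξ)
      exact Option.some.inj (e₁.symm.trans e₂)
    exact ⟨t', Set.mem_iUnion.2 ⟨_, a₁⟩, b₁, ⟨d', t'.r.p⟩,
      ⟨a₂.trans (t₁.1.trans hd), e ▸ b₃⟩, a₃, le_rfl⟩
  · rw [mk_prod, lift_id, lift_id, mk_nat]
    exact (mul_le_mul' hZ hκ.le).trans (mul_eq_self hκ.le).le
  · obtain ⟨z, hz⟩ := Set.mem_iUnion.1 ht
    obtain ⟨n, hn⟩ := hcov z t hz
    exact ⟨(z, n), hn⟩

end Pool.Agent.MP_a078ad_lc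

end

section

namespace Pool.Agent.MP_a078ad_lc

open Pool.Agent.MP_c6cf52_lc Pool.Agent.MP_c6cf52_lc.Name Cardinal

/-- Below `q`, every element of `X` is low or is named in the family `F`. -/
def Cov (Low : Nm → Prop) (q : Q) (X : Nm) {K : Type} (F : K → Nm) : Prop :=
  ∀ q' ≤ q, ∀ τ, HS τ → FMem τ X q' →
    ∃ s ≤ q', (∃ z, HS z ∧ Low z ∧ FEq τ z s) ∨ ∃ k, FEq τ (F k) s

theorem Cov.mono {Low Low' : Nm → Prop} {q q' : Q} {X : Nm} {K : Type} {F : K → Nm}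
    (h : Cov Low q X F) (hq : q' ≤ q) (hL : ∀ z, Low z → Low' z) : Cov Low' q' X F := by
  intro r hr τ hτ hm
  obtain ⟨s, hs, ⟨z, h₁, h₂, h₃⟩ | h'⟩ := h r (hr.trans hq) τ hτ hm
  exacts [⟨s, hs, Or.inl ⟨z, h₁, hL z h₂, h₃⟩⟩, ⟨s, hs, Or.inr h'⟩]

theorem not_cov {Low : Nm → Prop} {q : Q} {X : Nm} {K : Type} {F : K → Nm}
    (h : ¬ Cov Low q X F) : ∃ q' ≤ q, ∃ τ, HS τ ∧ FMem τ X q' ∧
      (∀ z, HS z → Low z → FNe τ z q') ∧ ∀ k, FNe τ (F k) q' := by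
  unfold Cov at h
  push Not at h
  obtain ⟨q', hq', τ, h₁, h₂, h₃⟩ := h
  exact ⟨q', hq', τ, h₁, h₂, fun z a b s hs => (h₃ s hs).1 z a b, fun k s hs => (h₃ s hs).2 k⟩

theorem cov_self (Low : Nm → Prop) (q : Q) (X : Nm) : Cov Low q X X.A := by
  intro q' _ τ _ h
  obtain ⟨s, hs, i, -, e⟩ := h q' le_rfl
  exact ⟨s, hs, Or.inr ⟨i, e⟩⟩

/-- The orbit of the pair is a function from a subset of `Y`. -/
def Sys (j : ℕ) (Y : Nm) (t : Tr) : Prop :=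
  HS t.y ∧ HS t.x ∧ FMem t.y Y t.r ∧
    ∀ σ, InH j σ → Stab t.r σ → FNe (σ +ᵥ t.y) t.y t.r ∨ FEq (σ +ᵥ t.x) t.x ⊤

theorem Out.mono {j : ℕ} {ι : Type} {Good : ι → Tr → Prop} {q : Q} {κ κ' : Cardinal.{0}}
    (h : Out j Good q κ) (hκ : κ ≤ κ') : Out j Good q κ' := by
  obtain ⟨S, h₁, h₂, h₃, h₄, K, U, h₅, h₆⟩ := h
  exact ⟨S, h₁, h₂, h₃, h₄, K, U, h₅.trans hκ, h₆⟩

theorem exists_fix_finite {U : Set Nm} (hU : U.Finite) (hs : ∀ u ∈ U, HS u) :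
    ∃ k, ∀ u ∈ U, Fix k u := by
  obtain ⟨k, hk⟩ := exists_fix_list (l := hU.toFinset.toList) (by simpa using hs)
  exact ⟨k, by simpa using hk⟩

theorem mk_gam_prod {K : Type} {κ : Cardinal.{0}} (hκ : ℵ₀ < κ) (h : #K < κ) :
    #(Gam × K) < κ := by
  rw [mk_prod, lift_id, lift_id]
  exact mul_lt_of_lt hκ.le (mk_le_aleph0.trans_lt hκ) h

/-- The target is the task if the task is low. -/
def Hit (j : ℕ) (φ : Nm) (t : Tr) : Prop :=
  FEq φ t.x t.r ∨ ∀ s ≤ t.r, ∀ z, HS z → Fix j z → ¬ FEq φ z s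

theorem exists_hit (j : ℕ) (φ y : Nm) (q : Q) :
    ∃ s ≤ q, ∃ x, HS x ∧ Fix j x ∧ Hit j φ ⟨s, y, x⟩ := by
  by_cases h : ∀ s ≤ q, ∀ z, HS z → Fix j z → ¬ FEq φ z s
  · exact ⟨q, le_rfl, emp, hs_emp, fix_emp j, Or.inr h⟩
  · push Not at h
    obtain ⟨s, hs, z, h₁, h₂, h₃⟩ := h
    exact ⟨s, hs, z, h₁, h₂, Or.inl h₃⟩

section Main

variable {X Y : Nm} {j : ℕ} {q : Q} {lam mu : Cardinal.{0}}

theorem supply_core {φ : Nm} (hφ : HS φ) {k l : ℕ} (hk : Fix k φ) (hkl : k ≤ l) {q' : Q} {τ : Nm}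
    (h₁ : HS τ) (h₂ : FMem τ Y q') (h₃ : ∀ z, HS z → Fix l z → FNe τ z q') :
    ∃ r ≤ q', Sys j Y ⟨r, τ, φ⟩ := by
  obtain ⟨r, hr, H⟩ := canon' h₁ (j := l) (p := q') fun s hs z a b => h₃ z a b s hs
  refine ⟨r, hr, h₁, hφ, h₂.mono hr, fun σ _ hσ => ?_⟩
  by_cases h : InH l σ
  exacts [Or.inr (hk σ (h.mono hkl)), Or.inl (H σ hσ h)]

theorem supply_fin
    (l1 : ∀ q' ≤ q, ∀ j', j ≤ j' → ∀ (K : Type) (F : K → Nm), (∀ k, HS (F k)) →
      Cov (Fix j') q' Y F → lam ≤ #K) (hl : 0 < lam) {q' : Q} (hq' : q' ≤ q) {U : Set Nm}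
    (hU : U.Finite) (hs : ∀ u ∈ U, HS u) {φ : Nm} (hφ : HS φ) :
    ∃ t : Tr, t.r ≤ q' ∧ (Sys j Y t ∧ t.x = φ) ∧ ∀ u ∈ U, Fresh j u t := by
  obtain ⟨k, hk⟩ := hφ.fix
  obtain ⟨k', hk'⟩ := exists_fix_finite hU hs
  obtain ⟨q'', h₀, τ, h₁, h₂, h₃, -⟩ := not_cov (Low := Fix (max j (max k k'))) (q := q') (X := Y)
    (F := (Empty.elim : Empty → Nm)) fun h => by
      have := l1 q' hq' _ (le_max_left _ _) _ _ (fun k => k.elim) h
      simp only [mk_eq_zero] at this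
      exact absurd hl (not_lt.2 this)
  obtain ⟨r, hr, H⟩ := supply_core (j := j) hφ hk (le_max_of_le_right (le_max_left _ _)) h₁ h₂ h₃
  exact ⟨_, hr.trans h₀, ⟨H, rfl⟩, fun u hu σ _ => (h₃ _ ((hs u hu).vadd σ)
    (((hk' u hu).mono (le_max_of_le_right (le_max_right _ _))).vadd σ)).mono hr⟩

theorem phase_one
    (l1 : ∀ q' ≤ q, ∀ j', j ≤ j' → ∀ (K : Type) (F : K → Nm), (∀ k, HS (F k)) →
      Cov (Fix j') q' Y F → lam ≤ #K) {K : Type} {F : K → Nm} (hF : ∀ k, HS (F k))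
    (hl : K → 0 < lam) (hK : #K ≤ max lam ℵ₀) :
    ∃ r ≤ q, Out j (fun i t => Sys j Y t ∧ t.x = F i) r (max lam ℵ₀) := by
  by_cases h : lam ≤ ℵ₀
  · rw [max_eq_right h] at hK ⊢
    have := mk_le_aleph0_iff.1 hK
    refine out_ctble (fun _ _ h => h.1.1) fun q' hq' L hL hG i => ?_
    obtain ⟨t, h₁, h₂, h₃⟩ := supply_fin l1 (hl i) hq' (hL.image Tr.y) (by
      rintro _ ⟨t, ht, rfl⟩
      obtain ⟨i, hi⟩ := hG t ht
      exact hi.1.1) (hF i)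
    exact ⟨t, h₁, h₂, fun t' ht' => h₃ _ ⟨t', ht', rfl⟩⟩
  · have h' := not_le.1 h
    rw [max_eq_left h'.le] at hK ⊢
    refine ⟨q, le_rfl, out_unc h' hK (fun _ _ h => h.1.1) fun q' hq' K' U hK' hU i => ?_⟩
    obtain ⟨k, hk⟩ := (hF i).fix
    obtain ⟨q'', h₀, τ, h₁, h₂, h₃, h₄⟩ := not_cov (Low := Fix (max j k)) (q := q') (X := Y)
      (F := fun x : Gam × K' => x.1 +ᵥ U x.2) fun h => absurd (mk_gam_prod h' hK')
        (not_lt.2 (l1 q' hq' _ (le_max_left _ _) _ _ (fun x => (hU _).vadd _) h))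
    obtain ⟨r, hr, H⟩ := supply_core (j := j) (hF i) hk (le_max_right _ _) h₁ h₂ h₃
    exact ⟨_, hr.trans h₀, ⟨H, rfl⟩, fun k σ _ => (h₄ (σ, k)).mono hr⟩

theorem match_main {K₁ K₂ : Type} {F₁ : K₁ → Nm} {F₂ : K₂ → Nm} (hF₁ : ∀ k, HS (F₁ k))
    (hF₂ : ∀ k, HS (F₂ k)) (hK₁ : #K₁ ≤ lam) (hK₂ : #K₂ ≤ mu) (c1 : Cov (Fix j) q X F₁)
    (c2 : Cov (fun _ => False) q X F₂)
    (c3 : IsEmpty K₁ → Cov (Fix j) q Y (Empty.elim : Empty → Nm))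
    (l1 : ∀ q' ≤ q, ∀ j', j ≤ j' → ∀ (K : Type) (F : K → Nm), (∀ k, HS (F k)) →
      Cov (Fix j') q' Y F → lam ≤ #K)
    (l2 : ∀ q' ≤ q, ∀ (K : Type) (F : K → Nm), (∀ k, HS (F k)) →
      Cov (fun _ => False) q' Y F → mu ≤ #K) :
    ∃ r ≤ q, ∃ S : Set Tr, Small.{0} S ∧ (∀ t ∈ S, Sys j Y t) ∧ S.Pairwise (Sep j) ∧
      ∀ q' ≤ r, ∀ τ, HS τ → FMem τ X q' → ∃ t ∈ S, ∃ s ≤ q', s ≤ t.r ∧ FEq τ t.x s := by
  classical
  have hpos : K₁ → 0 < lam := fun k => (pos_iff_ne_zero.2 (mk_ne_zero_iff.2 ⟨k⟩)).trans_le hK₁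
  by_cases hA : 0 < lam ∧ mu ≤ max lam ℵ₀
  · obtain ⟨r, hr, S, h₁, h₂, h₃, h₄, -⟩ := phase_one l1 hF₂ (fun _ => hA.1) (hK₂.trans hA.2)
    refine ⟨r, hr, S, h₁, fun t ht => (h₂ t ht).choose_spec.1, h₃, fun q' hq' τ hτ hm => ?_⟩
    obtain ⟨s, hs, ⟨_, _, h, _⟩ | ⟨i, e⟩⟩ := c2 q' (hq'.trans hr) τ hτ hm
    · exact h.elim
    obtain ⟨t, ht, ⟨-, e'⟩, s', a, b⟩ := h₄ i s (hs.trans hq')
    exact ⟨t, ht, s', a.trans hs, b, e' ▸ e.mono a⟩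
  have hit : ∀ {r : Q} {S : Set Tr} {Good : K₂ → Tr → Prop}, r ≤ q →
      (∀ i t, Good i t → Hit j (F₂ i) t) →
      (∀ i, ∀ q' ≤ r, ∃ t ∈ S, Good i t ∧ ∃ s ≤ q', s ≤ t.r) →
      ∀ q' ≤ r, ∀ τ z, HS τ → FMem τ X q' → HS z → Fix j z → FEq τ z q' →
      ∃ t ∈ S, ∃ s ≤ q', s ≤ t.r ∧ FEq τ t.x s := by
    intro r S Good hr hG h₄ q' hq' τ z hτ hm z₁ z₂ z₃
    obtain ⟨s, hs, ⟨_, _, h, _⟩ | ⟨i, e⟩⟩ := c2 q' (hq'.trans hr) τ hτ hm
    · exact h.elim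
    obtain ⟨t, ht, hg, s', a, b⟩ := h₄ i s (hs.trans hq')
    rcases hG i t hg with h | h
    · exact ⟨t, ht, s', a.trans hs, b, feq_trans (e.mono a) (h.mono b)⟩
    · exact absurd (feq_trans (e.mono a).symm (z₃.mono (a.trans hs))) (h s' b z z₁ z₂)
  by_cases hB : ℵ₀ < mu
  · have hlm : max lam ℵ₀ < mu := by
      by_contra h
      rcases eq_zero_or_pos lam with h' | h'
      · rw [h', max_eq_right zero_le] at h
        exact h hB
      · exact hA ⟨h', not_lt.1 h⟩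
    obtain ⟨r, hr, S, h₁, h₂, h₃, h₄, K, U, hK, hU, hc⟩ :=
      phase_one l1 hF₁ hpos (hK₁.trans (le_max_left _ _))
    obtain ⟨S', g₁, g₂, g₃, g₄, -⟩ := out_unc (j := j) (q := r)
      (Good := fun i t => Sys j Y t ∧ (∀ k, Fresh j (U k) t) ∧ Hit j (F₂ i) t) hB hK₂
      (fun _ _ h => h.1.1) fun q' hq' K' U' hK' hU' i => by
        obtain ⟨q'', h₀, τ, a₁, a₂, -, a₄⟩ := not_cov (Low := fun _ => False) (q := q') (X := Y)
          (F := fun x : Gam × (K ⊕ K') => x.1 +ᵥ Sum.elim U U' x.2) fun h =>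
          absurd (mk_gam_prod hB (by
            rw [mk_sum, lift_id, lift_id]
            exact add_lt_of_lt hB.le (hK.trans_lt hlm) hK'))
          (not_lt.2 (l2 q' (hq'.trans hr) _ _ (by
            rintro ⟨σ, k | k⟩
            exacts [(hU k).vadd σ, (hU' k).vadd σ]) h))
        obtain ⟨s, hs, x, x₁, x₂, x₃⟩ := exists_hit j (F₂ i) τ q''
        exact ⟨⟨s, τ, x⟩, hs.trans h₀, ⟨⟨a₁, x₁, a₂.mono hs, fun σ hσ _ => Or.inr (x₂ σ hσ)⟩,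
          fun k σ _ => (a₄ (σ, .inl k)).mono hs, x₃⟩, fun k σ _ => (a₄ (σ, .inr k)).mono hs⟩
    have hsep : ∀ t ∈ S, ∀ t' ∈ S', Sep j t t' := fun t ht t' ht' => by
      obtain ⟨k, hk⟩ := hc t ht
      exact ((g₂ t' ht').choose_spec.2.1 k).sep hk
    refine ⟨r, hr, S ∪ S', inferInstance, ?_, ?_, fun q' hq' τ hτ hm => ?_⟩
    · rintro t (ht | ht)
      exacts [(h₂ t ht).choose_spec.1, (g₂ t ht).choose_spec.1]
    · rintro t (ht | ht) t' (ht' | ht') hne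
      exacts [h₃ ht ht' hne, hsep t ht t' ht', (hsep t' ht' t ht).symm, g₃ ht ht' hne]
    · obtain ⟨s, hs, ⟨z, z₁, z₂, z₃⟩ | ⟨i, e⟩⟩ := c1 q' (hq'.trans hr) τ hτ hm
      · obtain ⟨t, ht, s', a, b⟩ := hit hr (fun _ _ h => h.2.2) g₄ s (hs.trans hq') τ z hτ
          (hm.mono hs) z₁ z₂ z₃
        exact ⟨t, Or.inr ht, s', a.trans hs, b⟩
      · obtain ⟨t, ht, ⟨-, e'⟩, s', a, b⟩ := h₄ i s (hs.trans hq')
        exact ⟨t, Or.inl ht, s', a.trans hs, b, e' ▸ e.mono a⟩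
  have hB' := not_lt.1 hB
  have hE : IsEmpty K₁ := ⟨fun k => hA ⟨hpos k, hB'.trans (le_max_right _ _)⟩⟩
  have sup : ∀ q' ≤ q, ∀ L : Set Tr, L.Finite → (L.ncard : Cardinal.{0}) < mu →
      (∀ t ∈ L, ∃ i, Sys j Y t ∧ Fix j t.y ∧ Hit j (F₂ i) t) → ∀ i, ∃ t : Tr, t.r ≤ q' ∧
      (Sys j Y t ∧ Fix j t.y ∧ Hit j (F₂ i) t) ∧ ∀ t' ∈ L, Fresh j t'.y t := by
    intro q' hq' L hL hc hG i
    let e := hL.toFinset.equivFin
    have he : ∀ k, (e.symm k).1 ∈ L := fun k => hL.mem_toFinset.1 (e.symm k).2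
    obtain ⟨q'', h₀, τ, a₁, a₂, -, a₄⟩ := not_cov (Low := fun _ => False) (q := q') (X := Y)
      (F := fun k => (e.symm k).1.y) fun h => absurd hc (not_lt.2 (by
        have := l2 q' hq' _ _ (fun k => (hG _ (he k)).choose_spec.1.1) h
        rwa [mk_fin, ← Set.ncard_eq_toFinset_card _ hL] at this))
    obtain ⟨s₀, hs₀, ⟨z, z₁, z₂, z₃⟩ | ⟨k, -⟩⟩ := c3 hE q'' (h₀.trans hq') τ a₁ a₂
    swap
    · exact k.elim
    obtain ⟨s, hs, x, x₁, x₂, x₃⟩ := exists_hit j (F₂ i) z s₀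
    refine ⟨⟨s, z, x⟩, hs.trans (hs₀.trans h₀), ⟨⟨z₁, x₁,
      (fmem_left z₃.symm (a₂.mono hs₀)).mono hs, fun σ hσ _ => Or.inr (x₂ σ hσ)⟩, z₂, x₃⟩,
      fun t' ht' σ hσ s' hs' e' => ?_⟩
    have := a₄ (e ⟨t', hL.mem_toFinset.2 ht'⟩) s' (hs'.trans (hs.trans hs₀))
    simp only [Equiv.symm_apply_apply] at this
    exact this (feq_trans (z₃.mono (hs'.trans hs)) (feq_trans e'
      (((hG t' ht').choose_spec.2.1 σ hσ).mono le_top)))
  obtain ⟨r, hr, S, h₁, h₂, h₃, h₄, -⟩ : ∃ r ≤ q,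
      Out j (fun i t => Sys j Y t ∧ Fix j t.y ∧ Hit j (F₂ i) t) r ℵ₀ := by
    rcases hB'.lt_or_eq with h | h
    · have : Finite K₂ := lt_aleph0_iff_finite.1 (hK₂.trans_lt h)
      have := Fintype.ofFinite K₂
      refine out_fin (fun _ _ h => h.1.1) fun q' hq' L hL hc => sup q' hq' L hL ?_
      rw [mk_fintype] at hK₂
      exact (Nat.cast_lt.2 hc).trans_le hK₂
    · have := mk_le_aleph0_iff.1 (hK₂.trans hB')
      exact out_ctble (fun _ _ h => h.1.1) fun q' hq' L hL =>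
        sup q' hq' L hL (h ▸ natCast_lt_aleph0)
  refine ⟨r, hr, S, h₁, fun t ht => (h₂ t ht).choose_spec.1, h₃, fun q' hq' τ hτ hm => ?_⟩
  obtain ⟨s, hs, ⟨z, z₁, z₂, z₃⟩ | ⟨i, -⟩⟩ := c1 q' (hq'.trans hr) τ hτ hm
  · obtain ⟨t, ht, s', a, b⟩ := hit hr (fun _ _ h => h.2.2) h₄ s (hs.trans hq') τ z hτ
      (hm.mono hs) z₁ z₂ z₃
    exact ⟨t, ht, s', a.trans hs, b⟩
  · exact hE.elim i

end Main

end Pool.Agent.MP_a078ad_lc

end

section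

namespace Pool.Agent.MP_a078ad_lc

open Pool.Agent.MP_c6cf52_lc Pool.Agent.MP_c6cf52_lc.Name

namespace Gn

variable {g : Gn}

theorem trans {z : ZFSet.{0}} {a : g.M} (h : z ∈ a.1) : ∃ y : g.M, y.1 = z := by
  obtain ⟨τ, hτ, rfl⟩ := exists_v a
  rw [v_val hτ, g.mem_val] at h
  obtain ⟨i, -, hi, rfl⟩ := h
  exact ⟨g.v (τ.A i), v_val hi⟩

theorem ext {a b : g.M} (h : ∀ x, g.E x a ↔ g.E x b) : a = b := by
  refine Subtype.ext (ZFSet.ext fun z => ⟨fun hz => ?_, fun hz => ?_⟩)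
  · obtain ⟨y, rfl⟩ := trans hz
    exact (h y).1 hz
  · obtain ⟨y, rfl⟩ := trans hz
    exact (h y).2 hz

theorem E_wf : WellFounded g.E := InvImage.wf Subtype.val ZFSet.mem_wf

theorem E_irrefl (a : g.M) : ¬ g.E a a := ZFSet.mem_irrefl _

theorem found (a : g.M) (h : ∃ x, g.E x a) : ∃ x, g.E x a ∧ ¬ ∃ y, g.E y x ∧ g.E y a := by
  obtain ⟨x, hx, hmin⟩ := E_wf.has_min {x | g.E x a} h
  exact ⟨x, hx, fun ⟨y, h₁, h₂⟩ => hmin y h₂ h₁⟩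

theorem E_fam {ι : Type} {A : ι → Nm} (h : fam A ∈ g.N) {x : g.M} :
    g.E x (g.v (fam A)) ↔ ∃ i, A i ∈ g.N ∧ g.v (A i) = x := by
  rw [E_v h]
  exact exists_congr fun i => and_iff_right g.top

theorem E_orb {ι : Type} {A : ι → Nm} (h : orb A ∈ g.N) (i : ι) (hi : A i ∈ g.N) :
    g.E (g.v (A i)) (g.v (orb A)) :=
  (E_fam h).2 ⟨(0, i), by simpa only [zero_vadd] using hi, by simp only [zero_vadd]⟩

theorem not_E_emp (x : g.M) : ¬ g.E x (g.v emp) := by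
  rw [E_v g.emp_mem]
  rintro ⟨i, -⟩
  exact i.elim

theorem E_upair {σ τ : Nm} (hσ : σ ∈ g.N) (hτ : τ ∈ g.N) {x : g.M} :
    g.E x (g.v (upair σ τ)) ↔ x = g.v σ ∨ x = g.v τ := by
  unfold upair
  rw [E_fam (upair_mem hσ hτ)]
  constructor
  · rintro ⟨⟨_ | _⟩, -, rfl⟩
    exacts [Or.inr rfl, Or.inl rfl]
  · rintro (rfl | rfl)
    exacts [⟨⟨true⟩, hσ, rfl⟩, ⟨⟨false⟩, hτ, rfl⟩]

theorem exists_upair (a b : g.M) : ∃ c, ∀ x, g.E x c ↔ x = a ∨ x = b := by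
  obtain ⟨σ, hσ, rfl⟩ := exists_v a
  obtain ⟨τ, hτ, rfl⟩ := exists_v b
  exact ⟨_, fun x => E_upair hσ hτ⟩

theorem sep_fml (φ : Fml) (l : List g.M) (a : g.M) :
    ∃ b, ∀ x, g.E x b ↔ g.E x a ∧ Sat g.E φ (cons x (env (g.v emp) l)) := by
  obtain ⟨l, hl, e⟩ := exists_vl l
  obtain ⟨τ, hτ, rfl⟩ := exists_v a
  rw [← e]
  refine ⟨g.v (sepS τ φ l), fun x => ?_⟩
  rw [E_v (sepS_mem hτ φ hl), E_v hτ]
  constructor
  · rintro ⟨⟨⟨i, q⟩, h₁, h₂⟩, hq, hi, rfl⟩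
    refine ⟨⟨i, g.up hq h₁, hi, rfl⟩, ?_⟩
    have := (truth φ (lcons hi hl)).2 ⟨q, hq, h₂⟩
    rwa [w_cons] at this
  · rintro ⟨⟨i, hB, hi, rfl⟩, h⟩
    rw [← w_cons, truth φ (lcons hi hl)] at h
    obtain ⟨p, hp, f⟩ := h
    obtain ⟨q, hq, h₁, h₂⟩ := g.dir hp hB
    exact ⟨⟨(i, q), h₂, f.mono h₁⟩, hq, hi, rfl⟩

theorem sep_udef {Ψ : ∀ (M : Type 1), (M → M → Prop) → (ℕ → M) → Prop} (h : UDef Ψ)
    (l : List g.M) (a : g.M) :
    ∃ b, ∀ x, g.E x b ↔ g.E x a ∧ Ψ g.M g.E (cons x (env (g.v emp) l)) := by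
  obtain ⟨φ, h⟩ := h
  simpa only [h] using sep_fml φ l a

theorem weak_union (a : g.M) : ∃ c, ∀ x y, g.E x y → g.E y a → g.E x c := by
  obtain ⟨τ, hτ, rfl⟩ := exists_v a
  refine ⟨g.v (unionS τ), fun x y hx hy => ?_⟩
  obtain ⟨i, -, hi, rfl⟩ := (E_v hτ).1 hy
  obtain ⟨j, -, hj, rfl⟩ := (E_v hi).1 hx
  exact E_orb (unionS_mem hτ) ⟨i, j⟩ hj

theorem exists_union (a : g.M) : ∃ c, ∀ x, g.E x c ↔ ∃ y, g.E x y ∧ g.E y a := by
  obtain ⟨c, hc⟩ := weak_union a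
  have hU : UDef.{1} (fun _ E w => ∃ y, E (w 0) y ∧ E y (w 1)) :=
    UDef.ex ((UDef.mem _ _).and (UDef.mem _ _))
  obtain ⟨b, hb⟩ := sep_udef hU [a] c
  refine ⟨b, fun x => (hb x).trans ⟨fun h => h.2, fun ⟨y, h₁, h₂⟩ => ⟨hc x y h₁ h₂, y, h₁, h₂⟩⟩⟩

theorem weak_power (a : g.M) : ∃ c, ∀ x, (∀ y, g.E y x → g.E y a) → g.E x c := by
  obtain ⟨τ, hτ, rfl⟩ := exists_v a
  refine ⟨g.v (powS τ), fun x hx => ?_⟩
  obtain ⟨σ, hσ, rfl⟩ := exists_v x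
  have hm := sepS_mem hτ (.mem 0 1) (l1 hσ)
  have e : g.v σ = g.v (sepS τ (.mem 0 1) [σ]) := by
    refine ext fun y => ?_
    rw [E_v hm]
    constructor
    · intro hy
      obtain ⟨i, hB, hi, rfl⟩ := (E_v hτ).1 (hx y hy)
      obtain ⟨q, hq, h⟩ := (v_mem_iff hi hσ).1 hy
      obtain ⟨r, hr, h₁, h₂⟩ := g.dir hq hB
      exact ⟨⟨(i, r), h₂, h.mono h₁⟩, hr, hi, rfl⟩
    · rintro ⟨⟨⟨i, q⟩, h₀, h⟩, hq, hi, rfl⟩
      exact (v_mem_iff hi hσ).2 ⟨q, hq, h⟩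
  rw [e]
  exact E_orb (A := fun S : {S : Set (τ.I × Q) // HS (subN τ S)} => subN τ S.1) (powS_mem hτ)
    ⟨_, g.hs hm⟩ hm

theorem exists_power (a : g.M) : ∃ c, ∀ x, g.E x c ↔ ∀ y, g.E y x → g.E y a := by
  obtain ⟨c, hc⟩ := weak_power a
  have hU : UDef.{1} (fun _ E w => ∀ y, E y (w 0) → E y (w 1)) :=
    UDef.all ((UDef.mem _ _).imp (UDef.mem _ _))
  obtain ⟨b, hb⟩ := sep_udef hU [a] c
  exact ⟨b, fun x => (hb x).trans ⟨fun h => h.2, fun h => ⟨hc x h, h⟩⟩⟩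

theorem collection (φ : Fml) (l : List g.M) (a : g.M) :
    ∃ c, ∀ x, g.E x a → (∃ y, Sat g.E φ (cons y (cons x (env (g.v emp) l)))) →
      ∃ y, g.E y c ∧ Sat g.E φ (cons y (cons x (env (g.v emp) l))) := by
  obtain ⟨l, hl, e⟩ := exists_vl l
  obtain ⟨τ, hτ, rfl⟩ := exists_v a
  rw [← e]
  refine ⟨g.v (collS τ φ l), fun x hx ⟨y, hy⟩ => ?_⟩
  obtain ⟨i, -, hi, rfl⟩ := (E_v hτ).1 hx
  obtain ⟨ρ, hρ, rfl⟩ := exists_v y
  rw [← w_cons, ← w_cons, truth φ (lcons hρ (lcons hi hl))] at hy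
  obtain ⟨p, hp, f⟩ := hy
  obtain ⟨q, hq, ⟨h₁, h₂⟩ | h⟩ := meets_wit φ (lcons hi hl)
  · refine ⟨_, E_orb (collS_mem hτ φ hl) (i, q) h₁, ?_⟩
    rw [← w_cons, ← w_cons, truth φ (lcons h₁ (lcons hi hl))]
    exact ⟨q, hq, h₂⟩
  · obtain ⟨r, -, h₁, h₂⟩ := g.dir hp hq
    exact absurd (f.mono h₁) (h r h₂ ρ (g.hs hρ))

/-! ### Ordered pairs -/

theorem val_upair {σ τ : Nm} (hσ : σ ∈ g.N) (hτ : τ ∈ g.N) :
    (g.v (upair σ τ)).1 = {(g.v σ).1, (g.v τ).1} := by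
  ext z
  rw [ZFSet.mem_pair]
  constructor
  · intro hz
    obtain ⟨y, rfl⟩ := trans hz
    rcases (E_upair hσ hτ).1 hz with rfl | rfl
    exacts [Or.inl rfl, Or.inr rfl]
  · rintro (rfl | rfl)
    exacts [(E_upair hσ hτ).2 (Or.inl rfl), (E_upair hσ hτ).2 (Or.inr rfl)]

theorem val_pairN {σ τ : Nm} (hσ : σ ∈ g.N) (hτ : τ ∈ g.N) :
    (g.v (pairN σ τ)).1 = ZFSet.pair (g.v σ).1 (g.v τ).1 := by
  unfold pairN ZFSet.pair
  rw [val_upair (upair_mem hσ hσ) (upair_mem hσ hτ), val_upair hσ hσ, val_upair hσ hτ]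
  simp

theorem pair_in (a b : g.M) : ∃ τ ∈ g.N, g.val τ = ZFSet.pair a.1 b.1 := by
  obtain ⟨σ, hσ, rfl⟩ := exists_v a
  obtain ⟨τ, hτ, rfl⟩ := exists_v b
  have h := pairN_mem_iff.2 ⟨hσ, hτ⟩
  exact ⟨_, h, (v_val h).symm.trans (val_pairN hσ hτ)⟩

/-- The ordered pair in the model. -/
noncomputable def pr (a b : g.M) : g.M := ⟨ZFSet.pair a.1 b.1, pair_in a b⟩

theorem pr_inj {a b c d : g.M} : pr a b = pr c d ↔ a = c ∧ b = d := by
  constructor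
  · intro h
    have := ZFSet.pair_inj.1 (congrArg Subtype.val h)
    exact ⟨Subtype.ext this.1, Subtype.ext this.2⟩
  · rintro ⟨rfl, rfl⟩; rfl

theorem v_pairN {σ τ : Nm} (hσ : σ ∈ g.N) (hτ : τ ∈ g.N) :
    g.v (pairN σ τ) = pr (g.v σ) (g.v τ) := Subtype.ext (val_pairN hσ hτ)

theorem eq_upair_iff {z a b : g.M} : (∀ x, g.E x z ↔ x = a ∨ x = b) ↔ z.1 = {a.1, b.1} := by
  constructor
  · intro h
    ext y
    rw [ZFSet.mem_pair]
    constructor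
    · intro hy
      obtain ⟨y, rfl⟩ := trans hy
      rcases (h y).1 hy with rfl | rfl
      exacts [Or.inl rfl, Or.inr rfl]
    · rintro (rfl | rfl)
      exacts [(h a).2 (Or.inl rfl), (h b).2 (Or.inr rfl)]
  · intro h x
    unfold E
    rw [h, ZFSet.mem_pair]
    exact or_congr Subtype.ext_iff.symm Subtype.ext_iff.symm

theorem eq_single_iff {z a : g.M} : (∀ x, g.E x z ↔ x = a) ↔ z.1 = {a.1} := by
  have := @eq_upair_iff _ z a a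
  simpa using this

theorem isPair_pr (a b : g.M) : IsPair g.E (pr a b) a b := by
  intro z
  rw [eq_upair_iff, eq_single_iff]
  exact ZFSet.mem_pair

theorem isPair_iff {p a b : g.M} : IsPair g.E p a b ↔ p = pr a b :=
  ⟨fun h => ext fun x => (h x).trans (isPair_pr a b x).symm, fun h => h ▸ isPair_pr a b⟩

theorem app_iff {f a b : g.M} : App g.E f a b ↔ g.E (pr a b) f := by
  simp only [App, isPair_iff]
  exact ⟨fun ⟨_, h, e⟩ => e ▸ h, fun h => ⟨_, h, rfl⟩⟩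

/-! ### Ordinals -/

section Ord

variable {X : Type} {r : X → X → Prop} (wf : WellFounded r)

theorem E_setN {s : Set X} (h : setN wf s ∈ g.N) {x : g.M} :
    g.E x (g.v (setN wf s)) ↔ ∃ y ∈ s, ordN wf y ∈ g.N ∧ g.v (ordN wf y) = x := by
  unfold setN at h ⊢
  rw [E_fam h]
  exact ⟨fun ⟨y, h₁, h₂⟩ => ⟨y.1, y.2, h₁, h₂⟩, fun ⟨y, h₀, h₁, h₂⟩ => ⟨⟨y, h₀⟩, h₁, h₂⟩⟩

theorem E_ordN {a : X} (h : ordN wf a ∈ g.N) {x : g.M} :
    g.E x (g.v (ordN wf a)) ↔ ∃ y, r y a ∧ ordN wf y ∈ g.N ∧ g.v (ordN wf y) = x := by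
  rw [ordN_eq] at h ⊢
  exact E_setN wf h

theorem setN_mem {s : Set X} (h : setN wf s ∈ g.N) (hs : s.Countable) {y : X} (hy : y ∈ s) :
    ordN wf y ∈ g.N := by
  have := hs.to_subtype
  exact fam_mem (A := fun y : s => ordN wf y.1) h ⟨y, hy⟩

theorem ordN_mem {a : X} (h : ordN wf a ∈ g.N) (hs : {y | r y a}.Countable) {y : X}
    (hy : r y a) : ordN wf y ∈ g.N := by
  rw [ordN_eq] at h
  exact setN_mem wf h hs hy

theorem ord_lt_of {a b : X} (ha : ordN wf a ∈ g.N) (hb : ordN wf b ∈ g.N) (h : r a b) :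
    g.E (g.v (ordN wf a)) (g.v (ordN wf b)) := (E_ordN wf hb).2 ⟨a, h, ha, rfl⟩

variable (tri : ∀ a b, r a b ∨ a = b ∨ r b a)
include tri

theorem ord_inj {a b : X} (ha : ordN wf a ∈ g.N) (hb : ordN wf b ∈ g.N)
    (h : g.v (ordN wf a) = g.v (ordN wf b)) : a = b := by
  rcases tri a b with h' | h' | h'
  · exact absurd (h ▸ ord_lt_of wf ha hb h') (E_irrefl _)
  · exact h'
  · exact absurd (h ▸ ord_lt_of wf hb ha h') (E_irrefl _)

theorem ord_lt_iff {a b : X} (ha : ordN wf a ∈ g.N) (hb : ordN wf b ∈ g.N) :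
    g.E (g.v (ordN wf a)) (g.v (ordN wf b)) ↔ r a b := by
  refine ⟨fun h => ?_, ord_lt_of wf ha hb⟩
  obtain ⟨y, h₁, h₂, e⟩ := (E_ordN wf hb).1 h
  exact ord_inj wf tri h₂ ha e ▸ h₁

theorem ord_mem_setN_iff {s : Set X} {a : X} (ha : ordN wf a ∈ g.N) (hs : setN wf s ∈ g.N) :
    g.E (g.v (ordN wf a)) (g.v (setN wf s)) ↔ a ∈ s := by
  refine ⟨fun h => ?_, fun h => (E_setN wf hs).2 ⟨a, h, ha, rfl⟩⟩
  obtain ⟨y, h₁, h₂, e⟩ := (E_setN wf hs).1 h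
  exact ord_inj wf tri h₂ ha e ▸ h₁

theorem isOrd_setN {s : Set X} (hs : setN wf s ∈ g.N) (low : ∀ a b, r a b → b ∈ s → a ∈ s) :
    IsOrd g.E (g.v (setN wf s)) := by
  constructor
  · intro x y hx hy
    obtain ⟨a, ha, haN, rfl⟩ := (E_setN wf hs).1 hx
    obtain ⟨b, hb, hbN, rfl⟩ := (E_ordN wf haN).1 hy
    exact (E_setN wf hs).2 ⟨b, low b a hb ha, hbN, rfl⟩
  · intro x y hx hy
    obtain ⟨a, -, haN, rfl⟩ := (E_setN wf hs).1 hx
    obtain ⟨b, -, hbN, rfl⟩ := (E_setN wf hs).1 hy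
    rcases tri a b with h | rfl | h
    exacts [Or.inl (ord_lt_of wf haN hbN h), Or.inr (Or.inl rfl),
      Or.inr (Or.inr (ord_lt_of wf hbN haN h))]

end Ord

theorem nat_mem (n : ULift.{0} ℕ) : (ordN natWf n : Nm) ∈ g.N :=
  setN_mem natWf g.omega_mem (Set.to_countable _) (Set.mem_univ n)

theorem natTri (a b : ULift.{0} ℕ) : a.down < b.down ∨ a = b ∨ b.down < a.down := by
  rcases lt_trichotomy a.down b.down with h | h | h
  exacts [Or.inl h, Or.inr (Or.inl (ULift.ext _ _ h)), Or.inr (Or.inr h)]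

theorem infinity : ∃ w, (∃ e, g.E e w ∧ ∀ y, ¬ g.E y e) ∧
    ∀ x, g.E x w → ∃ s, g.E s w ∧ ∀ y, g.E y s ↔ g.E y x ∨ y = x := by
  refine ⟨g.v (setN natWf Set.univ), ⟨g.v (ordN natWf ⟨0⟩), ?_, fun y hy => ?_⟩, fun x hx => ?_⟩
  · exact (E_setN _ g.omega_mem).2 ⟨_, trivial, nat_mem _, rfl⟩
  · obtain ⟨z, hz, -⟩ := (E_ordN _ (nat_mem _)).1 hy
    exact Nat.not_lt_zero _ hz
  · obtain ⟨n, -, -, rfl⟩ := (E_setN _ g.omega_mem).1 hx
    refine ⟨g.v (ordN natWf ⟨n.down + 1⟩),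
      (E_setN _ g.omega_mem).2 ⟨_, trivial, nat_mem _, rfl⟩, fun y => ?_⟩
    rw [E_ordN _ (nat_mem _), E_ordN _ (nat_mem _)]
    constructor
    · rintro ⟨m, hm, -, rfl⟩
      rcases Nat.lt_succ_iff_lt_or_eq.1 hm with h | h
      · exact Or.inl ⟨m, h, nat_mem _, rfl⟩
      · exact Or.inr (by rw [ULift.ext m n h])
    · rintro (⟨m, hm, -, rfl⟩ | rfl)
      · exact ⟨m, Nat.lt_succ_of_lt hm, nat_mem _, rfl⟩
      · exact ⟨n, Nat.lt_succ_self _, nat_mem _, rfl⟩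

/-- The generic model satisfies ZF. -/
theorem isZF (g : Gn) : IsZF g.E where
  ext := fun _ _ => ext
  found := found
  pair := exists_upair
  union := exists_union
  power := exists_power
  inf := infinity
  sep := fun S hS a => by
    obtain ⟨φ, l, h⟩ := exists_fml_of_definable₁ g.E S hS
    simpa only [h] using sep_fml φ l a
  repl := fun R hR a ha => by
    obtain ⟨φ, l, h⟩ := exists_fml_of_definable₂ g.E R hR
    obtain ⟨c, hc⟩ := collection φ l a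
    have hU : UDef.{1} (fun _ E w => ∃ x, E x (w 1) ∧
        Sat E φ (cons (w 0) (cons x (fun k => w (k + 2))))) := by
      refine UDef.ex ((UDef.mem _ _).and ((UDef.sat φ (cons 1 (cons 0 (fun k => k + 3)))).congr
        fun M E w => ?_))
      have : (fun k => w (cons 1 (cons 0 fun k => k + 3) k)) =
          cons (w 1) (cons (w 0) fun k => w (k + 3)) := by
        funext k
        rcases k with _ | _ | k <;> rfl
      rw [this]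
    obtain ⟨b, hb⟩ := sep_udef hU (a :: l) c
    have hb' : ∀ y, g.E y b ↔ g.E y c ∧ ∃ x, g.E x a ∧
        Sat g.E φ (cons y (cons x (env (g.v emp) l))) := hb
    simp only [h] at hb' hc
    refine ⟨b, fun y => (hb' y).trans ⟨fun h => h.2, fun ⟨x, h₁, h₂⟩ => ⟨?_, x, h₁, h₂⟩⟩⟩
    obtain ⟨y', h₃, h₄⟩ := hc x h₁ ⟨y, h₂⟩
    exact (ha x h₁).unique h₄ h₂ ▸ h₃

theorem fun_mem {f X Y a b : g.M} (h : IsFun g.E f X Y) (hab : App g.E f a b) :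
    g.E a X ∧ g.E b Y := by
  obtain ⟨a', b', ha, hb, e⟩ := h.1 _ (app_iff.1 hab)
  obtain ⟨rfl, rfl⟩ := pr_inj.1 (isPair_iff.1 e)
  exact ⟨ha, hb⟩

theorem fun_uniq {f X Y a b b' : g.M} (h : IsFun g.E f X Y) (hab : App g.E f a b)
    (hab' : App g.E f a b') : b = b' :=
  (h.2 a (fun_mem h hab).1).unique hab hab'

theorem fun_ex {f X Y a : g.M} (h : IsFun g.E f X Y) (ha : g.E a X) :
    ∃ b, g.E b Y ∧ App g.E f a b := by
  obtain ⟨b, hb, -⟩ := h.2 a ha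
  exact ⟨b, (fun_mem h hb).2, hb⟩

theorem l3 {a b c : Nm} (ha : a ∈ g.N) (hb : b ∈ g.N) (hc : c ∈ g.N) :
    ∀ x ∈ [a, b, c], x ∈ g.N := lcons ha (l2 hb hc)

theorem l4 {a b c d : Nm} (ha : a ∈ g.N) (hb : b ∈ g.N) (hc : c ∈ g.N) (hd : d ∈ g.N) :
    ∀ x ∈ [a, b, c, d], x ∈ g.N := lcons ha (l3 hb hc hd)

theorem transfer_app {a b c : Nm} (ha : a ∈ g.N) (hb : b ∈ g.N) (hc : c ∈ g.N)
    (h : App g.E (g.v a) (g.v b) (g.v c)) :
    ∃ p ∈ g.G, ∀ g' : Gn, p ∈ g'.G → a ∈ g'.N → b ∈ g'.N → c ∈ g'.N →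
      App g'.E (g'.v a) (g'.v b) (g'.v c) := by
  obtain ⟨p, hp, H⟩ := transfer (UDef.app 0 1 2) (l3 ha hb hc) h
  exact ⟨p, hp, fun g' hp' ha' hb' hc' => H g' hp' (l3 ha' hb' hc')⟩

end Gn

end Pool.Agent.MP_a078ad_lc

end

section

namespace Pool.Agent.MP_a078ad_lc

open Pool.Agent.MP_c6cf52_lc Pool.Agent.MP_c6cf52_lc.Name Pool.Agent.MP_e34318_lc Cardinal Gn

variable {g : Gn}

/-! ### Natural numbers -/

noncomputable def nN (n : ℕ) : Nm := ordN natWf ⟨n⟩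

theorem nN_mem (n : ℕ) : nN n ∈ g.N := nat_mem _

theorem hs_nN (n : ℕ) : HS (nN n) := (fix_ordN _ _).2

theorem fix_nN (k n : ℕ) : Fix k (nN n) := (fix_ordN _ _).1.mono (Nat.zero_le k)

theorem E_nN {n : ℕ} {x : g.M} : g.E x (g.v (nN n)) ↔ ∃ m < n, x = g.v (nN m) := by
  unfold nN
  rw [E_ordN _ (nat_mem _)]
  exact ⟨fun ⟨m, h, _, e⟩ => ⟨m.down, h, e.symm⟩, fun ⟨m, h, e⟩ => ⟨⟨m⟩, h, nat_mem _, e.symm⟩⟩

theorem nN_inj {m n : ℕ} (h : g.v (nN m) = g.v (nN n)) : m = n :=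
  congrArg ULift.down (ord_inj natWf natTri (nat_mem _) (nat_mem _) h)

theorem isSucc_nN (n : ℕ) : IsSucc g.E (g.v (nN n)) (g.v (nN (n + 1))) := by
  intro z
  rw [E_nN, E_nN]
  constructor
  · rintro ⟨m, hm, rfl⟩
    rcases Nat.lt_succ_iff_lt_or_eq.1 hm with h | rfl
    exacts [Or.inl ⟨m, h, rfl⟩, Or.inr rfl]
  · rintro (⟨m, hm, rfl⟩ | rfl)
    exacts [⟨m, Nat.lt_succ_of_lt hm, rfl⟩, ⟨n, Nat.lt_succ_self _, rfl⟩]

theorem nN_mem_omega {w : g.M} (hw : IsOmega g.E w) (n : ℕ) : g.E (g.v (nN n)) w := by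
  obtain ⟨⟨tr, tri⟩, ⟨hne, hlim⟩, -⟩ := hw
  induction n with
  | zero =>
    obtain ⟨x, hx, hmin⟩ := found w hne
    have : x = g.v (nN 0) := ext fun y => ⟨fun hy => absurd ⟨y, hy, tr x y hx hy⟩ hmin,
      fun hy => by simpa using E_nN.1 hy⟩
    exact this ▸ hx
  | succ n ih =>
    obtain ⟨y, ⟨hy, hny⟩, hmin⟩ := E_wf.has_min {y | g.E y w ∧ g.E (g.v (nN n)) y} (hlim _ ih)
    have : y = g.v (nN (n + 1)) := ext fun z => by
      rw [isSucc_nN n z]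
      constructor
      · intro hz
        rcases tri z _ (tr y z hy hz) ih with h | h | h
        exacts [Or.inl h, Or.inr h, absurd hz (hmin z ⟨tr y z hy hz, h⟩)]
      · rintro (hz | rfl)
        · rcases tri z y (tr _ z ih hz) hy with h | rfl | h
          · exact h
          · exact absurd hz (E_wf.asymmetric _ _ hny)
          · exact absurd h (E_wf.asymmetric₃ _ _ _ hz hny)
        · exact hny
    exact this ▸ hy

/-! ### Function application -/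

theorem E_sepS {τ : Nm} (hτ : τ ∈ g.N) (φ : Fml) {l : List Nm} (hl : ∀ x ∈ l, x ∈ g.N)
    {x : g.M} : g.E x (g.v (sepS τ φ l)) ↔ g.E x (g.v τ) ∧ Sat g.E φ (cons x (g.w l)) := by
  rw [E_v (sepS_mem hτ φ hl), E_v hτ]
  constructor
  · rintro ⟨⟨⟨i, q⟩, h₁, h₂⟩, hq, hi, rfl⟩
    refine ⟨⟨i, g.up hq h₁, hi, rfl⟩, ?_⟩
    have := (truth φ (lcons hi hl)).2 ⟨q, hq, h₂⟩
    rwa [w_cons] at this
  · rintro ⟨⟨i, hB, hi, rfl⟩, h⟩
    rw [← w_cons, truth φ (lcons hi hl)] at h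
    obtain ⟨p, hp, f⟩ := h
    obtain ⟨q, hq, h₁, h₂⟩ := g.dir hp hB
    exact ⟨⟨(i, q), h₂, f.mono h₁⟩, hq, hi, rfl⟩

theorem udef_ap : UDef.{1} (fun _ E w => ∃ y, App E (w 1) (w 2) y ∧ E (w 0) y) :=
  UDef.ex ((UDef.app _ _ _).and (UDef.mem _ _))

/-- The name of the value of `f` at `x`. -/
noncomputable def apN (f U x : Nm) : Nm := sepS (unionS U) udef_ap.choose [f, x]

theorem hs_apN {f U x : Nm} (hf : HS f) (hU : HS U) (hx : HS x) : HS (apN f U x) :=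
  hs_sepS (hs_unionS hU) _ (by simp [hf, hx])

theorem fix_apN {k : ℕ} {f x : Nm} (U : Nm) (hf : Fix k f) (hx : Fix k x) : Fix k (apN f U x) :=
  fix_sepS ((fix_orb _).mono (Nat.zero_le k)) _ (by simp [hf, hx])

theorem apN_mem {f U x : Nm} (hf : f ∈ g.N) (hU : U ∈ g.N) (hx : x ∈ g.N) : apN f U x ∈ g.N :=
  sepS_mem (unionS_mem hU) _ (l2 hf hx)

theorem v_apN {f U x : Nm} (hf : f ∈ g.N) (hU : U ∈ g.N) (hx : x ∈ g.N) {D y : g.M}
    (h : IsFun g.E (g.v f) D (g.v U)) (hy : App g.E (g.v f) (g.v x) y) : g.v (apN f U x) = y := by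
  refine ext fun z => ?_
  unfold apN
  rw [E_sepS (unionS_mem hU) _ (l2 hf hx), udef_ap.choose_spec]
  constructor
  · rintro ⟨-, y', h₁, h₂⟩
    exact fun_uniq h h₁ hy ▸ h₂
  · intro hz
    refine ⟨?_, y, hy, hz⟩
    obtain ⟨i, -, hi, rfl⟩ := (E_v hU).1 (fun_mem h hy).2
    obtain ⟨j, -, hj, rfl⟩ := (E_v hi).1 hz
    exact E_orb (unionS_mem hU) ⟨i, j⟩ hj

theorem cov_map {Low : Nm → Prop} {f X Y : Nm} {C : Set Nm} (hC : C.Countable)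
    (hs : ∀ x ∈ C, HS x) (hf : f ∈ C) (hX : X ∈ C) (hY : Y ∈ C) {q : Q}
    (h : ∀ g : Gn, q ∈ g.G → C ⊆ g.N → IsSurj g.E (g.v f) (g.v X) (g.v Y))
    (hL : ∀ z, Low z → Low (apN f Y z)) {K : Type} {F : K → Nm} (hF : ∀ k, HS (F k))
    (c : Cov Low q X F) : Cov Low q Y fun k => apN f Y (F k) := by
  intro q' hq' τ hτ hm
  obtain ⟨g, hg, hN⟩ := exists_gn q' (insert τ C) (hC.insert τ) (by
    rintro x (rfl | hx)
    exacts [hτ, hs x hx])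
  have hτN : τ ∈ g.N := hN (Or.inl rfl)
  have hCN : C ⊆ g.N := fun x hx => hN (Or.inr hx)
  have H := h g (g.up hg hq') hCN
  obtain ⟨a, ha⟩ := H.2 _ ((v_mem_iff hτN (hCN hY)).2 ⟨q', hg, hm⟩)
  obtain ⟨υ, hυ, rfl⟩ := exists_v a
  obtain ⟨p₁, hp₁, H₁⟩ := transfer_app (hCN hf) hυ hτN ha
  obtain ⟨p₂, hp₂, H₂⟩ := (v_mem_iff hυ (hCN hX)).1 (fun_mem H.1 ha).1
  obtain ⟨p₃, hp₃, a₁, a₂⟩ := g.dir hp₁ hp₂
  obtain ⟨p₄, -, a₃, a₄⟩ := g.dir hp₃ hg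
  have key : ∀ s ≤ p₄, ∀ z, HS z → FEq υ z s → FEq τ (apN f Y z) s := by
    intro s hs' z hz e
    have hap := hs_apN (hs f hf) (hs Y hY) hz
    refine feq_of_sem (insert τ (insert υ (insert z (insert (apN f Y z) C))))
      ((((hC.insert _).insert _).insert _).insert _) ?_ (by simp) (by simp) fun g' hg' hN' => ?_
    · rintro x (rfl | rfl | rfl | rfl | hx)
      exacts [hτ, g.hs hυ, hz, hap, hs x hx]
    · have hC' : C ⊆ g'.N := fun x hx => hN' (by simp [hx])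
      have b₁ : τ ∈ g'.N := hN' (by simp)
      have b₂ : υ ∈ g'.N := hN' (by simp)
      have b₃ : z ∈ g'.N := hN' (by simp)
      have := H₁ g' (g'.up hg' (hs'.trans (a₃.trans a₁))) (hC' hf) b₂ b₁
      rw [(v_eq_iff b₂ b₃).2 ⟨s, hg', e⟩] at this
      exact (v_apN (hC' hf) (hC' hY) b₃
        (h g' (g'.up hg' (hs'.trans (a₄.trans hq'))) hC').1 this).symm
  obtain ⟨s, hs', ⟨z, z₁, z₂, z₃⟩ | ⟨k, e⟩⟩ := c p₄ (a₄.trans hq') υ (g.hs hυ)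
    (H₂.mono (a₃.trans a₂))
  · exact ⟨s, hs'.trans a₄, Or.inl ⟨_, hs_apN (hs f hf) (hs Y hY) z₁, hL z z₂,
      key s hs' z z₁ z₃⟩⟩
  · exact ⟨s, hs'.trans a₄, Or.inr ⟨k, key s hs' _ (hF k) e⟩⟩

/-! ### From a system of triples to a surjection -/

theorem leStar_of_rel {h X Y : g.M} (h₁ : ∀ a b b', App g.E h a b → App g.E h a b' → b = b')
    (h₂ : ∀ a b, App g.E h a b → g.E a Y) (h₃ : ∀ b, g.E b X → ∃ a, App g.E h a b) :
    LeStar g.E X Y := by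
  by_cases hX : ∀ x, ¬ g.E x X
  · exact Or.inl hX
  push Not at hX
  obtain ⟨x₀, hx₀⟩ := hX
  obtain ⟨u₀, hu₀⟩ := exists_upair X Y
  obtain ⟨u, hu⟩ := exists_union u₀
  obtain ⟨c₀, hc₀⟩ := exists_power u
  obtain ⟨c, hc⟩ := exists_power c₀
  have hpr : ∀ a b, g.E a Y → g.E b X → g.E (pr a b) c := by
    intro a b ha hb
    have ha' : g.E a u := (hu a).2 ⟨Y, ha, (hu₀ Y).2 (Or.inr rfl)⟩
    have hb' : g.E b u := (hu b).2 ⟨X, hb, (hu₀ X).2 (Or.inl rfl)⟩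
    refine (hc _).2 fun z hz => (hc₀ z).2 fun x hx => ?_
    rcases (isPair_pr a b z).1 hz with H | H
    · exact (H x).1 hx ▸ ha'
    · rcases (H x).1 hx with rfl | rfl
      exacts [ha', hb']
  have hU : UDef.{1} (fun _ E w => ∃ a b, E a (w 3) ∧ E b (w 2) ∧ IsPair E (w 0) a b ∧
      (App E (w 1) a b ∨ (b = w 4 ∧ ¬ ∃ b', E b' (w 2) ∧ App E (w 1) a b'))) := by
    repeat' first
      | exact UDef.mem _ _ | exact UDef.eq _ _ | exact UDef.app _ _ _ | exact UDef.isPair _ _ _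
      | apply UDef.and | apply UDef.or | apply UDef.not | apply UDef.ex
  obtain ⟨f, hf⟩ := sep_udef hU [h, X, Y, x₀] c
  have hf' : ∀ p, g.E p f ↔ g.E p c ∧ ∃ a b, g.E a Y ∧ g.E b X ∧ IsPair g.E p a b ∧
      (App g.E h a b ∨ (b = x₀ ∧ ¬ ∃ b', g.E b' X ∧ App g.E h a b')) := hf
  have happ : ∀ a b, App g.E f a b ↔ g.E a Y ∧ g.E b X ∧
      (App g.E h a b ∨ (b = x₀ ∧ ¬ ∃ b', g.E b' X ∧ App g.E h a b')) := by
    intro a b
    rw [app_iff, hf']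
    constructor
    · rintro ⟨-, a', b', k₁, k₂, k₃, k₄⟩
      obtain ⟨rfl, rfl⟩ := pr_inj.1 (isPair_iff.1 k₃)
      exact ⟨k₁, k₂, k₄⟩
    · rintro ⟨k₁, k₂, k₃⟩
      exact ⟨hpr a b k₁ k₂, a, b, k₁, k₂, isPair_pr a b, k₃⟩
  refine Or.inr ⟨f, ⟨fun p hp => ?_, fun a ha => ?_⟩, fun b hb => ?_⟩
  · obtain ⟨-, a, b, k₁, k₂, k₃, -⟩ := (hf' p).1 hp
    exact ⟨a, b, k₁, k₂, k₃⟩
  · by_cases H : ∃ b', g.E b' X ∧ App g.E h a b'
    · obtain ⟨b, k₁, k₂⟩ := H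
      refine ⟨b, (happ a b).2 ⟨ha, k₁, Or.inl k₂⟩, fun b' hb' => ?_⟩
      rcases ((happ a b').1 hb').2.2 with k | k
      exacts [h₁ a b' b k k₂, absurd ⟨b, k₁, k₂⟩ k.2]
    · refine ⟨x₀, (happ a x₀).2 ⟨ha, hx₀, Or.inr ⟨rfl, H⟩⟩, fun b' hb' => ?_⟩
      obtain ⟨-, k₁, k | k⟩ := (happ a b').1 hb'
      exacts [absurd ⟨b', k₁, k⟩ H, k.1]
  · obtain ⟨a, ha⟩ := h₃ b hb
    exact ⟨a, (happ a b).2 ⟨h₂ a b ha, hb, Or.inl ha⟩⟩

/-- The name of the union of the orbits of a family of triples. -/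
noncomputable def hN (j : ℕ) {J : Type} (t : J → Tr) : Nm :=
  .mk (J × {σ // InH j σ}) (fun x => pairN (x.2.1 +ᵥ (t x.1).y) (x.2.1 +ᵥ (t x.1).x))
    (fun x => x.2.1 +ᵥ (t x.1).r)

theorem hs_hN {j : ℕ} {J : Type} {t : J → Tr} (h₁ : ∀ a, HS (t a).y) (h₂ : ∀ a, HS (t a).x) :
    HS (hN j t) := by
  refine hs_mk (k := j) (fix_of fun σ hσ ⟨a, τ, hτ⟩ => ?_)
    fun x => hs_pairN ((h₁ _).vadd _) ((h₂ _).vadd _)
  have := fmem_child (hN j t) (a, ⟨σ + τ, hσ.add hτ⟩) le_rfl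
  simp only [hN, A_mk, B_mk, add_vadd] at this
  exact fmem_left (vadd_pairN σ _ _ _) this

theorem app_hN {j : ℕ} {J : Type} {t : J → Tr} (h : hN j t ∈ g.N) {a b : g.M} :
    App g.E (g.v (hN j t)) a b ↔ ∃ i σ, InH j σ ∧ σ +ᵥ (t i).r ∈ g.G ∧ σ +ᵥ (t i).y ∈ g.N ∧
      σ +ᵥ (t i).x ∈ g.N ∧ a = g.v (σ +ᵥ (t i).y) ∧ b = g.v (σ +ᵥ (t i).x) := by
  rw [app_iff, E_v h]
  constructor
  · rintro ⟨⟨i, σ, hσ⟩, h₁, h₂, h₃⟩
    obtain ⟨k₁, k₂⟩ := pairN_mem_iff.1 h₂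
    obtain ⟨rfl, rfl⟩ := pr_inj.1 ((v_pairN k₁ k₂).symm.trans h₃)
    exact ⟨i, σ, hσ, h₁, k₁, k₂, rfl, rfl⟩
  · rintro ⟨i, σ, hσ, h₁, k₁, k₂, rfl, rfl⟩
    exact ⟨(i, ⟨σ, hσ⟩), h₁, pairN_mem_iff.2 ⟨k₁, k₂⟩, v_pairN k₁ k₂⟩

theorem leStar_of_sys {X Y : Nm} {j : ℕ} (hY : Fix j Y) {r : Q} {S : Set Tr} (hS : Small.{0} S)
    (h₁ : ∀ t ∈ S, Sys j Y t) (h₂ : S.Pairwise (Sep j))
    (h₃ : ∀ q' ≤ r, ∀ τ, HS τ → FMem τ X q' → ∃ t ∈ S, ∃ s ≤ q', s ≤ t.r ∧ FEq τ t.x s) :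
    ∃ h, HS h ∧ ∀ g : Gn, r ∈ g.G → h ∈ g.N → X ∈ g.N → Y ∈ g.N →
      LeStar g.E (g.v X) (g.v Y) := by
  let tt : Shrink.{0} S → Tr := fun a => ((equivShrink S).symm a).1
  have htt : ∀ a, tt a ∈ S := fun a => ((equivShrink S).symm a).2
  refine ⟨hN j tt, hs_hN (fun a => (h₁ _ (htt a)).1) (fun a => (h₁ _ (htt a)).2.1),
    fun g hr hh hX hYN => leStar_of_rel (h := g.v (hN j tt)) (fun a b b' k k' => ?_)
      (fun a b k => ?_) fun b hb => ?_⟩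
  · obtain ⟨i, σ, hσ, a₁, a₂, a₃, rfl, rfl⟩ := (app_hN hh).1 k
    obtain ⟨i', σ', hσ', b₁, b₂, b₃, e, rfl⟩ := (app_hN hh).1 k'
    obtain ⟨p, hp, e'⟩ := (v_eq_iff a₂ b₂).1 e
    obtain ⟨s₀, hs₀, c₁, c₂⟩ := g.dir a₁ b₁
    obtain ⟨s, -, c₃, c₄⟩ := g.dir hp hs₀
    have d₁ : σ' +ᵥ s ≤ (σ' + σ) +ᵥ (tt i).r := by
      rw [add_vadd]; exact vadd_mono _ (c₄.trans c₁)
    have d₂ : σ' +ᵥ s ≤ (tt i').r := vadd_le_swap (c₄.trans c₂)
    have d₃ : FEq ((σ' + σ) +ᵥ (tt i).y) (tt i').y (σ' +ᵥ s) := by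
      simpa only [vadd_vadd_self, add_vadd] using feq_vadd σ' (e'.mono c₃)
    have d₄ : tt i = tt i' := by_contra fun hne =>
      h₂ (htt i) (htt i') hne _ (hσ'.add hσ) _ d₁ d₂ d₃
    rw [← d₄] at d₂ d₃ b₃ ⊢
    rcases (h₁ _ (htt i)).2.2.2 _ (hσ'.add hσ) (stab_of_compat d₂ d₁) with H | H
    · exact absurd d₃ (H _ d₂)
    · refine (v_eq_iff a₃ b₃).2 ⟨⊤, g.top, ?_⟩
      simpa only [vadd_vadd_self, add_vadd] using feq_vadd_top σ' H ⊤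
  · obtain ⟨i, σ, hσ, a₁, a₂, -, rfl, -⟩ := (app_hN hh).1 k
    exact (v_mem_iff a₂ hYN).2 ⟨_, a₁,
      fmem_right (fmem_vadd σ (h₁ _ (htt i)).2.2.1) ((hY σ hσ).mono le_top)⟩
  · obtain ⟨τ, hτ, rfl⟩ := exists_v b
    obtain ⟨p₀, hp₀, hm⟩ := (v_mem_iff hτ hX).1 hb
    refine dens (Ψ := fun _ E w => ∃ a, App E (w 0) a (w 1)) (UDef.ex (UDef.app _ _ _))
      (l2 hh hτ) fun p hp => ?_
    obtain ⟨p₁, hp₁, c₁, c₂⟩ := g.dir hp hp₀
    obtain ⟨p₂, -, c₃, c₄⟩ := g.dir hp₁ hr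
    obtain ⟨t, ht, s, hs, d₁, d₂⟩ := h₃ p₂ c₄ τ (g.hs hτ) (hm.mono (c₃.trans c₂))
    refine ⟨s, hs.trans (c₃.trans c₁), {t.y, t.x}, (Set.toFinite _).countable, ?_,
      fun g' hs' hC hl => ?_⟩
    · rintro x (rfl | rfl)
      exacts [(h₁ t ht).1, (h₁ t ht).2.1]
    · have e : tt (equivShrink S ⟨t, ht⟩) = t := by simp [tt]
      refine ⟨g'.v t.y, (app_hN (hl _ (by simp))).2 ⟨equivShrink S ⟨t, ht⟩, 0, InH.zero _, ?_⟩⟩
      simp only [zero_vadd, e]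
      exact ⟨g'.up hs' d₁, hC (by simp), hC (by simp), trivial,
        (v_eq_iff (hl τ (by simp)) (hC (by simp))).2 ⟨s, hs', d₂⟩⟩

/-! ### Well-foundedness -/

theorem exists_step {A f : ℕ → Nm} {m : ℕ} {p : Q} (hA : ∀ n, HS (A n)) (hf : ∀ n, HS (f n))
    (fA : ∀ n, Fix m (A n)) (ff : ∀ n, Fix m (f n)) {C : Set Nm} (hC : C.Countable)
    (hs : ∀ x ∈ C, HS x) (hAC : ∀ n, A n ∈ C) (hfC : ∀ n, f n ∈ C)
    (h : ∀ g : Gn, p ∈ g.G → C ⊆ g.N → ∀ n, IsSurj g.E (g.v (f n)) (g.v (A n)) (g.v (A (n + 1)))) :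
    ∃ r ≤ p, ∃ n h, HS h ∧ ∀ g : Gn, r ∈ g.G → h ∈ g.N → A n ∈ g.N → A (n + 1) ∈ g.N →
      LeStar g.E (g.v (A n)) (g.v (A (n + 1))) := by
  obtain ⟨lam, ⟨q₁, hq₁, n₁, j, hj, K₁, F₁, hF₁, c1, rfl⟩, l1⟩ := wellFounded_lt.has_min
    {c : Cardinal.{0} | ∃ q ≤ p, ∃ n j, m ≤ j ∧ ∃ (K : Type) (F : K → Nm), (∀ k, HS (F k)) ∧
      Cov (Fix j) q (A n) F ∧ #K = c}
    ⟨_, p, le_rfl, 0, m, le_rfl, _, _, (hA 0).child, cov_self _ _ _, rfl⟩
  obtain ⟨mu, ⟨q₂, hq₂, n₂, hn, K₂, F₂, hF₂, c2, rfl⟩, l2⟩ := wellFounded_lt.has_min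
    {c : Cardinal.{0} | ∃ q ≤ q₁, ∃ n, n₁ ≤ n ∧ ∃ (K : Type) (F : K → Nm), (∀ k, HS (F k)) ∧
      Cov (fun _ => False) q (A n) F ∧ #K = c}
    ⟨_, q₁, le_rfl, n₁, le_rfl, _, _, (hA n₁).child, cov_self _ _ _, rfl⟩
  have c1' : ∀ n, n₁ ≤ n → ∃ F : K₁ → Nm, (∀ k, HS (F k)) ∧ Cov (Fix j) q₁ (A n) F := by
    intro n hn
    induction n, hn using Nat.le_induction with
    | base => exact ⟨F₁, hF₁, c1⟩
    | succ n _ ih =>
      obtain ⟨F, h₁, h₂⟩ := ih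
      exact ⟨_, fun k => hs_apN (hf n) (hA _) (h₁ k), cov_map hC hs (hfC n) (hAC n) (hAC _)
        (fun g hg hN => h g (g.up hg hq₁) hN n)
        (fun z hz => fix_apN _ ((ff n).mono hj) hz) h₁ h₂⟩
  obtain ⟨F, hF, c⟩ := c1' n₂ hn
  obtain ⟨r, hr, S, h₁, h₂, h₃, h₄⟩ := match_main (Y := A (n₂ + 1)) hF hF₂ le_rfl le_rfl
    (c.mono hq₂ fun _ h => h) c2 (fun hE => by
      obtain ⟨F', -, c'⟩ := c1' (n₂ + 1) (Nat.le_succ_of_le hn)
      intro q' hq' τ hτ hm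
      obtain ⟨s, hs', h' | ⟨k, -⟩⟩ := c' q' (hq'.trans hq₂) τ hτ hm
      exacts [⟨s, hs', Or.inl h'⟩, hE.elim k])
    (fun q' hq' j' hj' K F a b => not_lt.1
      (l1 _ ⟨q', hq'.trans (hq₂.trans hq₁), _, j', hj.trans hj', K, F, a, b, rfl⟩))
    (fun q' hq' K F a b => not_lt.1
      (l2 _ ⟨q', hq'.trans hq₂, _, Nat.le_succ_of_le hn, K, F, a, b, rfl⟩))
  exact ⟨r, hr.trans (hq₂.trans hq₁), n₂, leStar_of_sys ((fA _).mono hj) h₁ h₂ h₃ h₄⟩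

theorem udef_isOmega (i : ℕ) : UDef.{1} (fun _ E w => IsOmega E (w i)) := by
  unfold IsOmega IsOrd IsLim
  repeat' first
    | exact UDef.mem _ _ | exact UDef.eq _ _ | apply UDef.and | apply UDef.or
    | apply UDef.not | apply UDef.imp | apply UDef.all | apply UDef.ex

theorem udef_isSucc (i j : ℕ) : UDef.{1} (fun _ E w => IsSucc E (w i) (w j)) := by
  unfold IsSucc
  repeat' first
    | exact UDef.mem _ _ | exact UDef.eq _ _ | apply UDef.or | apply UDef.iff | apply UDef.all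

theorem udef_isSurj (i j k : ℕ) : UDef.{1} (fun _ E w => IsSurj E (w i) (w j) (w k)) := by
  unfold IsSurj
  repeat' first
    | exact UDef.mem _ _ | exact UDef.isFun _ _ _ | exact UDef.app _ _ _ | apply UDef.and
    | apply UDef.imp | apply UDef.all | apply UDef.ex

theorem udef_leStar (i j : ℕ) : UDef.{1} (fun _ E w => LeStar E (w i) (w j)) := by
  unfold LeStar
  repeat' first
    | exact UDef.mem _ _ | exact udef_isSurj _ _ _ | apply UDef.or | apply UDef.not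
    | apply UDef.all | apply UDef.ex

theorem wfs4 (g : Gn) : WFs4 g.E := by
  intro w A F U V h₁ h₂ h₃ h₄
  obtain ⟨w, hw, rfl⟩ := exists_v w
  obtain ⟨A, hA, rfl⟩ := exists_v A
  obtain ⟨F, hF, rfl⟩ := exists_v F
  obtain ⟨U, hU, rfl⟩ := exists_v U
  obtain ⟨V, hV, rfl⟩ := exists_v V
  have hl : ∀ x ∈ [w, A, F, U, V], x ∈ g.N := lcons hw (l4 hA hF hU hV)
  have u₁ : UDef.{1} (fun _ E w => IsOmega E (w 0) ∧ IsFun E (w 1) (w 0) (w 3) ∧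
      IsFun E (w 2) (w 0) (w 4) ∧ ∀ n s a b f, E n (w 0) → IsSucc E n s → App E (w 1) n a →
        App E (w 1) s b → App E (w 2) n f → IsSurj E f a b) := by
    repeat' first
      | exact UDef.mem _ _ | exact udef_isOmega _ | exact UDef.isFun _ _ _
      | exact udef_isSucc _ _ | exact udef_isSurj _ _ _ | exact UDef.app _ _ _
      | apply UDef.and | apply UDef.imp | apply UDef.all
  have u₂ : UDef.{1} (fun _ E w => ∃ n s a b, E n (w 0) ∧ IsSucc E n s ∧ App E (w 1) n a ∧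
      App E (w 1) s b ∧ LeStar E a b) := by
    repeat' first
      | exact UDef.mem _ _ | exact udef_isSucc _ _ | exact udef_leStar _ _ | exact UDef.app _ _ _
      | apply UDef.and | apply UDef.ex
  obtain ⟨p₀, hp₀, H⟩ := transfer u₁ hl ⟨h₁, h₂, h₃, h₄⟩
  refine dens u₂ hl fun p hp => ?_
  obtain ⟨p₁, -, c₁, c₂⟩ := g.dir hp hp₀
  obtain ⟨m, hm⟩ := exists_fix_list fun x hx => g.hs (hl x hx)
  have hsA : ∀ n, HS (apN A U (nN n)) := fun n => hs_apN (g.hs hA) (g.hs hU) (hs_nN n)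
  have hsF : ∀ n, HS (apN F V (nN n)) := fun n => hs_apN (g.hs hF) (g.hs hV) (hs_nN n)
  have val : ∀ g' : Gn, p₁ ∈ g'.G → (∀ x ∈ [w, A, F, U, V], x ∈ g'.N) → ∀ n,
      g'.E (g'.v (nN n)) (g'.v w) ∧ App g'.E (g'.v A) (g'.v (nN n)) (g'.v (apN A U (nN n))) ∧
      App g'.E (g'.v F) (g'.v (nN n)) (g'.v (apN F V (nN n))) := by
    intro g' hg' hl' n
    obtain ⟨k₁, k₂, k₃, -⟩ := H g' (g'.up hg' c₂) hl'
    have hn := nN_mem_omega k₁ n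
    obtain ⟨a, -, ha⟩ := fun_ex k₂ hn
    obtain ⟨f, -, hf⟩ := fun_ex k₃ hn
    exact ⟨hn, (v_apN (hl' A (by simp)) (hl' U (by simp)) (nN_mem n) k₂ ha).symm ▸ ha,
      (v_apN (hl' F (by simp)) (hl' V (by simp)) (nN_mem n) k₃ hf).symm ▸ hf⟩
  obtain ⟨r, hr, n, h, hh, K⟩ := exists_step (p := p₁) hsA hsF
    (fun n => fix_apN _ (hm A (by simp)) (fix_nN m n))
    (fun n => fix_apN _ (hm F (by simp)) (fix_nN m n))
    (C := {x | x ∈ [w, A, F, U, V]} ∪ (Set.range (fun n => apN A U (nN n)) ∪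
      Set.range (fun n => apN F V (nN n))))
    ((List.finite_toSet _).countable.union ((Set.countable_range _).union (Set.countable_range _)))
    (by
      rintro x (hx | ⟨n, rfl⟩ | ⟨n, rfl⟩)
      exacts [g.hs (hl x hx), hsA n, hsF n])
    (fun n => Or.inr (Or.inl ⟨n, rfl⟩)) (fun n => Or.inr (Or.inr ⟨n, rfl⟩))
    (fun g' hg' hN n => by
      have hl' : ∀ x ∈ [w, A, F, U, V], x ∈ g'.N := fun x hx => hN (Or.inl hx)
      obtain ⟨k₁, k₂, k₃⟩ := val g' hg' hl' n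
      exact (H g' (g'.up hg' c₂) hl').2.2.2 _ _ _ _ _ k₁ (isSucc_nN n) k₂
        (val g' hg' hl' (n + 1)).2.1 k₃)
  refine ⟨r, hr.trans c₁, {h}, Set.countable_singleton _, by simpa using hh,
    fun g' hg' hC hl' => ?_⟩
  have hp₁ := g'.up hg' hr
  have hm' : ∀ n, apN A U (nN n) ∈ g'.N := fun n =>
    apN_mem (hl' A (by simp)) (hl' U (by simp)) (nN_mem n)
  exact ⟨_, _, _, _, (val g' hp₁ hl' n).1, isSucc_nN n, (val g' hp₁ hl' n).2.1,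
    (val g' hp₁ hl' (n + 1)).2.1, K g' hg' (hC rfl) (hm' _) (hm' _)⟩

/-! ### Failure of choice -/

/-- The generic real restricted to coordinates of type at most `k`. -/
noncomputable def xN (k : ℕ) : Nm :=
  .mk {x : I × Q // x.1.1 ≤ k ∧ x.2.p.Dec x.1 ∧ x.2.p.x x.1 = 1}
    (fun x => nN (Nat.pair x.1.1.1 x.1.1.2)) (fun x => x.1.2)

theorem hs_xN (k : ℕ) : HS (xN k) := by
  refine hs_mk (k := k + 1) (fix_of fun σ hσ ⟨⟨i, r⟩, h₁, h₂, h₃⟩ => ?_) fun x => hs_nN _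
  have h₀ : σ i = 0 := by_contra fun h => by have := hσ i h; simp only at h₁; omega
  exact fmem_left ((fix_nN 0 _ σ (inH_zero σ)).mono le_top)
    (fmem_child (xN k) ⟨(i, σ +ᵥ r), h₁, h₂, by simpa [vadd_p, P.shift, h₀] using h₃⟩ le_rfl)

theorem feq_nN {m n : ℕ} {s : Q} (h : FEq (nN m) (nN n) s) : m = n := by
  obtain ⟨g, hg, -⟩ := exists_gn s ∅ Set.countable_empty (by simp)
  exact nN_inj ((v_eq_iff (nN_mem m) (nN_mem n)).2 ⟨s, hg, h⟩)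

theorem xN_moved {k : ℕ} {ρ : Gam} (hρ : ¬ InH (k + 1) ρ) (s : Q) : ¬ FEq (ρ +ᵥ xN k) (xN k) s := by
  unfold InH at hρ
  push Not at hρ
  obtain ⟨i, hi, hk⟩ := hρ
  have key : ∀ s : Q, s.p.Dec i → s.p.x i = 1 → ¬ FEq (ρ +ᵥ xN k) (xN k) s := by
    intro s h₁ h₂ e
    have := fmem_right (fmem_child (xN k) ⟨(i, s), Nat.lt_succ_iff.1 hk, h₁, h₂⟩ le_rfl) e.symm
    rw [vadd_eq] at this
    obtain ⟨s', hs', ⟨⟨i', r⟩, a₁, a₂, a₃⟩, b₁, b₂⟩ := this s le_rfl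
    have := feq_nN (feq_trans b₂ ((fix_nN 0 _ ρ (inH_zero ρ)).mono le_top))
    rw [Nat.pair_eq_pair] at this
    obtain rfl : i = i' := Prod.ext this.1 this.2
    have c₁ := h₁.x_eq hs'.2
    have c₂ := P.Dec.x_eq (p := (ρ +ᵥ r).p) a₂ b₁.2
    simp only [vadd_p, P.shift, Pi.add_apply] at c₂ a₃
    rw [c₁, h₂, a₃] at c₂
    exact hi (by linear_combination -c₂)
  intro e
  obtain ⟨s', hs', hd⟩ := exists_dec s {i}
  have hd' := hd i (Finset.mem_singleton_self i)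
  by_cases h : s'.p.x i = 0
  · refine key (ρ +ᵥ s') hd' ?_ ?_
    · simp only [vadd_p, P.shift, Pi.add_apply, h, zero_add]
      exact two_eq hi one_ne_zero
    · simpa only [vadd_vadd_self] using (feq_vadd ρ (e.mono hs')).symm
  · exact key s' hd' (two_eq h one_ne_zero) (e.mono hs')

noncomputable def yN (k : ℕ) (σ : Gam) : Nm := pairN (nN k) (σ +ᵥ xN k)

theorem hs_yN (k : ℕ) (σ : Gam) : HS (yN k σ) := hs_pairN (hs_nN k) ((hs_xN k).vadd σ)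

theorem vadd_yN (k : ℕ) (ρ σ : Gam) (p : Q) : FEq (ρ +ᵥ yN k σ) (yN k (ρ + σ)) p :=
  feq_trans (vadd_pairN _ _ _ _) (feq_pairN ((fix_nN 0 _ ρ (inH_zero ρ)).mono le_top)
    (by rw [add_vadd]; exact feq_refl _ _))

noncomputable def zN (k : ℕ) : Nm := fam (yN k)

theorem fix_zN (k : ℕ) : Fix 0 (zN k) := fix_fam fun ρ _ σ => ⟨ρ + σ, vadd_yN k ρ σ ⊤⟩

noncomputable def aN : Nm := fam zN

theorem hs_aN : HS aN :=
  hs_mk (fix_fam fun σ hσ k => ⟨k, fix_zN k σ hσ⟩) fun k => hs_mk (fix_zN k) (hs_yN k)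

theorem not_ac (ha : aN ∈ g.N) : ¬ AC g.E := by
  intro H
  have hz : ∀ k, zN k ∈ g.N := fam_mem ha
  have hy : ∀ k σ, yN k σ ∈ g.N := fun k => fam_mem (hz k)
  have hx : ∀ k (σ : Gam), σ +ᵥ xN k ∈ g.N := fun k σ => (pairN_mem_iff.1 (hy k σ)).2
  have ey : ∀ k σ, g.v (yN k σ) = pr (g.v (nN k)) (g.v (σ +ᵥ xN k)) := fun k σ =>
    v_pairN (nN_mem k) (hx k σ)
  have my : ∀ k σ, g.E (g.v (yN k σ)) (g.v (zN k)) := fun k σ =>
    (E_fam (hz k)).2 ⟨σ, hy k σ, rfl⟩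
  obtain ⟨c, hc⟩ := H (g.v aN) (fun x hx => by
      obtain ⟨k, -, rfl⟩ := (E_fam ha).1 hx
      exact ⟨_, my k 0⟩) (fun x y hx hy' ⟨z, h₁, h₂⟩ => by
      obtain ⟨k, -, rfl⟩ := (E_fam ha).1 hx
      obtain ⟨k', -, rfl⟩ := (E_fam ha).1 hy'
      obtain ⟨σ, -, rfl⟩ := (E_fam (hz k)).1 h₁
      obtain ⟨σ', -, e⟩ := (E_fam (hz k')).1 h₂
      rw [ey, ey] at e
      rw [nN_inj (pr_inj.1 e).1])
  obtain ⟨γ, hγ, rfl⟩ := exists_v c
  obtain ⟨k, hk⟩ := (g.hs hγ).fix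
  obtain ⟨y, ⟨h₁, h₂⟩, h₃⟩ := hc _ ((E_fam ha).2 ⟨k, hz k, rfl⟩)
  obtain ⟨σ, -, rfl⟩ := (E_fam (hz k)).1 h₁
  obtain ⟨p, hp, hm⟩ := (v_mem_iff (hy k σ) hγ).1 h₂
  obtain ⟨ρ, b₁, b₂, b₃⟩ := exists_block p k
  have hm' : FMem (yN k (ρ + σ)) γ p := fmem_left (vadd_yN k ρ σ p).symm
    (fmem_right ((fmem_vadd ρ hm).mono b₁.ge) ((hk ρ b₂).mono le_top))
  have e := h₃ _ ⟨my k (ρ + σ), (v_mem_iff (hy k _) hγ).2 ⟨p, hp, hm'⟩⟩
  rw [ey, ey] at e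
  obtain ⟨s, -, e'⟩ := (v_eq_iff (hx _ _) (hx _ _)).1 (pr_inj.1 e).2
  refine xN_moved (k := k) b₃ (σ +ᵥ s) ?_
  have := feq_vadd σ e'
  rwa [vadd_vadd_self, add_comm, add_vadd, vadd_vadd_self] at this

theorem main : ∃ (M : Type 1) (E : M → M → Prop), IsZF E ∧ WFs4 E ∧ ¬ AC E := by
  obtain ⟨g, -, hC⟩ := exists_gn ⊤ {aN} (Set.countable_singleton _) (by simpa using hs_aN)
  exact ⟨g.M, g.E, g.isZF, wfs4 g, not_ac (hC rfl)⟩

end Pool.Agent.MP_a078ad_lc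

end
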