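import Pool.Agent.MP_c6cf52_lc.Ground
import Pool.Agent.MP_c6cf52_lc.Tools
import Pool.Agent.MP_e34318_lc.Defs

section

namespace Pool.Agent.MP_e34318_lc

open Cardinal Set Pool.Agent.MP_c6cf52_lc

/-! ### The first uncountable ordinal -/

abbrev W : Type := (ℵ_ 1).ord.ToType

theorem W.ct_Iio (a : W) : (Iio a).Countable := by
  rw [← le_aleph0_iff_set_countable, ← Order.lt_succ_iff, succ_aleph0]
  simpa using mk_Iio_lt a (by simp)

theorem W.ct_Iic (a : W) : (Iic a).Countable := by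
  rw [← Iio_insert]
  exact (W.ct_Iio a).insert a

theorem W.mk : #W = ℵ_ 1 := Cardinal.mk_ord_toType _

theorem W.mk_le : #W ≤ 𝔠 := by rw [W.mk]; exact aleph_one_le_continuum

theorem W.bound {s : Set W} (hs : s.Countable) : ∃ b, ∀ x ∈ s, x < b := by
  by_contra h
  push Not at h
  have h₁ : (⋃ x ∈ s, Iic x).Countable := hs.biUnion fun x _ => W.ct_Iic x
  have h₂ : (⋃ x ∈ s, Iic x) = Set.univ := by
    refine eq_univ_of_forall fun b => ?_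
    obtain ⟨x, hx, hb⟩ := h b
    exact mem_biUnion hx hb
  rw [h₂, ← le_aleph0_iff_set_countable, mk_univ, W.mk] at h₁
  exact aleph0_lt_aleph_one.not_ge h₁

theorem W.exists_gt (a : W) : ∃ b, a < b := by
  obtain ⟨b, hb⟩ := W.bound (countable_singleton a)
  exact ⟨b, hb a rfl⟩

instance : Nonempty W := ⟨(W.bound countable_empty).choose⟩

noncomputable def W.bot : W := wellFounded_lt.min univ univ_nonempty

theorem W.bot_le (a : W) : W.bot ≤ a :=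
  not_lt.1 (wellFounded_lt.not_lt_min univ (mem_univ a))

theorem exists_rank {T : Type} {R : T → T → Prop} (wf : WellFounded R)
    (hc : ∀ b, {a | R a b}.Countable) : ∃ rk : T → W, ∀ a b, R a b → rk a < rk b := by
  classical
  have hb : ∀ b (ih : ∀ a, R a b → W), ∃ w, ∀ a (h : R a b), ih a h < w := by
    intro b ih
    have := (hc b).to_subtype
    obtain ⟨w, hw⟩ := W.bound (countable_range fun a : {a | R a b} => ih a.1 a.2)
    exact ⟨w, fun a h => hw _ ⟨⟨a, h⟩, rfl⟩⟩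
  choose F hF using hb
  refine ⟨wf.fix F, fun a b h => ?_⟩
  rw [wf.fix_eq F b]
  exact hF b (fun y _ => wf.fix F y) a h

/-! ### The singular cardinal -/

noncomputable def lam (i : W) : Cardinal.{0} := ℶ_ (Ordinal.typein (α := W) (· < ·) i + 1)

theorem lam_strictMono : StrictMono lam := by
  intro i j h
  unfold lam
  rw [beth_lt_beth]
  have := (Ordinal.typein_lt_typein (α := W) (· < ·)).2 h
  simpa using this

theorem c_le_lam (i : W) : 𝔠 ≤ lam i := by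
  unfold lam
  rw [← beth_one, beth_le_beth]
  exact le_add_self

noncomputable def kap : Cardinal.{0} := ⨆ i, lam i

theorem lam_lt_kap (i : W) : lam i < kap := by
  obtain ⟨j, hj⟩ := W.exists_gt i
  exact (lam_strictMono hj).trans_le (le_ciSup bddAbove_of_small j)

theorem c_lt_kap : 𝔠 < kap := (c_le_lam W.bot).trans_lt (lam_lt_kap _)

theorem aleph0_le_kap : ℵ₀ ≤ kap := aleph0_le_continuum.trans c_lt_kap.le

abbrev X : Type := kap.ord.ToType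

theorem X.mk : #X = kap := Cardinal.mk_ord_toType _

theorem X.mk_Iio (x : X) : #(Iio x) < kap := by simpa using mk_Iio_lt x (by simp)

theorem lev_ex (x : X) : {i | #(Iio x) < lam i}.Nonempty :=
  exists_lt_of_lt_ciSup (X.mk_Iio x)

noncomputable def lev (x : X) : W := wellFounded_lt.min _ (lev_ex x)

theorem lt_lam_lev (x : X) : #(Iio x) < lam (lev x) := wellFounded_lt.min_mem _ (lev_ex x)

theorem lev_mono : Monotone lev := by
  intro x y h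
  refine not_lt.1 (wellFounded_lt.not_lt_min {i | #(Iio x) < lam i} ?_)
  exact (mk_le_mk_of_subset (Iio_subset_Iio h)).trans_lt (lt_lam_lev y)

theorem exists_mk_Iio {c : Cardinal.{0}} (hc : c < kap) : ∃ y : X, #(Iio y) = c := by
  have h : c.ord < Ordinal.type (α := X) (· < ·) := by
    rw [Ordinal.type_toType]; exact ord_lt_ord.2 hc
  refine ⟨Ordinal.enum (α := X) (· < ·) ⟨c.ord, h⟩, ?_⟩
  have := Ordinal.card_typein (r := fun a b : X => a < b) (Ordinal.enum (α := X) (· < ·) ⟨c.ord, h⟩)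
  rw [Ordinal.typein_enum, card_ord] at this
  exact this.symm

theorem mk_lev_le (i : W) : #{x | lev x ≤ i} < kap := by
  obtain ⟨y, hy⟩ := exists_mk_Iio (lam_lt_kap i)
  refine lt_of_le_of_lt (mk_le_mk_of_subset fun x hx => ?_) (X.mk_Iio y)
  by_contra h
  have h1 : y ≤ x := not_lt.1 h
  have h2 := (mk_le_mk_of_subset (Iio_subset_Iio h1)).trans_lt (lt_lam_lev x)
  rw [hy] at h2
  exact h2.not_ge (lam_strictMono.monotone hx)

theorem exists_not_mem {s : Set X} (hs : #s < kap) : ∃ x, x ∉ s := by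
  by_contra h
  push Not at h
  rw [eq_univ_of_forall h, mk_univ, X.mk] at hs
  exact lt_irrefl _ hs

theorem X.bound {s : Set X} (hs : s.Countable) : ∃ b, ∀ x ∈ s, x < b := by
  obtain ⟨i, hi⟩ := W.bound (hs.image lev)
  obtain ⟨b, hb⟩ := exists_not_mem (mk_lev_le i)
  refine ⟨b, fun x hx => ?_⟩
  by_contra h
  exact hb ((lev_mono (not_lt.1 h)).trans (hi _ ⟨x, hx, rfl⟩).le)

theorem exists_inf : ∃ x : X, (Iio x).Infinite := by
  obtain ⟨y, hy⟩ := exists_mk_Iio (aleph0_le_continuum.trans_lt c_lt_kap)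
  refine ⟨y, ?_⟩
  rw [← Set.infinite_coe_iff, Cardinal.infinite_iff, hy]

/-- The element of `X` at position omega. -/
noncomputable def om : X := wellFounded_lt.min {x | (Iio x).Infinite} exists_inf

theorem om_inf : (Iio om).Infinite :=
  wellFounded_lt.min_mem {x : X | (Iio x).Infinite} exists_inf

theorem fin_of_lt {y : X} (h : y < om) : (Iio y).Finite := by
  by_contra h'
  exact wellFounded_lt.not_lt_min {x : X | (Iio x).Infinite} h' h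

theorem om_between {y : X} (h : y < om) : ∃ x, y < x ∧ x < om := by
  have : (Iic y).Finite := by
    rw [← Iio_insert]; exact (fin_of_lt h).insert _
  obtain ⟨x, hx, h⟩ := om_inf.exists_notMem_finite this
  exact ⟨x, not_le.1 h, hx⟩

theorem om_ct : (Iio om).Countable := by
  have : Iio om ⊆ ⋃ y ∈ Iio om, Iio y := fun x hx => by
    obtain ⟨y, h1, h2⟩ := om_between hx
    exact mem_biUnion h2 h1
  by_contra hn
  obtain ⟨y, hy⟩ := exists_mk_Iio (aleph0_le_continuum.trans_lt c_lt_kap)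
  have h1 : (Iio y).Infinite := by rw [← Set.infinite_coe_iff, Cardinal.infinite_iff, hy]
  have h2 : om ≤ y := not_lt.1 (wellFounded_lt.not_lt_min {x : X | (Iio x).Infinite} h1)
  apply hn
  refine Set.Countable.mono (Iio_subset_Iio h2) ?_
  rw [← le_aleph0_iff_set_countable, hy]

theorem exists_seq_om : ∃ e : ℕ → X, StrictMono e ∧ ∀ n, e n < om := by
  obtain ⟨x0, hx0⟩ := om_inf.nonempty
  have : Nonempty X := ⟨x0⟩
  choose! f hf using fun y (h : y < om) => om_between h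
  let e : ℕ → X := fun n => Nat.rec x0 (fun _ y => f y) n
  have he : ∀ n, e n < om := by
    intro n
    induction n with
    | zero => exact hx0
    | succ n ih => exact (hf _ ih).2
  exact ⟨e, strictMono_nat_of_lt_succ fun n => (hf _ (he n)).1, he⟩

/-! ### A closure lemma and a root lemma -/

theorem exists_closed_set {Y : Type} (F : Set Y → Set Y) (hF : ∀ r, r.Countable → #(F r) ≤ 𝔠) :
    ∃ U : Set Y, #U ≤ 𝔠 ∧ ∀ r, r.Countable → r ⊆ U → F r ⊆ U := by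
  classical
  have hs : ∀ r : Set Y, ∃ e : ℝ → Option Y, r.Countable → ∀ y ∈ F r, ∃ z, e z = some y := by
    intro r
    by_cases hr : r.Countable
    · have h := hF r hr
      rw [← mk_real] at h
      obtain ⟨j⟩ := h
      refine ⟨fun z => if h : ∃ y, j y = z then some h.choose.1 else none, fun _ y hy =>
        ⟨j ⟨y, hy⟩, ?_⟩⟩
      have h : ∃ y', j y' = j ⟨y, hy⟩ := ⟨_, rfl⟩
      simp only [dif_pos h]
      rw [j.injective h.choose_spec]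
    · exact ⟨fun _ => none, fun h => absurd h hr⟩
  choose e he using hs
  let β : Option ℝ → Type := fun b => Option.casesOn b Empty (fun _ => ℕ)
  have hβ : ∀ b, Countable (β b) := fun b => by
    cases b
    · exact inferInstanceAs (Countable Empty)
    · exact inferInstanceAs (Countable ℕ)
  have hW : #(WType β) ≤ 𝔠 := by
    refine WType.cardinalMk_le_of_le ((sum_le_sum _ (fun _ => 𝔠) fun b => ?_).trans ?_)
    · have h1 : #(β b) ≤ ℵ₀ := @mk_le_aleph0 _ (hβ b)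
      exact (power_le_power_left continuum_ne_zero h1).trans (by simp)
    · rw [sum_const', mk_option, mk_real, add_one_eq aleph0_le_continuum]
      simp
  let ev : WType β → Option Y := WType.elim (Option Y) (fun z =>
    Option.casesOn (motive := fun _ => Option Y) z.1 none
      (fun t => e {y | ∃ n, z.2 n = some y} t))
  have hev : ∀ (t : ℝ) (f : ℕ → WType β),
      ev (WType.mk (some t) f) = e {y | ∃ n, ev (f n) = some y} t := fun t f => rfl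
  have hev0 : ev (WType.mk none Empty.elim) = none := rfl
  refine ⟨{y | ∃ w, ev w = some y}, ?_, fun r hr hU y hy => ?_⟩
  · refine le_trans ?_ hW
    refine mk_le_of_injective (f := fun y : {y | ∃ w, ev w = some y} => y.2.choose) ?_
    intro y y' h
    have h1 := y.2.choose_spec
    have h2 := y'.2.choose_spec
    simp only at h
    rw [h, h2] at h1
    exact Subtype.ext (Option.some.inj h1).symm
  · obtain ⟨f, hf⟩ : ∃ f : ℕ → WType β, {y | ∃ n, ev (f n) = some y} = r := by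
      rcases r.eq_empty_or_nonempty with rfl | hne
      · exact ⟨fun _ => WType.mk none Empty.elim, by simp [hev0]⟩
      · obtain ⟨g, rfl⟩ := hr.exists_eq_range hne
        choose f hf using fun n => hU (mem_range_self n)
        refine ⟨f, Set.ext fun y => ?_⟩
        simp only [mem_ofPred_eq, hf, Option.some.injEq, mem_range]
    obtain ⟨z, hz⟩ := he r hr y hy
    exact ⟨WType.mk (some z) f, by rw [hev, hf, hz]⟩

theorem root_lemma {Y Y' I Θ : Type} (S : I → Set Y) (hS : ∀ i, (S i).Countable) (pt : I → Y')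
    (hpt : 𝔠 < #(range pt)) (T : Set Y → I → Θ)
    (hT : ∀ r, r.Countable → #(range (T r)) ≤ 𝔠) :
    ∃ r : Set Y, ∃ t : Θ, ∀ Z : Set Y, Z.Countable → ∀ Z' : Set Y', Z'.Countable →
      ∃ i, pt i ∉ Z' ∧ S i ∩ Z ⊆ r ∧ r ⊆ S i ∧ T r i = t := by
  by_contra h
  push Not at h
  choose Z hZ Z' hZ' H using h
  obtain ⟨U, hU, hcl⟩ := exists_closed_set (fun r => ⋃ t : range (T r), Z r t.1)
    (fun r hr => mk_iUnion_le_c (hT r hr) _ fun t => ct_le (hZ _ _))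
  let U' : Set Y' := ⋃ r : {t : Set Y | t ⊆ U ∧ t.Countable}, ⋃ t : range (T r.1), Z' r.1 t.1
  have hU' : #U' ≤ 𝔠 := mk_iUnion_le_c (mk_ct_subsets U hU) _ fun r =>
    mk_iUnion_le_c (hT r.1 r.2.2) _ fun t => ct_le (hZ' _ _)
  obtain ⟨i, hi⟩ : ∃ i, pt i ∉ U' := by
    by_contra h
    push Not at h
    exact hpt.not_ge ((mk_le_mk_of_subset (by rintro _ ⟨i, rfl⟩; exact h i)).trans hU')
  have hr : (S i ∩ U).Countable := (hS i).mono inter_subset_left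
  refine H (S i ∩ U) (T (S i ∩ U) i) i (fun h => hi ?_) (fun y hy => ⟨hy.1, ?_⟩)
    inter_subset_left rfl
  · exact mem_iUnion.2 ⟨⟨S i ∩ U, inter_subset_right, hr⟩, mem_iUnion.2 ⟨⟨_, i, rfl⟩, h⟩⟩
  · exact hcl _ hr inter_subset_right (mem_iUnion.2 ⟨⟨_, i, rfl⟩, hy.2⟩)

theorem exists_big_fiber (γ : X → X) (h : #(range γ) < kap) : ∃ y, 𝔠 < #{β | γ β = y} := by
  by_contra h'
  push Not at h'
  have h1 : (univ : Set X) = ⋃ y : range γ, {β | γ β = y.1} := by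
    ext β; simp
  have h2 : #(univ : Set X) ≤ #(range γ) * 𝔠 := by
    rw [h1]
    refine mk_iUnion_le_sum_mk.trans ((sum_le_sum _ (fun _ => 𝔠) fun y : range γ => h' y.1).trans ?_)
    rw [sum_const']
  rw [mk_univ, X.mk] at h2
  exact (mul_lt_of_lt aleph0_le_kap h c_lt_kap).not_ge h2

end Pool.Agent.MP_e34318_lc

end

section

namespace Pool.Agent.MP_e34318_lc

open Cardinal Set Pool.Agent.MP_c6cf52_lc

/-- `s` is a clique of neighbours below `x`. -/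
def Clq (a : Set X) (G : X → X → Prop) (x : X) (s : Finset X) : Prop :=
  x ∈ a ∧ (∀ y ∈ s, G x y) ∧ ∀ y ∈ s, ∀ z ∈ s, z < y → G y z

theorem Clq.mono {a : Set X} {G : X → X → Prop} {x : X} {s s' : Finset X} (h : Clq a G x s')
    (hs : s ⊆ s') : Clq a G x s :=
  ⟨h.1, fun y hy => h.2.1 y (hs hy), fun y hy z hz => h.2.2 y (hs hy) z (hs hz)⟩

/-- Conditions. -/
structure Cond where
  a : Set X
  h : W
  G : X → X → Prop
  c : X → Set W
  ρ : X → Finset X → W ×ₗ W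
  a_ct : a.Countable
  lev_le : ∀ x ∈ a, lev x ≤ h
  G_sub : ∀ x y, G x y → x ∈ a ∧ y ∈ a ∧ y < x
  c_le : ∀ y ∈ a, ∀ η ∈ c y, η ≤ h
  dec : ∀ x s s', Clq a G x s' → s ⊂ s' → ρ x s' < ρ x s
  prom : ∀ x s, Clq a G x s → ∀ η ≤ lev x, (∀ y ∈ s, η ∈ c y) → η ≤ (ofLex (ρ x s)).1

namespace Cond

abbrev Cl (p : Cond) (x : X) (s : Finset X) : Prop := Clq p.a p.G x s

theorem Cl.sub {p : Cond} {x : X} {s : Finset X} (h : p.Cl x s) {y : X} (hy : y ∈ s) : y ∈ p.a :=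
  (p.G_sub _ _ (h.2.1 y hy)).2.1

theorem Cl.lt {p : Cond} {x : X} {s : Finset X} (h : p.Cl x s) {y : X} (hy : y ∈ s) : y < x :=
  (p.G_sub _ _ (h.2.1 y hy)).2.2

structure Ext (q p : Cond) : Prop where
  a : p.a ⊆ q.a
  h : p.h ≤ q.h
  G : ∀ x ∈ p.a, ∀ y ∈ p.a, (q.G x y ↔ p.G x y)
  c : ∀ y ∈ p.a, ∀ η ≤ p.h, (η ∈ q.c y ↔ η ∈ p.c y)
  ρ : ∀ x s, p.Cl x s → q.ρ x s = p.ρ x s

theorem Ext.G' {q p : Cond} (h : Ext q p) {x y : X} (e : p.G x y) : q.G x y :=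
  (h.G x (p.G_sub _ _ e).1 y (p.G_sub _ _ e).2.1).2 e

theorem Ext.cl {q p : Cond} (h : Ext q p) {x : X} {s : Finset X} (e : p.Cl x s) : q.Cl x s :=
  ⟨h.a e.1, fun y hy => h.G' (e.2.1 y hy), fun y hy z hz l => h.G' (e.2.2 y hy z hz l)⟩

theorem Ext.cl' {q p : Cond} (h : Ext q p) {x : X} {s : Finset X} (e : q.Cl x s) (hx : x ∈ p.a)
    (hs : ∀ y ∈ s, y ∈ p.a) : p.Cl x s :=
  ⟨hx, fun y hy => (h.G x hx y (hs y hy)).1 (e.2.1 y hy),
    fun y hy z hz l => (h.G y (hs y hy) z (hs z hz)).1 (e.2.2 y hy z hz l)⟩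

instance : Preorder Cond where
  le := Ext
  le_refl p := ⟨Subset.rfl, le_rfl, fun _ _ _ _ => Iff.rfl, fun _ _ _ _ => Iff.rfl,
    fun _ _ _ => rfl⟩
  le_trans r q p h₁ h₂ :=
    ⟨h₂.a.trans h₁.a, h₂.h.trans h₁.h,
      fun x hx y hy => (h₁.G x (h₂.a hx) y (h₂.a hy)).trans (h₂.G x hx y hy),
      fun y hy η hη => (h₁.c y (h₂.a hy) η (hη.trans h₂.h)).trans (h₂.c y hy η hη),
      fun x s h => (h₁.ρ x s (h₂.cl h)).trans (h₂.ρ x s h)⟩

noncomputable instance : OrderTop Cond where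
  top := ⟨∅, W.bot, fun _ _ => False, fun _ => ∅, fun _ _ => toLex (W.bot, W.bot),
    countable_empty, by simp, by simp, by simp, fun _ _ _ h => h.1.elim, fun _ _ h => h.1.elim⟩
  le_top p := ⟨empty_subset _, W.bot_le _, fun _ h => h.elim, fun _ h => h.elim,
    fun _ _ h => h.1.elim⟩

theorem add_point (p : Cond) (x : X) : ∃ q ≤ p, x ∈ q.a := by
  classical
  by_cases hx : x ∈ p.a
  · exact ⟨p, le_rfl, hx⟩
  have hcl : ∀ z s, Clq (insert x p.a) p.G z s → (z = x ∧ s = ∅) ∨ (z ≠ x ∧ p.Cl z s) := by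
    intro z s h
    by_cases hz : z = x
    · refine Or.inl ⟨hz, Finset.eq_empty_of_forall_notMem fun y hy => hx ?_⟩
      exact hz ▸ (p.G_sub _ _ (h.2.1 y hy)).1
    · exact Or.inr ⟨hz, h.1.resolve_left hz, h.2⟩
  refine ⟨⟨insert x p.a, max p.h (lev x), p.G, fun y => if y ∈ p.a then p.c y else ∅,
    fun z s => if z = x then toLex (lev x, W.bot) else p.ρ z s, p.a_ct.insert x, ?_, ?_, ?_, ?_, ?_⟩,
    ⟨subset_insert _ _, le_max_left _ _, fun _ _ _ _ => Iff.rfl, fun y hy η _ => by simp [hy],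
      fun z s h => if_neg fun e : z = x => hx (e ▸ h.1)⟩, mem_insert _ _⟩
  · rintro z (rfl | hz)
    exacts [le_max_right _ _, (p.lev_le z hz).trans (le_max_left _ _)]
  · intro z y h
    exact ⟨Or.inr (p.G_sub _ _ h).1, Or.inr (p.G_sub _ _ h).2.1, (p.G_sub _ _ h).2.2⟩
  · intro y _ η hη
    by_cases hy : y ∈ p.a
    · simp only [if_pos hy] at hη
      exact (p.c_le y hy η hη).trans (le_max_left _ _)
    · simp [hy] at hη
  · intro z s s' h hs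
    rcases hcl z s' h with ⟨-, rfl⟩ | ⟨hz, h⟩
    · exact absurd hs (Finset.not_ssubset_empty s)
    · simp only [if_neg hz]; exact p.dec z s s' h hs
  · intro z s h η hη hc
    rcases hcl z s h with ⟨rfl, -⟩ | ⟨hz, h⟩
    · simpa using hη
    · simp only [if_neg hz]
      refine p.prom z s h η hη fun y hy => ?_
      simpa [h.sub hy] using hc y hy

theorem add_two (p : Cond) (x y : X) : ∃ q ≤ p, x ∈ q.a ∧ y ∈ q.a := by
  obtain ⟨q, hq, hx⟩ := p.add_point x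
  obtain ⟨r, hr, hy⟩ := q.add_point y
  exact ⟨r, hr.trans hq, hr.a hx, hy⟩

theorem bump (p : Cond) (h1 : W) (hh : p.h < h1) :
    ∃ q ≤ p, q.h = h1 ∧ ∀ y, h1 ∈ q.c y := by
  refine ⟨⟨p.a, h1, p.G, fun y => insert h1 (p.c y), p.ρ, p.a_ct,
    fun x hx => (p.lev_le x hx).trans hh.le, p.G_sub, ?_, p.dec, ?_⟩,
    ⟨Subset.rfl, hh.le, fun _ _ _ _ => Iff.rfl, fun y _ η hη => ?_, fun _ _ _ => rfl⟩, rfl,
    fun y => mem_insert _ _⟩
  · rintro y hy η (rfl | hη)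
    exacts [le_rfl, (p.c_le y hy η hη).trans hh.le]
  · intro x s h η hη hc
    refine p.prom x s h η hη fun y hy => (hc y hy).resolve_left ?_
    exact ((hη.trans (p.lev_le x h.1)).trans_lt hh).ne
  · exact ⟨fun h => h.resolve_left (hη.trans_lt hh).ne, Or.inr⟩

theorem closed (s : ℕ → Cond) (hs : Antitone s) : ∃ q, ∀ n, q ≤ s n := by
  classical
  have hle : ∀ {n m}, n ≤ m → Ext (s m) (s n) := fun h => hs h
  obtain ⟨h, hh⟩ := W.bound (countable_range fun n => (s n).h)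
  have hcl : ∀ x t, Clq (⋃ n, (s n).a) (fun x y => ∃ n, (s n).G x y) x t → ∃ n, (s n).Cl x t := by
    intro x t H
    obtain ⟨n₀, hn₀⟩ := mem_iUnion.1 H.1
    have : ∀ y ∈ t, ∃ n, y ∈ (s n).a := fun y hy => by
      obtain ⟨n, hn⟩ := H.2.1 y hy
      exact ⟨n, ((s n).G_sub _ _ hn).2.1⟩
    choose! f hf using this
    have key : ∀ {N x y}, x ∈ (s N).a → y ∈ (s N).a → (∃ n, (s n).G x y) → (s N).G x y := by
      rintro N x y hx hy ⟨n, hn⟩
      exact ((hle (le_max_left N n)).G x hx y hy).1 ((hle (le_max_right N n)).G' hn)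
    have h1 : x ∈ (s (max n₀ (t.sup f))).a := (hle (le_max_left _ _)).a hn₀
    have h2 : ∀ y ∈ t, y ∈ (s (max n₀ (t.sup f))).a := fun y hy =>
      (hle ((Finset.le_sup hy).trans (le_max_right _ _))).a (hf y hy)
    exact ⟨_, h1, fun y hy => key h1 (h2 y hy) (H.2.1 y hy),
      fun y hy z hz l => key (h2 y hy) (h2 z hz) (H.2.2 y hy z hz l)⟩
  let ρ : X → Finset X → W ×ₗ W := fun x t =>
    if H : ∃ n, (s n).Cl x t then (s H.choose).ρ x t else toLex (h, h)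
  have hρ : ∀ n x t, (s n).Cl x t → ρ x t = (s n).ρ x t := by
    intro n x t H
    have H' : ∃ n, (s n).Cl x t := ⟨n, H⟩
    simp only [ρ, dif_pos H']
    rw [← (hle (le_max_left n H'.choose)).ρ x t H,
      (hle (le_max_right n H'.choose)).ρ x t H'.choose_spec]
  have hc : ∀ n, ∀ y ∈ (s n).a, ∀ η ≤ (s n).h,
      (η ∈ {η | ∃ m, y ∈ (s m).a ∧ η ∈ (s m).c y} ↔ η ∈ (s n).c y) := by
    intro n y hy η hη
    refine ⟨fun ⟨m, h1, h2⟩ => ?_, fun h => ⟨n, hy, h⟩⟩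
    exact ((hle (le_max_left n m)).c y hy η hη).1
      (((hle (le_max_right n m)).c y h1 η ((s m).c_le y h1 η h2)).2 h2)
  refine ⟨⟨⋃ n, (s n).a, h, fun x y => ∃ n, (s n).G x y,
    fun y => {η | ∃ m, y ∈ (s m).a ∧ η ∈ (s m).c y}, ρ, countable_iUnion fun n => (s n).a_ct,
    ?_, ?_, ?_, ?_, ?_⟩, fun n => ⟨subset_iUnion (fun n => (s n).a) n, (hh _ ⟨n, rfl⟩).le,
      fun x hx y hy => ⟨fun ⟨m, hm⟩ => ?_, fun h => ⟨n, h⟩⟩, hc n, hρ n⟩⟩
  · intro x hx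
    obtain ⟨n, hn⟩ := mem_iUnion.1 hx
    exact ((s n).lev_le x hn).trans (hh _ ⟨n, rfl⟩).le
  · rintro x y ⟨n, hn⟩
    have := (s n).G_sub _ _ hn
    exact ⟨mem_iUnion.2 ⟨n, this.1⟩, mem_iUnion.2 ⟨n, this.2.1⟩, this.2.2⟩
  · rintro y - η ⟨m, h1, h2⟩
    exact ((s m).c_le y h1 η h2).trans (hh _ ⟨m, rfl⟩).le
  · intro x t t' H ht
    obtain ⟨n, hn⟩ := hcl x t' H
    rw [hρ n x t' hn, hρ n x t (hn.mono ht.subset)]
    exact (s n).dec x t t' hn ht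
  · intro x t H η hη hc'
    obtain ⟨n, hn⟩ := hcl x t H
    rw [hρ n x t hn]
    exact (s n).prom x t hn η hη fun y hy =>
      (hc n y (hn.sub hy) η (hη.trans ((s n).lev_le x hn.1))).1 (hc' y hy)
  · exact ((hle (le_max_left n m)).G x hx y hy).1 ((hle (le_max_right n m)).G' hm)

/-- Restriction of a condition. -/
def restrict (p : Cond) (r : Set X) : Cond where
  a := p.a ∩ r
  h := p.h
  G := fun x y => p.G x y ∧ x ∈ r ∧ y ∈ r
  c := p.c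
  ρ := p.ρ
  a_ct := p.a_ct.mono inter_subset_left
  lev_le := fun x hx => p.lev_le x hx.1
  G_sub := fun _ _ h => ⟨⟨(p.G_sub _ _ h.1).1, h.2.1⟩, ⟨(p.G_sub _ _ h.1).2.1, h.2.2⟩,
    (p.G_sub _ _ h.1).2.2⟩
  c_le := fun y hy => p.c_le y hy.1
  dec := fun x s s' h => p.dec x s s'
    ⟨h.1.1, fun y hy => (h.2.1 y hy).1, fun y hy z hz l => (h.2.2 y hy z hz l).1⟩
  prom := fun x s h => p.prom x s
    ⟨h.1.1, fun y hy => (h.2.1 y hy).1, fun y hy z hz l => (h.2.2 y hy z hz l).1⟩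

theorem restrict_le {q p : Cond} {r : Set X} (h : q ≤ p) (hr : p.a ⊆ r) : q.restrict r ≤ p :=
  ⟨fun _ hx => ⟨h.a hx, hr hx⟩, h.h,
    fun x hx y hy => ⟨fun e => (h.G x hx y hy).1 e.1, fun e => ⟨h.G' e, hr hx, hr hy⟩⟩,
    h.c, h.ρ⟩

abbrev Ty : Type := W × Set (X × X) × Set (X × W) × Set (X × Finset X × (W ×ₗ W))

/-- The type of a condition over a set. -/
def ty (r : Set X) (p : Cond) : Ty :=
  (p.h, {z | p.G z.1 z.2 ∧ z.1 ∈ r ∧ z.2 ∈ r}, {z | z.1 ∈ p.a ∧ z.1 ∈ r ∧ z.2 ∈ p.c z.1},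
    {z | (p.restrict r).Cl z.1 z.2.1 ∧ p.ρ z.1 z.2.1 = z.2.2})

theorem ct_finsets {r : Set X} (hr : r.Countable) : {s : Finset X | ↑s ⊆ r}.Countable := by
  refine ((countable_ofPred_finite_subset hr).preimage_of_injOn
    (f := fun s : Finset X => (s : Set X)) (Finset.coe_injective.injOn)).mono ?_
  intro s hs
  exact ⟨s.finite_toSet, hs⟩

theorem mk_ty {I : Type} (q : I → Cond) (r : Set X) (hr : r.Countable) :
    #(range fun i => ty r (q i)) ≤ 𝔠 := by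
  have hW : #(univ : Set W) ≤ 𝔠 := by rw [mk_univ]; exact W.mk_le
  have hWW : #(univ : Set (W ×ₗ W)) ≤ 𝔠 := by
    rw [mk_univ]
    change #(W × W) ≤ 𝔠
    rw [mk_prod, lift_id]
    exact (mul_le_mul' W.mk_le W.mk_le).trans (by simp)
  have h₂ := mk_ct_subsets _ (mk_prod_le_c (ct_le hr) (ct_le hr))
  have h₃ := mk_ct_subsets _ (mk_prod_le_c (ct_le hr) hW)
  have h₄ := mk_ct_subsets _ (mk_prod_le_c (ct_le hr) (mk_prod_le_c (ct_le (ct_finsets hr)) hWW))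
  refine (mk_le_mk_of_subset ?_).trans (mk_prod_le_c hW (mk_prod_le_c h₂ (mk_prod_le_c h₃ h₄)))
  rintro _ ⟨i, rfl⟩
  refine ⟨trivial, ⟨fun z hz => hz.2, (hr.prod hr).mono fun z hz => hz.2⟩,
    ⟨fun z hz => ⟨hz.2.1, trivial⟩, (hr.prod (W.ct_Iic (q i).h)).mono fun z hz =>
      Set.mk_mem_prod hz.2.1 ((q i).c_le _ hz.1 _ hz.2.2)⟩,
    ⟨fun z hz => ⟨hz.1.1.2, fun y hy => (hz.1.sub hy).2, trivial⟩, ?_⟩⟩
  refine ((hr.prod (ct_finsets hr)).image fun z => (z.1, z.2, (q i).ρ z.1 z.2)).mono ?_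
  rintro ⟨x, s, v⟩ hz
  have e : (q i).ρ x s = v := hz.2
  exact ⟨(x, s), ⟨hz.1.1.2, fun y hy => (hz.1.sub hy).2⟩, by simp only [e]⟩

theorem le_restrict_of_ty {p q : Cond} {r : Set X} (hq : r ⊆ q.a) (e : ty r q = ty r p) :
    q ≤ p.restrict r ∧ q.h = p.h := by
  simp only [ty, Prod.mk.injEq] at e
  obtain ⟨e₁, e₂, e₃, e₄⟩ := e
  refine ⟨⟨fun x hx => hq hx.2, e₁.ge, fun x hx y hy => ?_, fun y hy η _ => ?_, fun x s h => ?_⟩,
    e₁⟩
  · have := Set.ext_iff.1 e₂ (x, y)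
    simp only [mem_ofPred_eq] at this
    exact ⟨fun h => this.1 ⟨h, hx.2, hy.2⟩, fun h => (this.2 h).1⟩
  · have := Set.ext_iff.1 e₃ (y, η)
    simp only [mem_ofPred_eq] at this
    exact ⟨fun h => (this.1 ⟨hq hy.2, hy.2, h⟩).2.2, fun h => (this.2 ⟨hy.1, hy.2, h⟩).2.2⟩
  · have := Set.ext_iff.1 e₄ (x, s, p.ρ x s)
    simp only [mem_ofPred_eq] at this
    exact (this.2 ⟨h, trivial⟩).2

theorem amalg {p q r : Cond} (hp : p ≤ r) (hq : q ≤ r) (hi : p.a ∩ q.a ⊆ r.a) (hh : p.h = r.h) :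
    ∃ u, u ≤ p ∧ u ≤ q ∧ (∀ x y, u.G x y → p.G x y ∨ q.G x y) ∧ (∀ y, y ∉ q.a → u.c y = p.c y) := by
  classical
  have gq : ∀ {x y}, x ∈ q.a → y ∈ q.a → p.G x y → q.G x y := fun {x y} hx hy e =>
    hq.G' ((hp.G x (hi ⟨(p.G_sub _ _ e).1, hx⟩) y (hi ⟨(p.G_sub _ _ e).2.1, hy⟩)).1 e)
  have gp : ∀ {x y}, x ∈ p.a → y ∈ p.a → q.G x y → p.G x y := fun {x y} hx hy e =>
    hp.G' ((hq.G x (hi ⟨hx, (q.G_sub _ _ e).1⟩) y (hi ⟨hy, (q.G_sub _ _ e).2.1⟩)).1 e)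
  have hcl : ∀ x s, Clq (p.a ∪ q.a) (fun x y => p.G x y ∨ q.G x y) x s → p.Cl x s ∨ q.Cl x s := by
    intro x s H
    by_cases h1 : x ∈ q.a ∧ ∀ y ∈ s, y ∈ q.a
    · exact Or.inr ⟨h1.1, fun y hy => (H.2.1 y hy).elim (gq h1.1 (h1.2 y hy)) id,
        fun y hy z hz l => (H.2.2 y hy z hz l).elim (gq (h1.2 y hy) (h1.2 z hz)) id⟩
    have h2 : x ∈ p.a ∧ ∀ y ∈ s, y ∈ p.a := by
      by_cases hx : x ∈ q.a
      · have h3 : ¬ ∀ y ∈ s, y ∈ q.a := fun h => h1 ⟨hx, h⟩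
        push Not at h3
        obtain ⟨z, hz, hz'⟩ := h3
        have e := (H.2.1 z hz).resolve_right fun e => hz' (q.G_sub _ _ e).2.1
        refine ⟨(p.G_sub _ _ e).1, fun y hy => ?_⟩
        rcases lt_trichotomy y z with l | rfl | l
        · exact (p.G_sub _ _ ((H.2.2 z hz y hy l).resolve_right
            fun e => hz' (q.G_sub _ _ e).1)).2.1
        · exact (p.G_sub _ _ e).2.1
        · exact (p.G_sub _ _ ((H.2.2 y hy z hz l).resolve_right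
            fun e => hz' (q.G_sub _ _ e).2.1)).1
      · exact ⟨H.1.resolve_right hx, fun y hy =>
          (p.G_sub _ _ ((H.2.1 y hy).resolve_right fun e => hx (q.G_sub _ _ e).1)).2.1⟩
    exact Or.inl ⟨h2.1, fun y hy => (H.2.1 y hy).elim id (gp h2.1 (h2.2 y hy)),
      fun y hy z hz l => (H.2.2 y hy z hz l).elim id (gp (h2.2 y hy) (h2.2 z hz))⟩
  let ρ : X → Finset X → W ×ₗ W := fun x s => if q.Cl x s then q.ρ x s else p.ρ x s
  have hρq : ∀ x s, q.Cl x s → ρ x s = q.ρ x s := fun x s h => if_pos h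
  have hρp : ∀ x s, p.Cl x s → ρ x s = p.ρ x s := by
    intro x s h
    by_cases h' : q.Cl x s
    · have hr : r.Cl x s := hp.cl' h (hi ⟨h.1, h'.1⟩) fun y hy => hi ⟨h.sub hy, h'.sub hy⟩
      rw [hρq x s h', hq.ρ x s hr, hp.ρ x s hr]
    · exact if_neg h'
  let c : X → Set W := fun y => if y ∈ q.a then q.c y else p.c y
  have hcp : ∀ y ∈ p.a, ∀ η ≤ p.h, (η ∈ c y ↔ η ∈ p.c y) := by
    intro y hy η hη
    by_cases h' : y ∈ q.a
    · simp only [c, if_pos h']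
      exact (hq.c y (hi ⟨hy, h'⟩) η (hh ▸ hη)).trans (hp.c y (hi ⟨hy, h'⟩) η (hh ▸ hη)).symm
    · simp only [c, if_neg h']
  have hcq : ∀ y ∈ q.a, c y = q.c y := fun y hy => if_pos hy
  have hpq : p.h ≤ q.h := hh.le.trans hq.h
  refine ⟨⟨p.a ∪ q.a, q.h, fun x y => p.G x y ∨ q.G x y, c, ρ, p.a_ct.union q.a_ct,
    ?_, ?_, ?_, ?_, ?_⟩,
    ⟨subset_union_left, hpq, fun x hx y hy => ⟨fun e => e.elim id (gp hx hy), Or.inl⟩, hcp, hρp⟩,
    ⟨subset_union_right, le_rfl, fun x hx y hy => ⟨fun e => e.elim (gq hx hy) id, Or.inr⟩,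
      fun y hy η _ => by simp only [hcq y hy], hρq⟩, fun x y h => h, fun y hy => if_neg hy⟩
  · rintro x (hx | hx)
    exacts [(p.lev_le x hx).trans hpq, q.lev_le x hx]
  · rintro x y (e | e)
    · exact ⟨Or.inl (p.G_sub _ _ e).1, Or.inl (p.G_sub _ _ e).2.1, (p.G_sub _ _ e).2.2⟩
    · exact ⟨Or.inr (q.G_sub _ _ e).1, Or.inr (q.G_sub _ _ e).2.1, (q.G_sub _ _ e).2.2⟩
  · intro y hy η hη
    by_cases h' : y ∈ q.a
    · rw [hcq y h'] at hη; exact q.c_le y h' η hη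
    · simp only [c, if_neg h'] at hη
      exact (p.c_le y (hy.resolve_right h') η hη).trans hpq
  · intro x s s' H hs
    rcases hcl x s' H with h | h
    · rw [hρp x s' h, hρp x s (h.mono hs.subset)]; exact p.dec x s s' h hs
    · rw [hρq x s' h, hρq x s (h.mono hs.subset)]; exact q.dec x s s' h hs
  · intro x s H η hη hc
    rcases hcl x s H with h | h
    · rw [hρp x s h]
      exact p.prom x s h η hη fun y hy =>
        (hcp y (h.sub hy) η (hη.trans (p.lev_le x h.1))).1 (hc y hy)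
    · rw [hρq x s h]
      exact q.prom x s h η hη fun y hy => hcq y (h.sub hy) ▸ hc y hy

theorem add_edge (u : Cond) {α β : X} (hαβ : α < β) (hα : α ∈ u.a) (hβ : β ∈ u.a)
    (hno : ¬ u.G β α) {h0 h1 : W} (h01 : h0 < h1) (h1β : h1 ≤ lev β)
    (hcα : ∀ η ∈ u.c α, η ≤ h0)
    (hup : ∀ y, u.G y β → ¬ u.G y α)
    (hdown : ∀ y, u.G β y → (u.G y α ∨ u.G α y) → h1 ∈ u.c y) :
    ∃ v : Cond, v.G β α ∧ ∀ p, u ≤ p → (α ∉ p.a ∨ β ∉ p.a) → v ≤ p := by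
  classical
  obtain ⟨rk, hrk⟩ := exists_rank (R := fun s' s : Finset X => u.Cl β s' ∧ s ⊂ s')
    (Subrelation.wf (fun {s' s} h => u.dec β s s' h.1 h.2)
      (InvImage.wf (u.ρ β) wellFounded_lt))
    (fun s => (ct_finsets u.a_ct).mono fun s' h => show (s' : Set X) ⊆ u.a from
      fun y hy => h.1.sub hy)
  have hcl : ∀ x s, Clq u.a (fun x y => u.G x y ∨ (x = β ∧ y = α)) x s → ¬ u.Cl x s →
      x = β ∧ α ∈ s ∧ u.Cl β (s.erase α) ∧ ∀ y ∈ s.erase α, h1 ∈ u.c y := by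
    intro x s H hn
    have hlt : ∀ y ∈ s, y < x := fun y hy => by
      rcases H.2.1 y hy with e | ⟨rfl, rfl⟩
      exacts [(u.G_sub _ _ e).2.2, hαβ]
    have hx : x = β := by
      by_contra hx
      have g1 : ∀ y ∈ s, u.G x y := fun y hy => (H.2.1 y hy).resolve_right fun e => hx e.1
      refine hn ⟨H.1, g1, fun y hy z hz l => (H.2.2 y hy z hz l).resolve_right ?_⟩
      rintro ⟨rfl, rfl⟩
      exact hup x (g1 _ hy) (g1 _ hz)
    subst hx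
    have g2 : ∀ y ∈ s, ∀ z ∈ s, z < y → u.G y z := fun y hy z hz l =>
      (H.2.2 y hy z hz l).resolve_right fun e => (hlt y hy).ne e.1
    have hαs : α ∈ s := by
      by_contra h
      exact hn ⟨H.1, fun y hy => (H.2.1 y hy).resolve_right fun e => h (e.2 ▸ hy), g2⟩
    have g1 : ∀ y ∈ s.erase α, u.G x y := fun y hy =>
      (H.2.1 y (Finset.mem_of_mem_erase hy)).resolve_right fun e => Finset.ne_of_mem_erase hy e.2
    refine ⟨rfl, hαs, ⟨H.1, g1, fun y hy z hz =>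
      g2 y (Finset.mem_of_mem_erase hy) z (Finset.mem_of_mem_erase hz)⟩, fun y hy => ?_⟩
    refine hdown y (g1 y hy) ?_
    rcases lt_trichotomy y α with l | l | l
    · exact Or.inr (g2 α hαs y (Finset.mem_of_mem_erase hy) l)
    · exact absurd l (Finset.ne_of_mem_erase hy)
    · exact Or.inl (g2 y (Finset.mem_of_mem_erase hy) α hαs l)
  refine ⟨⟨u.a, u.h, fun x y => u.G x y ∨ (x = β ∧ y = α), u.c,
    fun x s => if u.Cl x s then u.ρ x s else toLex (h0, rk (s.erase α)), u.a_ct, u.lev_le,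
    ?_, u.c_le, ?_, ?_⟩, Or.inr ⟨rfl, rfl⟩, fun p hp hpa => ⟨hp.a, hp.h, fun x hx y hy => ?_, hp.c,
      fun x s h => (if_pos (hp.cl h)).trans (hp.ρ x s h)⟩⟩
  · rintro x y (e | ⟨rfl, rfl⟩)
    exacts [u.G_sub _ _ e, ⟨hβ, hα, hαβ⟩]
  · intro x s s' H hs
    by_cases h' : u.Cl x s'
    · rw [if_pos h', if_pos (h'.mono hs.subset)]; exact u.dec x s s' h' hs
    obtain ⟨rfl, k1, k2, k3⟩ := hcl x s' H h'
    rw [if_neg h']
    by_cases h : u.Cl x s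
    · rw [if_pos h]
      have hαs : α ∉ s := fun e => hno (h.2.1 α e)
      have := u.prom x s h h1 h1β fun y hy =>
        k3 y (Finset.mem_erase.2 ⟨fun e => hαs (e ▸ hy), hs.subset hy⟩)
      exact Prod.Lex.lt_iff.2 (Or.inl (h01.trans_le this))
    · rw [if_neg h]
      obtain ⟨-, l1, -, -⟩ := hcl x s (H.mono hs.subset) h
      refine Prod.Lex.lt_iff.2 (Or.inr ⟨rfl, hrk _ _ ⟨k2, ?_⟩⟩)
      rw [Finset.ssubset_iff_subset_ne]
      refine ⟨Finset.erase_subset_erase _ hs.subset, fun e => hs.ne ?_⟩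
      rw [← Finset.insert_erase l1, ← Finset.insert_erase k1, e]
  · intro x s H η hη hc
    by_cases h : u.Cl x s
    · rw [if_pos h]; exact u.prom x s h η hη hc
    · rw [if_neg h]
      exact hcα η (hc α (hcl x s H h).2.1)
  · refine Iff.trans ⟨fun e => e.resolve_right ?_, Or.inl⟩ (hp.G x hx y hy)
    rintro ⟨rfl, rfl⟩
    exact hpa.elim (fun h => h hy) (fun h => h hx)

theorem cc {I : Type} (hI : 𝔠 < #I) (q : I → Cond) : ∃ i j, i ≠ j ∧ ∃ u, u ≤ q i ∧ u ≤ q j := by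
  obtain ⟨r, t, H⟩ := root_lemma (fun i => (q i).a) (fun i => (q i).a_ct) id
    (by rwa [range_id, mk_univ]) (fun r i => ty r (q i)) (mk_ty q)
  obtain ⟨i, -, -, h₂, h₃⟩ := H ∅ countable_empty ∅ countable_empty
  obtain ⟨j, k₀, k₁, k₂, k₃⟩ := H (q i).a (q i).a_ct {i} (countable_singleton i)
  obtain ⟨l₁, l₂⟩ := le_restrict_of_ty k₂ (k₃.trans h₃.symm)
  obtain ⟨l₃, -⟩ := le_restrict_of_ty (p := q i) h₂ rfl
  obtain ⟨u, h₄, h₅, -⟩ := amalg l₁ l₃ (fun x hx => ⟨hx.2, k₁ hx⟩) l₂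
  exact ⟨j, i, k₀, u, h₄, h₅⟩

theorem cc_label (q : X → Cond) (γ : X → X) (h : #(range γ) < kap) :
    ∃ i j, i ≠ j ∧ γ i = γ j ∧ ∃ u, u ≤ q i ∧ u ≤ q j := by
  obtain ⟨y, hy⟩ := exists_big_fiber γ h
  obtain ⟨i, j, hij, H⟩ := cc hy (fun i => q i.1)
  exact ⟨i.1, j.1, fun e => hij (Subtype.ext e), i.2.trans j.2.symm, H⟩

/-- The main combinatorial lemma: a set forced to be large contains an edge. -/
theorem exists_edge (Fo : Cond → X → X → Prop)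
    (mono : ∀ p q β γ, q ≤ p → Fo p β γ → Fo q β γ) (p : Cond)
    (tot : ∀ q ≤ p, ∀ β, ∃ q' ≤ q, ∃ γ, Fo q' β γ)
    (inj : ∀ q ≤ p, ∀ β β' γ, Fo q β γ → Fo q β' γ → β = β') :
    ∃ v ≤ p, ∃ α β α' β', Fo v α α' ∧ Fo v β β' ∧ v.G β' α' := by
  have big : ∀ p' ≤ p, ∃ q : X → Cond, ∃ γ : X → X, (∀ β, q β ≤ p' ∧ Fo (q β) β (γ β) ∧
      γ β ∈ (q β).a) ∧ ¬ #(range γ) < kap := by
    intro p' hp'
    have : ∀ β, ∃ q ≤ p', ∃ γ, Fo q β γ ∧ γ ∈ q.a := fun β => by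
      obtain ⟨q, hq, γ, h⟩ := tot p' hp' β
      obtain ⟨q', hq', h'⟩ := q.add_point γ
      exact ⟨q', hq'.trans hq, γ, mono _ _ _ _ hq' h, h'⟩
    choose q hq γ hγ using this
    refine ⟨q, γ, fun β => ⟨hq β, hγ β⟩, fun h => ?_⟩
    obtain ⟨i, j, hij, e, u, h₁, h₂⟩ := cc_label q γ h
    exact hij (inj u (h₁.trans ((hq i).trans hp')) i j (γ i) (mono _ _ _ _ h₁ (hγ i).1)
      (e ▸ mono _ _ _ _ h₂ (hγ j).1))
  obtain ⟨q, γ, hq, hbig⟩ := big p le_rfl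
  obtain ⟨r, t, H⟩ := root_lemma (fun i => (q i).a) (fun i => (q i).a_ct) γ
    (c_lt_kap.trans_le (not_lt.1 hbig)) (fun r i => ty r (q i)) (mk_ty q)
  obtain ⟨i₀, -, h₁, h₂, h₃⟩ := H p.a p.a_ct ∅ countable_empty
  have hq0 : (q i₀).restrict r ≤ p := restrict_le (hq i₀).1 fun x hx => h₁ ⟨(hq i₀).1.a hx, hx⟩
  obtain ⟨h1, hh1⟩ := W.exists_gt ((q i₀).restrict r).h
  obtain ⟨q1, hq1, e1, e2⟩ := ((q i₀).restrict r).bump h1 hh1
  obtain ⟨q', γ', hq', hbig'⟩ := big q1 (hq1.trans hq0)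
  obtain ⟨β, hβ⟩ : ∃ β, ¬ lev (γ' β) ≤ h1 := by
    by_contra h
    push Not at h
    exact hbig' ((mk_le_mk_of_subset (by rintro _ ⟨b, rfl⟩; exact h b)).trans_lt (mk_lev_le h1))
  have hβ' : h1 < lev (γ' β) := not_le.1 hβ
  obtain ⟨b₁, b₂, b₃⟩ := hq' β
  obtain ⟨α, k₀, k₁, k₂, k₃⟩ := H (q' β).a (q' β).a_ct (q' β).a (q' β).a_ct
  obtain ⟨a₁, a₂, a₃⟩ := hq α
  obtain ⟨l₁, l₂⟩ := le_restrict_of_ty k₂ (k₃.trans h₃.symm)
  have hlev : ∀ x ∈ (q α).a, lev x < h1 := fun x hx =>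
    ((q α).lev_le x hx).trans_lt (l₂ ▸ hh1)
  have hnβ : γ' β ∉ (q α).a := fun h => (hlev _ h).not_gt hβ'
  obtain ⟨u, u₁, u₂, u₃, u₄⟩ := amalg l₁ (b₁.trans hq1) (fun x hx => ⟨h₂ (k₁ hx), k₁ hx⟩) l₂
  have gβ : ∀ y, u.G (γ' β) y → y ∈ (q' β).a := fun y e =>
    ((q' β).G_sub _ _ ((u₃ _ _ e).resolve_left fun e => hnβ ((q α).G_sub _ _ e).1)).2.1
  have gα : ∀ y, u.G y (γ α) → y ∈ (q α).a := fun y e =>
    ((q α).G_sub _ _ ((u₃ _ _ e).resolve_right fun e => k₀ ((q' β).G_sub _ _ e).2.1)).1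
  have gα' : ∀ y, u.G (γ α) y → y ∈ (q α).a := fun y e =>
    ((q α).G_sub _ _ ((u₃ _ _ e).resolve_right fun e => k₀ ((q' β).G_sub _ _ e).1)).2.1
  obtain ⟨v, hv, hv'⟩ := u.add_edge (α := γ α) (β := γ' β) (h0 := (q α).h) (h1 := h1)
    (by
      by_contra h
      exact ((hlev _ a₃).trans hβ').not_ge (lev_mono (not_lt.1 h)))
    (u₁.a a₃) (u₂.a b₃) (fun e => hnβ (gα _ e)) (l₂ ▸ hh1) hβ'.le
    (fun η hη => (q α).c_le _ a₃ η (u₄ _ k₀ ▸ hη))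
    (fun y e e' => ((hlev _ (gα y e')).trans hβ').not_ge (lev_mono (u.G_sub _ _ e).2.2.le))
    (fun y e e' => by
      have y₁ := gβ y e
      have y₂ : y ∈ (q α).a := e'.elim (gα y) (gα' y)
      have y₃ : y ∈ q1.a := hq1.a ⟨h₂ (k₁ ⟨y₂, y₁⟩), k₁ ⟨y₂, y₁⟩⟩
      exact ((u₂.trans b₁).c y y₃ h1 e1.ge).2 (e2 y))
  have v₁ := hv' _ u₁ (Or.inr hnβ)
  have v₂ := hv' _ u₂ (Or.inl k₀)
  exact ⟨v, v₁.trans a₁, α, β, γ α, γ' β, mono _ _ _ _ v₁ a₂, mono _ _ _ _ v₂ b₂, hv⟩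

end Cond

end Pool.Agent.MP_e34318_lc

end

section

namespace Pool.Agent.MP_e34318_lc

open Pool.Agent.MP_c6cf52_lc Name Gen Cardinal Set

theorem wfX : WellFounded (fun a b : X => a < b) := wellFounded_lt

theorem triX (a b : X) : a < b ∨ a = b ∨ b < a := lt_trichotomy a b

/-- Names of ordinals. -/
noncomputable def o (x : X) : Name Cond := ordN wfX x

noncomputable def kN : Name Cond := setN wfX Set.univ

noncomputable def tN : Name Cond := setN wfX (Iic om)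

noncomputable def nN (k : ℕ) : Name Cond := ordN natWf ⟨k⟩

open Classical in
noncomputable def col (b : Prop) : Name Cond := nN (if b then 1 else 0)

variable {g : Gen Cond}

theorem E_o {a : X} (h : o a ∈ g.N) {x : g.M} :
    g.E x (g.v (o a)) ↔ ∃ y, y < a ∧ o y ∈ g.N ∧ g.v (o y) = x := E_ordN wfX h

theorem E_k (h : kN ∈ g.N) {x : g.M} :
    g.E x (g.v kN) ↔ ∃ y, o y ∈ g.N ∧ g.v (o y) = x := by
  unfold kN at h ⊢
  rw [E_setN wfX h]
  simp only [mem_univ, true_and]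
  rfl

theorem o_lt {a b : X} (ha : o a ∈ g.N) (hb : o b ∈ g.N) :
    g.E (g.v (o a)) (g.v (o b)) ↔ a < b := ord_lt_iff wfX triX ha hb

theorem o_inj {a b : X} (ha : o a ∈ g.N) (hb : o b ∈ g.N) (h : g.v (o a) = g.v (o b)) : a = b :=
  ord_inj wfX triX ha hb h

theorem o_mem_om (hb : o om ∈ g.N) {a : X} (h : a < om) : o a ∈ g.N :=
  ordN_mem wfX hb om_ct h

theorem isOrd_o {a : X} (h : o a ∈ g.N) : IsOrd g.E (g.v (o a)) := by
  have e : o a = setN wfX {y | y < a} := ordN_eq wfX a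
  rw [e] at h ⊢
  exact isOrd_setN wfX triX h fun x y h₁ h₂ => lt_trans h₁ h₂

theorem isOrd_k (h : kN ∈ g.N) : IsOrd g.E (g.v kN) :=
  isOrd_setN wfX triX h fun _ _ _ _ => trivial

theorem nN_mem (k : ℕ) : nN k ∈ g.N := nat_mem _

theorem col_mem (b : Prop) : col b ∈ g.N := nN_mem _

theorem nN_inj {j k : ℕ} (h : g.v (nN j) = g.v (nN k)) : j = k :=
  congrArg ULift.down (ord_inj natWf natTri (nN_mem j) (nN_mem k) h)

theorem E_nN {k : ℕ} {x : g.M} : g.E x (g.v (nN k)) ↔ ∃ j < k, g.v (nN j) = x := by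
  unfold nN
  rw [E_ordN natWf (nat_mem _)]
  exact ⟨fun ⟨y, h₁, _, h₂⟩ => ⟨y.down, h₁, h₂⟩, fun ⟨j, h₁, h₂⟩ => ⟨⟨j⟩, h₁, nat_mem _, h₂⟩⟩

theorem col_one {b : Prop} (h : g.v (nN 1) = g.v (col b)) : b := by
  by_contra hb
  have := nN_inj h
  simp [hb] at this

theorem col_zero {b : Prop} (h : g.v (nN 0) = g.v (col b)) : ¬ b := by
  intro hb
  have := nN_inj h
  simp [hb] at this

/-! ### Omega and its successor -/

theorem isOmega_om (hw : o om ∈ g.N) : IsOmega g.E (g.v (o om)) := by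
  refine ⟨isOrd_o hw, ⟨?_, fun x hx => ?_⟩, fun x hx => ?_⟩
  · obtain ⟨x, hx⟩ := om_inf.nonempty
    exact ⟨_, (o_lt (o_mem_om hw hx) hw).2 hx⟩
  · obtain ⟨y, hy, hyN, rfl⟩ := (E_o hw).1 hx
    obtain ⟨z, h₁, h₂⟩ := om_between hy
    exact ⟨_, (o_lt (o_mem_om hw h₂) hw).2 h₂, (o_lt hyN (o_mem_om hw h₂)).2 h₁⟩
  · obtain ⟨y, hy, hyN, rfl⟩ := (E_o hw).1 hx
    rintro ⟨⟨a, ha⟩, H⟩
    obtain ⟨z, hz, -, -⟩ := (E_o hyN).1 ha
    obtain ⟨m, hm, hmax⟩ := Set.exists_max_image (Iio y) id (fin_of_lt hy) ⟨z, hz⟩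
    have hmN := o_mem_om hw (lt_trans hm hy)
    obtain ⟨b, hb, hb'⟩ := H _ ((o_lt hmN hyN).2 hm)
    obtain ⟨z', hz', hzN, rfl⟩ := (E_o hyN).1 hb
    exact ((o_lt hmN hzN).1 hb').not_ge (hmax z' hz')

theorem E_t (ht : tN ∈ g.N) (hw : o om ∈ g.N) (x : g.M) :
    g.E x (g.v tN) ↔ g.E x (g.v (o om)) ∨ x = g.v (o om) := by
  unfold tN at ht ⊢
  rw [E_setN wfX ht, E_o hw]
  constructor
  · rintro ⟨y, hy, h₁, rfl⟩
    rcases (mem_Iic.1 hy).lt_or_eq with h | rfl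
    exacts [Or.inl ⟨y, h, h₁, rfl⟩, Or.inr rfl]
  · rintro (⟨y, hy, h₁, rfl⟩ | rfl)
    exacts [⟨y, mem_Iic.2 hy.le, h₁, rfl⟩, ⟨om, mem_Iic.2 le_rfl, hw, rfl⟩]

/-! ### Cofinality -/

theorem bounded (hk : kN ∈ g.N) (hw : o om ∈ g.N) (f : g.M)
    (hf : IsFun g.E f (g.v (o om)) (g.v kN)) :
    ∃ b, g.E b (g.v kN) ∧ ∀ n y, App g.E f n y → g.E y b := by
  obtain ⟨σ, hσ, rfl⟩ := exists_v f
  have hU : UDef.{1} (fun _ E w => IsFun E (w 0) (w 1) (w 2) →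
      ∃ b, E b (w 2) ∧ ∀ n y, App E (w 0) n y → E y b) := by
    repeat' first
      | exact UDef.mem _ _ | exact UDef.app _ _ _ | exact UDef.isFun _ _ _ | apply UDef.and
      | apply UDef.imp | apply UDef.all | apply UDef.ex
  refine dens hU (l3 hσ hw hk) (fun p _ => ?_) hf
  have := om_ct.to_subtype
  have : Nonempty X := ⟨om⟩
  obtain ⟨q, hq, h, H⟩ := decide_app Cond.closed (J := Iio om) (K := X) σ
    (fun j _ => o j.1) (fun _ k => o k) p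
  obtain ⟨b, hb⟩ := X.bound (countable_range h)
  refine ⟨q, hq, insert (o b) (range fun j => o (h j)), (countable_range _).insert _,
    fun g' hq' hC hl (hf : IsFun g'.E (g'.v σ) (g'.v (o om)) (g'.v kN)) => ?_⟩
  have hbN : o b ∈ g'.N := hC (mem_insert _ _)
  have hk' : kN ∈ g'.N := hl _ (by simp)
  have hw' : o om ∈ g'.N := hl _ (by simp)
  refine ⟨g'.v (o b), (E_k hk').2 ⟨b, hbN, rfl⟩, fun n y (hny : App g'.E (g'.v σ) n y) => ?_⟩
  obtain ⟨z, hz, hzN, rfl⟩ := (E_o hw').1 (fun_mem hf hny).1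
  obtain ⟨x, hxN, rfl⟩ := (E_k hk').1 (fun_mem hf hny).2
  have hh : o (h ⟨z, hz⟩) ∈ g'.N := hC (Or.inr ⟨_, rfl⟩)
  have := H g' hq' (hl _ (by simp)) ⟨z, hz⟩ x hzN hxN hny hzN hh
  rw [fun_uniq hf hny this]
  exact (o_lt hh hbN).2 (hb _ ⟨_, rfl⟩)

/-! ### Injections defined on the large cardinal -/

/-- `q` forces that `σ` maps `β` to `γ`. -/
def Fo (σ : Name Cond) (q : Cond) (β γ : X) : Prop :=
  ∀ g' : Gen Cond, q ∈ g'.G → σ ∈ g'.N → o β ∈ g'.N → o γ ∈ g'.N →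
    App g'.E (g'.v σ) (g'.v (o β)) (g'.v (o γ))

theorem Fo.mono (σ : Name Cond) (p q : Cond) (β γ : X) (h : q ≤ p) (H : Fo σ p β γ) :
    Fo σ q β γ := fun g' hq => H g' (g'.up hq h)

theorem fo_tot {σ τ : Name Cond} {p : Cond} {l : List (Name Cond)} (hσ : σ ∈ l) (hk : kN ∈ l)
    (H : ∀ g' : Gen Cond, p ∈ g'.G → (∀ x ∈ l, x ∈ g'.N) →
      IsInj g'.E (g'.v σ) (g'.v kN) (g'.v τ) ∧ ∀ x, g'.E x (g'.v τ) → g'.E x (g'.v kN))
    (q : Cond) (hq : q ≤ p) (β : X) : ∃ q' ≤ q, ∃ γ, Fo σ q' β γ ∧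
      ∃ g' : Gen Cond, (∀ x ∈ l, x ∈ g'.N) ∧ o γ ∈ g'.N ∧ g'.E (g'.v (o γ)) (g'.v τ) := by
  obtain ⟨g', hq', hC⟩ := exists_gen q (insert (o β) {x | x ∈ l})
    ((List.finite_toSet l).countable.insert _)
  have hl : ∀ x ∈ l, x ∈ g'.N := fun x hx => hC (Or.inr hx)
  have h₄ : o β ∈ g'.N := hC (mem_insert _ _)
  obtain ⟨hf, hsub⟩ := H g' (g'.up hq' hq) hl
  obtain ⟨b, hb, hab⟩ := fun_ex hf.1 ((E_k (hl _ hk)).2 ⟨β, h₄, rfl⟩)
  obtain ⟨z, hzN, rfl⟩ := (E_k (hl _ hk)).1 (hsub b hb)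
  obtain ⟨r, hr, H'⟩ := transfer_app (hl _ hσ) h₄ hzN hab
  obtain ⟨s, -, h₅, h₆⟩ := g'.dir hr hq'
  exact ⟨s, h₆, z, fun g'' hs => H' g'' (g''.up hs h₅), g', hl, hzN, hb⟩

theorem fo_inj {σ τ : Name Cond} {p : Cond} {l : List (Name Cond)} (hσ : σ ∈ l)
    (H : ∀ g' : Gen Cond, p ∈ g'.G → (∀ x ∈ l, x ∈ g'.N) →
      IsInj g'.E (g'.v σ) (g'.v kN) (g'.v τ))
    (q : Cond) (hq : q ≤ p) (β β' γ : X) (h₁ : Fo σ q β γ) (h₂ : Fo σ q β' γ) : β = β' := by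
  obtain ⟨g', hq', hC⟩ := exists_gen q ({o β, o β', o γ} ∪ {x | x ∈ l})
    ((Set.toFinite _).countable.union (List.finite_toSet l).countable)
  have hl : ∀ x ∈ l, x ∈ g'.N := fun x hx => hC (Or.inr hx)
  have a₁ : o β ∈ g'.N := hC (Or.inl (by simp))
  have a₂ : o β' ∈ g'.N := hC (Or.inl (by simp))
  have a₃ : o γ ∈ g'.N := hC (Or.inl (by simp))
  exact o_inj a₁ a₂ ((H g' (g'.up hq' hq) hl).2 _ _ _ (h₁ g' hq' (hl _ hσ) a₁ a₃)
    (h₂ g' hq' (hl _ hσ) a₂ a₃))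

theorem isCard_k (hk : kN ∈ g.N) : IsCard g.E (g.v kN) := by
  refine ⟨isOrd_k hk, fun a ha ⟨f, hf⟩ => ?_⟩
  obtain ⟨y, hyN, rfl⟩ := (E_k hk).1 ha
  obtain ⟨σ, hσ, rfl⟩ := exists_v f
  obtain ⟨p, -, H⟩ := transfer (UDef.isInj 0 1 2) (l3 hσ hk hyN) hf
  have H' : ∀ g' : Gen Cond, p ∈ g'.G → (∀ x ∈ [σ, kN, o y], x ∈ g'.N) →
      IsInj g'.E (g'.v σ) (g'.v kN) (g'.v (o y)) := H
  have key := fo_tot (σ := σ) (τ := o y) (p := p) (l := [σ, kN, o y]) (by simp) (by simp)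
    (fun g' hp hl => ⟨H' g' hp hl, fun x hx => by
      obtain ⟨z, -, hz, rfl⟩ := (E_o (hl _ (by simp))).1 hx
      exact (E_k (hl _ (by simp))).2 ⟨z, hz, rfl⟩⟩) p le_rfl
  choose q hq γ hγ hγ' using key
  have hsmall : #(range γ) < kap := by
    refine lt_of_le_of_lt (mk_le_mk_of_subset ?_) (X.mk_Iio y)
    rintro _ ⟨β, rfl⟩
    obtain ⟨g', hl, h₁, h₂⟩ := hγ' β
    exact (o_lt h₁ (hl _ (by simp))).1 h₂
  obtain ⟨i, j, hij, e, u, h₁, h₂⟩ := Cond.cc_label q γ hsmall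
  exact hij (fo_inj (σ := σ) (l := [σ, kN, o y]) (by simp) H' u (h₁.trans (hq i)) i j (γ i)
    (Fo.mono _ _ _ _ _ h₁ (hγ i)) (e ▸ Fo.mono _ _ _ _ _ h₂ (hγ j)))

/-! ### The colouring -/

noncomputable def DN : Name Cond :=
  fam (fun z : {z : X × X // z.2 < z.1} => upair (o z.1.1) (o z.1.2))

noncomputable def cN : Name Cond :=
  relN (fun z : {z : X × X × Cond // z.2.1 < z.1 ∧ z.1 ∈ z.2.2.a ∧ z.2.1 ∈ z.2.2.a} =>
    upair (o z.1.1) (o z.1.2.1)) (fun z => col (z.1.2.2.G z.1.1 z.1.2.1)) (fun z => z.1.2.2)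

theorem isUPair_upair {σ τ : Name Cond} (hσ : σ ∈ g.N) (hτ : τ ∈ g.N) :
    IsUPair g.E (g.v (upair σ τ)) (g.v σ) (g.v τ) := fun _ => E_upair hσ hτ

theorem IsUPair.uniq {p q a b : g.M} (h : IsUPair g.E p a b) (h' : IsUPair g.E q a b) : p = q :=
  ext fun x => (h x).trans (h' x).symm

theorem IsUPair.symm {p a b : g.M} (h : IsUPair g.E p a b) : IsUPair g.E p b a :=
  fun x => (h x).trans or_comm

theorem upair_inj {x y x' y' : X} (h : y < x) (h' : y' < x') (hx : o x ∈ g.N) (hy : o y ∈ g.N)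
    (hx' : o x' ∈ g.N) (hy' : o y' ∈ g.N)
    (e : g.v (upair (o x) (o y)) = g.v (upair (o x') (o y'))) : x = x' ∧ y = y' := by
  have a₁ := (E_upair hx' hy').1 (e ▸ (E_upair hx hy).2 (Or.inl rfl))
  have a₂ := (E_upair hx' hy').1 (e ▸ (E_upair hx hy).2 (Or.inr rfl))
  rcases a₁ with a₁ | a₁ <;> rcases a₂ with a₂ | a₂
  · exact absurd ((o_inj hy hx' a₂).trans (o_inj hx hx' a₁).symm) h.ne
  · exact ⟨o_inj hx hx' a₁, o_inj hy hy' a₂⟩
  · obtain rfl := o_inj hx hy' a₁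
    obtain rfl := o_inj hy hx' a₂
    exact absurd h h'.not_gt
  · exact absurd ((o_inj hy hy' a₂).trans (o_inj hx hy' a₁).symm) h.ne

theorem E_D (hD : DN ∈ g.N) (hk : kN ∈ g.N) (p : g.M) : g.E p (g.v DN) ↔
    ∃ a b, g.E a (g.v kN) ∧ g.E b (g.v kN) ∧ a ≠ b ∧ IsUPair g.E p a b := by
  unfold DN at hD ⊢
  rw [E_fam hD]
  constructor
  · rintro ⟨⟨⟨x, y⟩, h⟩, h₁, rfl⟩
    obtain ⟨hx, hy⟩ := upair_mem_iff.1 h₁
    exact ⟨_, _, (E_k hk).2 ⟨x, hx, rfl⟩, (E_k hk).2 ⟨y, hy, rfl⟩,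
      fun e => h.ne' (o_inj hx hy e), isUPair_upair hx hy⟩
  · rintro ⟨a, b, ha, hb, hne, e⟩
    obtain ⟨x, hx, rfl⟩ := (E_k hk).1 ha
    obtain ⟨y, hy, rfl⟩ := (E_k hk).1 hb
    rcases triX x y with h | rfl | h
    · exact ⟨⟨(y, x), h⟩, upair_mem hy hx, (isUPair_upair hy hx).uniq e.symm⟩
    · exact absurd rfl hne
    · exact ⟨⟨(x, y), h⟩, upair_mem hx hy, (isUPair_upair hx hy).uniq e⟩

theorem app_cN (hc : cN ∈ g.N) {s t : g.M} : App g.E (g.v cN) s t ↔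
    ∃ x y, ∃ p ∈ g.G, y < x ∧ x ∈ p.a ∧ y ∈ p.a ∧ o x ∈ g.N ∧ o y ∈ g.N ∧
      s = g.v (upair (o x) (o y)) ∧ t = g.v (col (p.G x y)) := by
  unfold cN at hc ⊢
  rw [app_relN hc]
  constructor
  · rintro ⟨⟨⟨x, y, p⟩, h₀, h₁, h₂⟩, hp, h, -, rfl, rfl⟩
    have h := upair_mem_iff.1 h
    exact ⟨x, y, p, hp, h₀, h₁, h₂, h.1, h.2, rfl, rfl⟩
  · rintro ⟨x, y, p, hp, h₀, h₁, h₂, h₃, h₄, rfl, rfl⟩
    exact ⟨⟨⟨x, y, p⟩, h₀, h₁, h₂⟩, hp, upair_mem h₃ h₄, col_mem _, rfl, rfl⟩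

theorem app_cN' (hc : cN ∈ g.N) {x y : X} (hxy : y < x) (hx : o x ∈ g.N) (hy : o y ∈ g.N)
    {t : g.M} (h : App g.E (g.v cN) (g.v (upair (o x) (o y))) t) :
    ∃ p ∈ g.G, x ∈ p.a ∧ y ∈ p.a ∧ t = g.v (col (p.G x y)) := by
  obtain ⟨x', y', p, hp, h₀, h₁, h₂, h₃, h₄, e, rfl⟩ := (app_cN hc).1 h
  obtain ⟨rfl, rfl⟩ := upair_inj hxy h₀ hx hy h₃ h₄ e
  exact ⟨p, hp, h₁, h₂, rfl⟩

theorem udef_upair (i j k : ℕ) : UDef.{1} (fun _ E w => IsUPair E (w i) (w j) (w k)) := by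
  unfold IsUPair
  repeat' first
    | exact UDef.mem _ _ | exact UDef.eq _ _ | apply UDef.or | apply UDef.iff | apply UDef.all

theorem isFun_cN (hc : cN ∈ g.N) (hD : DN ∈ g.N) :
    IsFun g.E (g.v cN) (g.v DN) (g.v (nN 2)) := by
  constructor
  · intro p hp
    obtain ⟨⟨⟨x, y, q⟩, h₀, h₁, h₂⟩, -, h, -, rfl⟩ := (E_relN hc).1 hp
    refine ⟨_, _, (E_fam hD).2 ⟨⟨(x, y), h₀⟩, h, rfl⟩, E_nN.2 ⟨_, ?_, rfl⟩, isPair_pr _ _⟩
    split_ifs <;> simp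
  · intro a ha
    obtain ⟨⟨⟨x, y⟩, hxy⟩, h, rfl⟩ := (E_fam hD).1 ha
    obtain ⟨hx, hy⟩ := upair_mem_iff.1 h
    have : ∃ b, App g.E (g.v cN) (g.v (upair (o x) (o y))) b := by
      refine dens (Ψ := fun _ E w => ∃ b, App E (w 0) (w 1) b)
        (UDef.ex (UDef.app _ _ _)) (l2 hc h) fun p _ => ?_
      obtain ⟨q, hq, h₁, h₂⟩ := p.add_two x y
      refine ⟨q, hq, ∅, countable_empty, fun g' hq' _ hl => ⟨g'.v (col (q.G x y)), ?_⟩⟩
      have h' : upair (o x) (o y) ∈ g'.N := hl _ (by simp)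
      exact (app_cN (hl _ (by simp))).2 ⟨x, y, q, hq', hxy, h₁, h₂, (upair_mem_iff.1 h').1,
        (upair_mem_iff.1 h').2, rfl, rfl⟩
    obtain ⟨b, hb⟩ := this
    refine ⟨b, hb, fun b' hb' => ?_⟩
    obtain ⟨p, hp, h₁, h₂, rfl⟩ := app_cN' hc hxy hx hy hb
    obtain ⟨q, hq, h₃, h₄, rfl⟩ := app_cN' hc hxy hx hy hb'
    obtain ⟨r, -, h₅, h₆⟩ := g.dir hp hq
    rw [propext ((h₆.G x h₃ y h₄).symm.trans (h₅.G x h₁ y h₂))]

theorem no_large (hc : cN ∈ g.N) (hk : kN ∈ g.N) (A f : g.M)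
    (hA : ∀ x, g.E x A → g.E x (g.v kN)) (hf : IsInj g.E f (g.v kN) A) :
    ¬ Homog g.E (g.v cN) A (g.v (nN 0)) := by
  intro hH
  obtain ⟨σ, hσ, rfl⟩ := exists_v f
  obtain ⟨τ, hτ, rfl⟩ := exists_v A
  have hU : UDef.{1} (fun _ E w => (IsInj E (w 0) (w 1) (w 2) ∧ ∀ x, E x (w 2) → E x (w 1)) ∧
      Homog E (w 3) (w 2) (w 4)) := by
    unfold Homog
    repeat' first
      | exact UDef.mem _ _ | exact UDef.app _ _ _ | exact UDef.isInj _ _ _ | exact UDef.ne _ _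
      | exact udef_upair _ _ _ | apply UDef.and | apply UDef.imp | apply UDef.all
  obtain ⟨p, -, H⟩ := transfer hU (l := [σ, kN, τ, cN, nN 0])
    (lcons hσ (l4 hk hτ hc (nN_mem 0))) ⟨⟨hf, hA⟩, hH⟩
  have H' : ∀ g' : Gen Cond, p ∈ g'.G → (∀ x ∈ [σ, kN, τ, cN, nN 0], x ∈ g'.N) →
      (IsInj g'.E (g'.v σ) (g'.v kN) (g'.v τ) ∧ ∀ x, g'.E x (g'.v τ) → g'.E x (g'.v kN)) ∧
        Homog g'.E (g'.v cN) (g'.v τ) (g'.v (nN 0)) := H
  obtain ⟨v, hv, α, β, α', β', h₁, h₂, e⟩ := Cond.exists_edge (Fo σ) (Fo.mono σ) p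
    (fun q hq β => by
      obtain ⟨q', hq', γ, h, -⟩ := fo_tot (σ := σ) (τ := τ) (l := [σ, kN, τ, cN, nN 0])
        (by simp) (by simp) (fun g' hp hl => (H' g' hp hl).1) q hq β
      exact ⟨q', hq', γ, h⟩)
    (fo_inj (σ := σ) (τ := τ) (l := [σ, kN, τ, cN, nN 0]) (by simp)
      fun g' hp hl => (H' g' hp hl).1.1)
  obtain ⟨g', hv', hC⟩ := exists_gen v {σ, kN, τ, cN, nN 0, o α, o β, o α', o β'}
    (Set.toFinite _).countable
  obtain ⟨⟨k₁, -⟩, k₂⟩ := H' g' (g'.up hv' hv) (lcons (hC (by simp))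
    (l4 (hC (by simp)) (hC (by simp)) (hC (by simp)) (hC (by simp))))
  have a₁ : o α' ∈ g'.N := hC (by simp)
  have a₂ : o β' ∈ g'.N := hC (by simp)
  have b₁ := h₁ g' hv' (hC (by simp)) (hC (by simp)) a₁
  have b₂ := h₂ g' hv' (hC (by simp)) (hC (by simp)) a₂
  obtain ⟨m₁, m₂, hlt⟩ := v.G_sub _ _ e
  have b₃ := k₂ _ _ _ (fun_mem k₁.1 b₂).2 (fun_mem k₁.1 b₁).2 (fun e => hlt.ne' (o_inj a₂ a₁ e))
    (isUPair_upair a₂ a₁)
  obtain ⟨q, hq, n₁, n₂, e'⟩ := app_cN' (hC (by simp)) hlt a₂ a₁ b₃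
  obtain ⟨r, -, h₅, h₆⟩ := g'.dir hq hv'
  exact col_zero e' ((h₅.G _ n₁ _ n₂).1 (h₆.G' e))

theorem no_long (hc : cN ∈ g.N) (hk : kN ∈ g.N) (hw : o om ∈ g.N) (ht : tN ∈ g.N) (B : g.M)
    (hB : ∀ x, g.E x B → g.E x (g.v kN)) (hO : HasOtp g.E B (g.v tN)) :
    ¬ Homog g.E (g.v cN) B (g.v (nN 1)) := by
  classical
  intro hH
  obtain ⟨f, hf, -, hm⟩ := hO
  obtain ⟨e, he, he'⟩ := exists_seq_om
  have val : ∀ z, z ≤ om → ∃ y, o y ∈ g.N ∧ App g.E f (g.v (o z)) (g.v (o y)) := by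
    intro z hz
    have h : g.E (g.v (o z)) (g.v tN) := by
      rw [E_t ht hw]
      rcases hz.lt_or_eq with h | rfl
      exacts [Or.inl ((o_lt (o_mem_om hw h) hw).2 h), Or.inr rfl]
    obtain ⟨b, hb, hab⟩ := fun_ex hf h
    obtain ⟨y, hy, rfl⟩ := (E_k hk).1 (hB b hb)
    exact ⟨y, hy, hab⟩
  obtain ⟨x, hxN, hx⟩ := val om le_rfl
  choose y hyN hy using fun n => val (e n) (he' n).le
  have edge : ∀ {a b : X} {s t : g.M}, o a ∈ g.N → o b ∈ g.N → App g.E f s (g.v (o a)) →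
      App g.E f t (g.v (o b)) → g.E s t → a < b ∧ ∃ p ∈ g.G, p.G b a := by
    intro a b s t ha hb h₁ h₂ h₃
    have hlt : a < b := (o_lt ha hb).1 (hm _ _ _ _ h₁ h₂ h₃)
    have := hH _ _ _ (fun_mem hf h₂).2 (fun_mem hf h₁).2 (fun e => hlt.ne' (o_inj hb ha e))
      (isUPair_upair hb ha)
    obtain ⟨p, hp, -, -, e'⟩ := app_cN' hc hlt hb ha this
    exact ⟨hlt, p, hp, col_one e'⟩
  have e1 : ∀ n, ∃ p ∈ g.G, p.G x (y n) := fun n =>
    (edge (hyN n) hxN (hy n) hx ((o_lt (o_mem_om hw (he' n)) hw).2 (he' n))).2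
  have e2 : ∀ m n, m < n → y m < y n ∧ ∃ p ∈ g.G, p.G (y n) (y m) := fun m n h =>
    edge (hyN m) (hyN n) (hy m) (hy n)
      ((o_lt (o_mem_om hw (he' m)) (o_mem_om hw (he' n))).2 (he h))
  have ymono : StrictMono y := fun m n h => (e2 m n h).1
  have inG : ∀ z : X, (∃ p ∈ g.G, z ∈ p.a) → ∀ q ∈ g.G, ∃ r ∈ g.G, r ≤ q ∧ z ∈ r.a := by
    rintro z ⟨p, hp, hz⟩ q hq
    obtain ⟨r, hr, h₁, h₂⟩ := g.dir hp hq
    exact ⟨r, hr, h₂, h₁.a hz⟩
  have gG : ∀ {a b : X} {q : Cond}, q ∈ g.G → a ∈ q.a → b ∈ q.a → (∃ p ∈ g.G, p.G a b) →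
      q.G a b := by
    rintro a b q hq ha hb ⟨p, hp, h⟩
    obtain ⟨r, -, h₁, h₂⟩ := g.dir hp hq
    exact (h₂.G a ha b hb).1 (h₁.G' h)
  have hxa : ∃ p ∈ g.G, x ∈ p.a := by
    obtain ⟨p, hp, h⟩ := e1 0
    exact ⟨p, hp, (p.G_sub _ _ h).1⟩
  have hya : ∀ n, ∃ p ∈ g.G, y n ∈ p.a := fun n => by
    obtain ⟨p, hp, h⟩ := e1 n
    exact ⟨p, hp, (p.G_sub _ _ h).2.1⟩
  have hP : ∀ N : ℕ, ∃ p ∈ g.G, x ∈ p.a ∧ ∀ n < N, y n ∈ p.a := by
    intro N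
    induction N with
    | zero => obtain ⟨p, hp, h⟩ := hxa; exact ⟨p, hp, h, by simp⟩
    | succ N ih =>
      obtain ⟨p, hp, h₁, h₂⟩ := ih
      obtain ⟨r, hr, h₃, h₄⟩ := inG _ (hya N) p hp
      refine ⟨r, hr, h₃.a h₁, fun n hn => ?_⟩
      rcases Nat.lt_succ_iff_lt_or_eq.1 hn with h | rfl
      exacts [h₃.a (h₂ n h), h₄]
  choose P hP₁ hP₂ hP₃ using hP
  have hcl : ∀ N, (P N).Cl x ((Finset.range N).image y) := by
    intro N
    refine ⟨hP₂ N, fun z hz => ?_, fun z hz z' hz' l => ?_⟩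
    · obtain ⟨n, hn, rfl⟩ := Finset.mem_image.1 hz
      exact gG (hP₁ N) (hP₂ N) (hP₃ N n (Finset.mem_range.1 hn)) (e1 n)
    · obtain ⟨n, hn, rfl⟩ := Finset.mem_image.1 hz
      obtain ⟨m, hm, rfl⟩ := Finset.mem_image.1 hz'
      exact gG (hP₁ N) (hP₃ N n (Finset.mem_range.1 hn)) (hP₃ N m (Finset.mem_range.1 hm))
        (e2 m n (ymono.lt_iff_lt.1 l)).2
  have hdec : StrictAnti fun N => (P N).ρ x ((Finset.range N).image y) := by
    refine strictAnti_nat_of_succ_lt fun N => ?_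
    obtain ⟨r, -, h₁, h₂⟩ := g.dir (hP₁ N) (hP₁ (N + 1))
    rw [← h₁.ρ _ _ (hcl N), ← h₂.ρ _ _ (hcl (N + 1))]
    refine r.dec _ _ _ (h₂.cl (hcl (N + 1))) ?_
    rw [Finset.range_add_one, Finset.image_insert]
    refine Finset.ssubset_insert fun hN => ?_
    obtain ⟨m, hm, e⟩ := Finset.mem_image.1 hN
    exact (Finset.mem_range.1 hm).ne (ymono.injective e)
  exact not_strictAnti_of_wellFoundedLT _ hdec

theorem main : ∃ (M : Type 1) (E : M → M → Prop), IsZFC E ∧ ∃ w t k : M,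
    IsOmega E w ∧ (∀ x, E x t ↔ E x w ∨ x = w) ∧ IsCard E k ∧ E w k ∧
    (∀ f, IsFun E f w k → ∃ b, E b k ∧ ∀ n y, App E f n y → E y b) ∧
    ¬ Arrow E k t := by
  obtain ⟨g, -, hC⟩ := exists_gen (⊤ : Cond) {cN, DN, o om, tN, kN} (Set.toFinite _).countable
  have hc : cN ∈ g.N := hC (by simp)
  have hD : DN ∈ g.N := hC (by simp)
  have hw : o om ∈ g.N := hC (by simp)
  have ht : tN ∈ g.N := hC (by simp)
  have hk : kN ∈ g.N := hC (by simp)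
  refine ⟨g.M, g.E, g.isZFC, g.v (o om), g.v tN, g.v kN, isOmega_om hw, E_t ht hw, isCard_k hk,
    (E_k hk).2 ⟨_, hw, rfl⟩, bounded hk hw, fun h => ?_⟩
  rcases h (g.v DN) (g.v (nN 0)) (g.v (nN 1)) (g.v (nN 2)) (g.v cN) (E_D hD hk)
    (fun x hx => by simpa using E_nN.1 hx) (fun x => by rw [E_nN]; simp [eq_comm])
    (fun x => by
      rw [E_nN]
      constructor
      · rintro ⟨j, hj, rfl⟩
        interval_cases j <;> simp
      · rintro (rfl | rfl)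
        exacts [⟨0, by norm_num, rfl⟩, ⟨1, by norm_num, rfl⟩])
    (isFun_cN hc hD) with ⟨A, h₁, ⟨f, h₂⟩, h₃⟩ | ⟨B, h₁, h₂, h₃⟩
  · exact no_large hc hk A f h₁ h₂ h₃
  · exact no_long hc hk hw ht B h₁ h₂ h₃

end Pool.Agent.MP_e34318_lc

end
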